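import Pool.Agent.R474.CE.Stm

set_option autoImplicit false

/-!
# An antichain from free far pairs (piece ANT, helper77)
-/

namespace Pool.Agent.R474.CE

theorem ANT : S_ANT := by
  intro D b hb h hw
  apply hw
  choose y hy using fun k : ℕ => h (fun s t => decide (s = 0 ∧ t = b + k)) (b + 1 + k) (by omega)
  refine ⟨y, fun i => (hy i).1, ?_⟩
  rintro i j hij ⟨k, hk, hR⟩
  obtain ⟨-, hni, hFi⟩ := hy i
  obtain ⟨-, hnj, hFj⟩ := hy j
  rw [hni, hnj] at hk
  rw [hni] at hR
  have h1 := (hFi 0 (b + i) (by omega) (by omega)).1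
  have h2 := (hFj k (k + (b + i)) (by omega) (by omega)).1
  have h3 := hR 0 (by omega) (b + i) (by omega)
  rw [Nat.add_zero, h1, h2] at h3
  have h4 : (k = 0 ∧ k + (b + i) = b + j) := by simpa using h3
  omega

end Pool.Agent.R474.CE
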