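import Pool.Agent.R474.CE.Stm

/-!
# Consecutive embeddings of digraphs and tournaments: assembly
-/

set_option autoImplicit false

namespace Pool.Agent.R474.CE.Asm

open Pool.Agent.R474.CE

theorem down (hRES : S_RES) (ok : Bool → Bool → Bool) (B : Set Str) : Down (Av (Kof ok) B) :=
  fun x hx y hy => (hRES ok B).1 x hx y hy

theorem crit_wqo (hPER : S_PER) (hGEN : S_GEN) (hANT : S_ANT) (hFIN : S_FIN) (hRES : S_RES)
    (ok : Bool → Bool → Bool) (h1 : ok true false = true) (h2 : ok false true = true)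
    (B : Set Str) (b : ℕ) (hb : 1 ≤ b) (hB : ∀ y ∈ B, y.n ≤ b) :
    WQO (Av (Kof ok) B) ↔ ∀ x ∈ Av (Kof ok) B, x.n ≠ M b := by
  constructor
  · intro hW x hx hn
    obtain ⟨i, j, hij, hj, hw⟩ := hPER b x
    refine hANT (Av (Kof ok) B) b hb ?_ hW
    intro F n hn'
    refine hGEN ok B b hb h1 h2 hB x hx i j hij ?_ hw F n hn'
    rw [hn]
    unfold M
    omega
  · intro h
    refine hFIN _ (M b) ?_
    intro x hx
    by_contra hlt
    have h3 := (hRES ok B).2 x hx 0 (M b) (by omega)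
    exact h _ h3 rfl

theorem crit_atomic (hJEP : S_JEP) (hNEC : S_NEC) (hSUF : S_SUF) (hRES : S_RES)
    (ok : Bool → Bool → Bool) (h1 : ok true false = true) (h2 : ok false true = true)
    (B : Set Str) (b : ℕ) (hb : 1 ≤ b) (hB : ∀ y ∈ B, y.n ≤ b) :
    Atomic (Av (Kof ok) B) ↔ CritA ok B b := by
  rw [hJEP _ (down hRES ok B)]
  exact ⟨hNEC ok B b hb h1 h2 hB, hSUF ok B b hb h1 h2 hB⟩

theorem bd_pos (B : Inp) : 1 ≤ bd B := by
  unfold bd
  omega

theorem comp_wqo (hPER : S_PER) (hGEN : S_GEN) (hANT : S_ANT) (hFIN : S_FIN) (hRES : S_RES)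
    (hPBD : S_PBD) (hPW : S_PW) (hCW : S_CW)
    (ok : Bool → Bool → Bool) (h1 : ok true false = true) (h2 : ok false true = true) :
    ComputablePred (fun B : Inp => WQO (Av (Kof ok) (bas B))) := by
  refine ComputablePred.of_eq (p := fun B : Inp => wC ok B) ?_ ?_
  · exact (hPW ok).computablePred
  · intro B
    rw [crit_wqo hPER hGEN hANT hFIN hRES ok h1 h2 (bas B) (bd B) (bd_pos B) (hPBD.2.2 B)]
    exact (hCW ok B).symm

theorem comp_atomic (hJEP : S_JEP) (hNEC : S_NEC) (hSUF : S_SUF) (hRES : S_RES)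
    (hPBD : S_PBD) (hPA1 : S_PA1) (hPA2 : S_PA2) (hCA : S_CA)
    (ok : Bool → Bool → Bool) (h1 : ok true false = true) (h2 : ok false true = true) :
    ComputablePred (fun B : Inp => Atomic (Av (Kof ok) (bas B))) := by
  refine ComputablePred.of_eq (p := fun B : Inp => aC1 ok B ∧ aC2 ok B) ?_ ?_
  · exact ((hPA1 ok).and (hPA2 ok)).computablePred
  · intro B
    rw [crit_atomic hJEP hNEC hSUF hRES ok h1 h2 (bas B) (bd B) (bd_pos B) (hPBD.2.2 B)]
    exact (hCA ok B).symm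

theorem dig_eq : Dig = Kof (fun _ _ => true) := by
  funext x
  unfold Dig Kof
  simp

theorem tour_eq : Tour = Kof (fun p q => p == !q) := by
  funext x
  unfold Tour Kof
  apply propext
  constructor
  · rintro ⟨h1, h2⟩
    refine ⟨h1, fun i j hij hj => ?_⟩
    have := h2 i (by omega) j hj (by omega)
    rw [this]
    simp
  · rintro ⟨h1, h2⟩
    refine ⟨h1, fun i hi j hj hij => ?_⟩
    rcases Nat.lt_or_gt_of_ne hij with h3 | h3
    · have := h2 i j h3 hj
      exact beq_iff_eq.1 this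
    · have h4 := beq_iff_eq.1 (h2 j i h3 hi)
      rw [h4]
      simp

theorem main (hPER : S_PER) (hGEN : S_GEN) (hANT : S_ANT) (hFIN : S_FIN) (hRES : S_RES)
    (hPBD : S_PBD) (hPW : S_PW) (hCW : S_CW) (hJEP : S_JEP) (hNEC : S_NEC) (hSUF : S_SUF)
    (hPA1 : S_PA1) (hPA2 : S_PA2) (hCA : S_CA) : Result := by
  refine ⟨?_, ?_, ?_, ?_⟩
  · rw [dig_eq]
    exact comp_wqo hPER hGEN hANT hFIN hRES hPBD hPW hCW _ rfl rfl
  · rw [dig_eq]
    exact comp_atomic hJEP hNEC hSUF hRES hPBD hPA1 hPA2 hCA _ rfl rfl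
  · rw [tour_eq]
    exact comp_wqo hPER hGEN hANT hFIN hRES hPBD hPW hCW _ rfl rfl
  · rw [tour_eq]
    exact comp_atomic hJEP hNEC hSUF hRES hPBD hPA1 hPA2 hCA _ rfl rfl

end Pool.Agent.R474.CE.Asm
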