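import Pool.Agent.R474.CE.Stm

set_option autoImplicit false

namespace Pool.Agent.R474.CE

namespace CA

theorem etr {x y z : Str} (h1 : Emb x y) (h2 : Emb y z) : Emb x z := by
  obtain ⟨k, hk, h1⟩ := h1
  obtain ⟨l, hl, h2⟩ := h2
  refine ⟨l + k, by omega, fun i hi j hj => ?_⟩
  rw [h1 i hi j hj, h2 (k + i) (by omega) (k + j) (by omega), add_assoc, add_assoc]

theorem emb1 {x y : Str} (hn : y.n = x.n) (h : ∀ i < x.n, ∀ j < x.n, y.R i j = x.R i j) :
    Emb x y := ⟨0, by omega, fun i hi j hj => by rw [zero_add, zero_add, h i hi j hj]⟩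

theorem emb2 {x y : Str} (hn : y.n = x.n) (h : ∀ i < x.n, ∀ j < x.n, y.R i j = x.R i j) :
    Emb y x := ⟨0, by omega, fun i hi j hj => by
      rw [zero_add, zero_add, h i (by omega) j (by omega)]⟩

theorem le_M (b : ℕ) : b ≤ M b := by
  unfold M
  exact (Nat.le_add_right _ _).trans (Nat.le_add_right _ _)

/-- codes below a uniform bound -/
theorem code (hC : S_COD) {x : Str} {L : ℕ} (hL : x.n ≤ L) : ∃ c < 2 ^ (L * L),
    ∀ i < x.n, ∀ j < x.n, (cod x.n c).R i j = x.R i j := by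
  obtain ⟨c, hc, h⟩ := hC x
  exact ⟨c, hc.trans_le (Nat.pow_le_pow_right (by norm_num) (Nat.mul_le_mul hL hL)), h⟩

end CA

open CA in
theorem CA (hC : S_COD) (hR : S_COR) (hS : S_RES) : S_CA := by
  intro ok B
  obtain ⟨r1, r2, r3⟩ := hR
  have down := (hS ok (bas B)).1
  constructor
  · rintro ⟨h1, h2⟩
    refine ⟨?_, ?_⟩
    · intro n hn c _ n' hn' c' _ a1 a2
      obtain ⟨z, hz, hzn, e1, e2⟩ := h1 _ ((r1 ok B n c).1 a1) _ ((r1 ok B n' c').1 a2)
        (Nat.lt_succ_iff.1 hn) (Nat.lt_succ_iff.1 hn')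
      obtain ⟨d, hd, hdz⟩ := code hC hzn
      refine ⟨z.n, Nat.lt_succ_of_le hzn, d, hd, ?_, ?_, ?_⟩
      · exact (r1 ok B _ _).2 (down z hz _ (emb2 rfl hdz))
      · exact (r2 _ _ _ _).2 (etr e1 (emb1 rfl hdz))
      · exact (r2 _ _ _ _).2 (etr e2 (emb1 rfl hdz))
    · intro c _ c' _ a1 a2
      obtain ⟨z, hz, hzn, hbz, w1, w2⟩ := h2 _ ((r1 ok B _ c).1 a1) _ ((r1 ok B _ c').1 a2) rfl rfl
      obtain ⟨d, hd, hdz⟩ := code hC hzn
      refine ⟨z.n, Nat.lt_succ_of_le hzn, d, hd, hbz, ?_, ?_, ?_⟩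
      · exact (r1 ok B _ _).2 (down z hz _ (emb2 rfl hdz))
      · rw [r3]
        intro s hs t ht
        rw [hdz _ (by omega) _ (by omega)]
        exact w1 s hs t ht
      · rw [r3]
        intro s hs t ht
        rw [hdz _ (by omega) _ (by omega)]
        exact w2 s hs t ht
  · rintro ⟨h1, h2⟩
    refine ⟨?_, ?_⟩
    · intro w hw w' hw' hn hn'
      obtain ⟨c, hc, hcw⟩ := code hC (hn.trans (le_M _))
      obtain ⟨c', hc', hcw'⟩ := code hC (hn'.trans (le_M _))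
      obtain ⟨m, hm, d, _, a, e1, e2⟩ := h1 w.n (Nat.lt_succ_of_le hn) c hc w'.n
        (Nat.lt_succ_of_le hn') c' hc' ((r1 ok B _ _).2 (down w hw _ (emb2 rfl hcw)))
        ((r1 ok B _ _).2 (down w' hw' _ (emb2 rfl hcw')))
      exact ⟨cod m d, (r1 ok B _ _).1 a, Nat.lt_succ_iff.1 hm,
        etr (emb1 (x := w) (y := cod w.n c) rfl hcw) ((r2 _ _ _ _).1 e1),
        etr (emb1 (x := w') (y := cod w'.n c') rfl hcw') ((r2 _ _ _ _).1 e2)⟩
    · intro u hu v hv hun hvn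
      obtain ⟨c, hc, hcu⟩ := code hC (x := u) (L := M (bd B)) (by rw [hun]; exact le_M _)
      obtain ⟨c', hc', hcv⟩ := code hC (x := v) (L := M (bd B)) (by rw [hvn]; exact le_M _)
      have a1 : avC ok B u.n c := (r1 ok B _ _).2 (down u hu _ (emb2 rfl hcu))
      have a2 : avC ok B v.n c' := (r1 ok B _ _).2 (down v hv _ (emb2 rfl hcv))
      rw [hun] at a1 hcu
      rw [hvn] at a2 hcv
      obtain ⟨m, hm, d, _, hbm, a, w1, w2⟩ := h2 c hc c' hc' a1 a2
      rw [r3] at w1 w2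
      refine ⟨cod m d, (r1 ok B _ _).1 a, Nat.lt_succ_iff.1 hm, hbm, ?_, ?_⟩
      · intro s hs t ht
        rw [w1 s hs t ht, hcu _ (by omega) _ (by omega)]
      · intro s hs t ht
        have := w2 s hs t ht
        rw [hcv _ (by omega) _ (by omega)] at this
        exact this

end Pool.Agent.R474.CE
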