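import Pool.Agent.R474.CE.Stm

/-! CE-COD (helper861, subtask 6200): every structure has a code. -/

set_option autoImplicit false

namespace Pool.Agent.R474.CE

theorem COD : S_COD := by
  intro x
  refine ⟨Nat.ofBits (fun k : Fin (x.n * x.n) => x.R ((k : ℕ) / x.n) ((k : ℕ) % x.n)),
    Nat.ofBits_lt_two_pow _, ?_⟩
  intro i hi j hj
  have hlt : i * x.n + j < x.n * x.n := by
    have h1 : (i + 1) * x.n ≤ x.n * x.n := Nat.mul_le_mul_right _ hi
    have h2 : (i + 1) * x.n = i * x.n + x.n := by ring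
    omega
  have h1 := Nat.testBit_ofBits_lt
    (fun k : Fin (x.n * x.n) => x.R ((k : ℕ) / x.n) ((k : ℕ) % x.n)) (i * x.n + j) hlt
  have hpos : 0 < x.n := by omega
  have e1 : (i * x.n + j) / x.n = i := by
    rw [mul_comm, Nat.mul_add_div hpos, Nat.div_eq_of_lt hj, add_zero]
  have e2 : (i * x.n + j) % x.n = j := by
    rw [mul_comm, Nat.mul_add_mod, Nat.mod_eq_of_lt hj]
  simp only [e1, e2] at h1
  rw [← h1, Nat.testBit_eq_decide_div_mod_eq]
  rfl

end Pool.Agent.R474.CE
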