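import Pool.Agent.R474.CE.Stm

/-!
# Project CE (MP_7b05dd_co), piece COR (helper165): the codes are correct
-/

set_option autoImplicit false

namespace Pool.Agent.R474.CE

theorem COR.one (ok : Bool → Bool → Bool) (B : Inp) (n c : ℕ) :
    avC ok B n c ↔ cod n c ∈ Av (Kof ok) (bas B) := by
  constructor
  · rintro ⟨h1, h2, h3⟩
    refine ⟨⟨?_, ?_⟩, ?_⟩
    · intro i hi
      exact decide_eq_false (h1 i hi)
    · intro i j hij hj
      exact h2 i (hij.trans hj) j hj hij
    · rintro y ⟨p, hp, rfl⟩ ⟨k, hk, hk2⟩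
      apply h3 p hp
      refine ⟨k, ?_, hk, ?_⟩
      · have : k + p.1 ≤ n := hk
        omega
      · intro i hi j hj
        have h4 : decide ((i, j) ∈ p.2) = decide (bit n c (k + i) (k + j)) := hk2 i hi j hj
        exact decide_eq_decide.1 h4
  · rintro ⟨⟨h1, h2⟩, h3⟩
    refine ⟨?_, ?_, ?_⟩
    · intro i hi
      have h4 : decide (bit n c i i) = false := h1 i hi
      exact of_decide_eq_false h4
    · intro i hi j hj hij
      exact h2 i j hij hj
    · rintro p hp ⟨k, -, hk, hk2⟩
      refine h3 (den p) ⟨p, hp, rfl⟩ ⟨k, hk, ?_⟩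
      intro i hi j hj
      exact decide_eq_decide.2 (hk2 i hi j hj)

theorem COR.two (n c m d : ℕ) : embC n c m d ↔ Emb (cod n c) (cod m d) := by
  constructor
  · rintro ⟨k, -, hk, hk2⟩
    refine ⟨k, hk, ?_⟩
    intro i hi j hj
    exact decide_eq_decide.2 (hk2 i hi j hj)
  · rintro ⟨k, hk, hk2⟩
    refine ⟨k, ?_, hk, ?_⟩
    · have : k + n ≤ m := hk
      omega
    · intro i hi j hj
      exact decide_eq_decide.1 (hk2 i hi j hj)

theorem COR.three (b n c i m d j : ℕ) :
    winC b n c i m d j ↔ Win b (cod n c) i (cod m d) j := by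
  constructor
  · intro h s hs t ht
    exact decide_eq_decide.2 (h s hs t ht)
  · intro h s hs t ht
    exact decide_eq_decide.1 (h s hs t ht)

theorem COR : S_COR := ⟨COR.one, COR.two, COR.three⟩

end Pool.Agent.R474.CE
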