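import Pool.Agent.R474.CE.Stm

/-!
# Short paths (piece CUT of project CE)
-/

set_option autoImplicit false

namespace Pool.Agent.R474.CE

theorem CUT (hPER : S_PER) (hRES : S_RES) (hGLUE : S_GLUE) : S_CUT := by
  intro ok B b hb hok hB u v
  suffices H : ∀ N : ℕ, ∀ z ∈ Av (Kof ok) B, z.n = N → Path b u v z →
      ∃ z' ∈ Av (Kof ok) B, z'.n ≤ M b ∧ Path b u v z' by
    intro z hz hp
    exact H z.n z hz rfl hp
  intro N
  induction N using Nat.strong_induction_on with
  | _ N ih =>
    intro z hz hzn hp
    by_cases hle : z.n ≤ M b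
    · exact ⟨z, hz, hle, hp⟩
    · have hM : b + 2 ^ (b * b) + 1 < z.n := by
        have := not_le.mp hle
        simpa [M] using this
      obtain ⟨i, j, hij, hj, hw⟩ := hPER b z
      obtain ⟨hbz, hp1, hp2⟩ := hp
      have hx1 := (hRES ok B).2 z hz 0 (i + b) (by omega)
      have hx2 := (hRES ok B).2 z hz j (z.n - j) (by omega)
      obtain ⟨y, hy, hyn, hy1, hy2⟩ := hGLUE ok B b hb hok hB _ hx1 _ hx2
        (by show b ≤ i + b; omega) (by show b ≤ z.n - j; omega)
        (by
          intro s hs t ht
          show z.R (0 + (i + b - b + s)) (0 + (i + b - b + t)) = z.R (j + (0 + s)) (j + (0 + t))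
          have e := hw s hs t ht
          rw [Nat.add_sub_cancel, Nat.zero_add, Nat.zero_add, Nat.zero_add, Nat.zero_add]
          exact e)
      have hyn' : y.n + b = i + b + (z.n - j) := hyn
      have hlt : y.n < N := by omega
      refine ih y.n hlt y hy rfl ⟨by omega, ?_, ?_⟩
      · intro s hs t ht
        have e1 := hy1 s (show s < i + b by omega) t (show t < i + b by omega)
        have e1' : y.R (0 + s) (0 + t) = z.R (0 + (0 + s)) (0 + (0 + t)) := e1
        have e2 := hp1 s hs t ht
        have a1 : 0 + (0 + s) = 0 + s := Nat.zero_add _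
        have a2 : 0 + (0 + t) = 0 + t := Nat.zero_add _
        rw [a1, a2] at e1'
        exact e1'.trans e2
      · intro s hs t ht
        have e1 := hy2 (z.n - j - b + s) (show z.n - j - b + s < z.n - j by omega)
          (z.n - j - b + t) (show z.n - j - b + t < z.n - j by omega)
        have e1' : y.R (i + b - b + (z.n - j - b + s)) (i + b - b + (z.n - j - b + t)) =
            z.R (j + (0 + (z.n - j - b + s))) (j + (0 + (z.n - j - b + t))) := e1
        have e2 := hp2 s hs t ht
        have a1 : i + b - b + (z.n - j - b + s) = y.n - b + s := by omega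
        have a2 : i + b - b + (z.n - j - b + t) = y.n - b + t := by omega
        have a3 : j + (0 + (z.n - j - b + s)) = z.n - b + s := by omega
        have a4 : j + (0 + (z.n - j - b + t)) = z.n - b + t := by omega
        rw [a1, a2, a3, a4] at e1'
        rw [e1']
        exact e2

end Pool.Agent.R474.CE
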