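import Pool.Agent.R474.CE.Stm

set_option autoImplicit false

/-! Project CE (MP_7b05dd_co), piece CW: the coded criterion for wqo is correct. -/

namespace Pool.Agent.R474.CE

theorem CW (hcod : S_COD) (hcor : S_COR) (hres : S_RES) : S_CW := by
  intro ok B
  unfold wC
  constructor
  · intro h c _ hav
    exact h (cod (M (bd B)) c) ((hcor.1 ok B _ c).1 hav) rfl
  · intro h x hx hn
    rw [← hn] at h
    obtain ⟨c, hc, hR⟩ := hcod x
    refine h c hc ((hcor.1 ok B x.n c).2 ((hres ok (bas B)).1 x hx (cod x.n c) ⟨0, ?_, ?_⟩))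
    · show 0 + x.n ≤ x.n
      omega
    · intro i hi j hj
      rw [Nat.zero_add, Nat.zero_add]
      exact hR i hi j hj

end Pool.Agent.R474.CE
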