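import Pool.Agent.R474.CE.Stm

set_option autoImplicit false

namespace Pool.Agent.R474.CE

theorem FIN : S_FIN := by
  intro D N hD
  rintro ⟨f, hf, hanti⟩
  let g : ℕ → Fin (N + 1) × (Fin N → Fin N → Bool) := fun i =>
    (⟨(f i).n, Nat.lt_succ_of_le (hD _ (hf i))⟩, fun s t => (f i).R s t)
  obtain ⟨i, j, hij, hg⟩ := Finite.exists_ne_map_eq_of_infinite g
  have h1 : (f i).n = (f j).n := by
    have := congrArg (fun q => (q.1 : Fin (N + 1)).val) hg
    exact this
  have h2 : ∀ s t : Fin N, (f i).R s t = (f j).R s t := by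
    intro s t
    have := congrArg (fun q => q.2 s t) hg
    exact this
  refine hanti i j hij ⟨0, by omega, fun s hs t ht => ?_⟩
  have hN := hD _ (hf i)
  have h3 := h2 ⟨s, by omega⟩ ⟨t, by omega⟩
  rw [Nat.zero_add, Nat.zero_add]
  exact h3

end Pool.Agent.R474.CE
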