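import Pool.Agent.R474.CE.Stm

/-! CE-GEN (helper160): pumping, from LOC. -/

set_option autoImplicit false

namespace Pool.Agent.R474.CE

theorem GEN.per {b i j : ℕ} {x : Str} (hij : i < j) (hW : Win b x i x j) (ρ δ : ℕ) (hρ : i ≤ ρ) :
    ∀ m : ℕ, ρ + m * (j - i) + δ < i + b + (j - i) →
      x.R ρ (ρ + δ) = x.R (ρ + m * (j - i)) (ρ + m * (j - i) + δ) ∧
      x.R (ρ + δ) ρ = x.R (ρ + m * (j - i) + δ) (ρ + m * (j - i)) := by
  intro m
  induction m with
  | zero => intro _; simp
  | succ m ih =>
    intro h
    have e1 : (m + 1) * (j - i) = m * (j - i) + (j - i) := by ring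
    rw [e1] at h
    rw [e1]
    have h2 : ρ + m * (j - i) + δ < i + b := by omega
    obtain ⟨h3, h4⟩ := ih (by omega)
    have h5 := hW (ρ + m * (j - i) - i) (by omega) (ρ + m * (j - i) + δ - i) (by omega)
    have h6 := hW (ρ + m * (j - i) + δ - i) (by omega) (ρ + m * (j - i) - i) (by omega)
    have e2 : i + (ρ + m * (j - i) - i) = ρ + m * (j - i) := by omega
    have e3 : i + (ρ + m * (j - i) + δ - i) = ρ + m * (j - i) + δ := by omega
    have e4 : j + (ρ + m * (j - i) - i) = ρ + (m * (j - i) + (j - i)) := by omega
    have e5 : j + (ρ + m * (j - i) + δ - i) = ρ + (m * (j - i) + (j - i)) + δ := by omega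
    rw [e2, e3, e4, e5] at h5
    rw [e2, e3, e4, e5] at h6
    exact ⟨h3.trans h5, h4.trans h6⟩

theorem GEN (hL : S_LOC) : S_GEN := by
  intro ok B b hb h1 h2 hB x hx i j hij hj hW F n hn
  set q := j - i with hq
  have hq0 : 0 < q := by omega
  let y : Str := ⟨n, fun s t =>
    if s ≤ t then (if t < s + b then x.R (i + s % q) (i + s % q + (t - s)) else F s t)
    else (if s < t + b then x.R (i + t % q + (s - t)) (i + t % q) else !F t s)⟩
  have far : ∀ s t, s + b ≤ t → t < n → y.R s t = F s t ∧ y.R t s = !F s t := by
    intro s t hst _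
    constructor
    · show (if s ≤ t then (if t < s + b then x.R (i + s % q) (i + s % q + (t - s)) else F s t)
        else (if s < t + b then x.R (i + t % q + (s - t)) (i + t % q) else !F t s)) = F s t
      rw [if_pos (by omega), if_neg (by omega)]
    · show (if t ≤ s then (if s < t + b then x.R (i + t % q) (i + t % q + (s - t)) else F t s)
        else (if t < s + b then x.R (i + s % q + (t - s)) (i + s % q) else !F s t)) = !F s t
      rw [if_neg (by omega), if_neg (by omega)]
  -- the key equality
  have key : ∀ s0 a c : ℕ, a ≤ c → c < b →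
      x.R (i + (s0 + a) % q) (i + (s0 + a) % q + (c - a)) = x.R (i + s0 % q + a) (i + s0 % q + c) ∧
      x.R (i + (s0 + a) % q + (c - a)) (i + (s0 + a) % q) = x.R (i + s0 % q + c) (i + s0 % q + a) := by
    intro s0 a c hac hcb
    have hr : s0 % q < q := Nat.mod_lt _ hq0
    have hmod : (s0 + a) % q + (s0 % q + a) / q * q = s0 % q + a := by
      have e : (s0 + a) % q = (s0 % q + a) % q := by rw [Nat.mod_add_mod]
      rw [e]
      exact Nat.mod_add_div' _ _
    have hp := GEN.per hij hW (i + (s0 + a) % q) (c - a) (Nat.le_add_right _ _)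
      ((s0 % q + a) / q) (by
        rw [← hq]
        omega)
    rw [← hq] at hp
    have e1 : i + (s0 + a) % q + (s0 % q + a) / q * q = i + s0 % q + a := by omega
    have e2 : i + s0 % q + a + (c - a) = i + s0 % q + c := by omega
    rw [e1, e2] at hp
    exact hp
  refine ⟨y, ?_, rfl, far⟩
  apply hL ok B b hb hB y hn
  · intro k hk
    refine ⟨x, hx, i + k % q, ?_, ?_⟩
    · have := Nat.mod_lt k hq0
      omega
    · intro a ha c hc
      rcases le_or_gt a c with h | h
      · show (if k + a ≤ k + c then (if k + c < k + a + b then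
          x.R (i + (k + a) % q) (i + (k + a) % q + (k + c - (k + a))) else F (k + a) (k + c))
          else (if k + a < k + c + b then x.R (i + (k + c) % q + (k + a - (k + c)))
            (i + (k + c) % q) else !F (k + c) (k + a))) = _
        rw [if_pos (by omega), if_pos (by omega), show k + c - (k + a) = c - a by omega]
        exact (key k a c h hc).1
      · show (if k + a ≤ k + c then (if k + c < k + a + b then
          x.R (i + (k + a) % q) (i + (k + a) % q + (k + c - (k + a))) else F (k + a) (k + c))
          else (if k + a < k + c + b then x.R (i + (k + c) % q + (k + a - (k + c)))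
            (i + (k + c) % q) else !F (k + c) (k + a))) = _
        rw [if_neg (by omega), if_pos (by omega), show k + a - (k + c) = a - c by omega]
        exact (key k c a h.le ha).2
  · intro s t hst ht
    obtain ⟨f1, f2⟩ := far s t hst ht
    rw [f1, f2]
    cases F s t
    · exact h2
    · exact h1

end Pool.Agent.R474.CE
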