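import Pool.Agent.R474.CE.Stm

set_option autoImplicit false

namespace Pool.Agent.R474.CE

theorem GLUE (hL : S_LOC) : S_GLUE := by
  intro ok B b hb hok hB x hx z hz hxn hzn hw
  obtain ⟨d, hd⟩ : ∃ d, x.n = d + b := ⟨x.n - b, by omega⟩
  have hdb : x.n - b = d := by omega
  rw [hdb] at hw ⊢
  obtain ⟨y, hyn, hyR⟩ : ∃ y : Str, y.n = d + z.n ∧ ∀ s t, y.R s t =
      if s < x.n ∧ t < x.n then x.R s t
      else if d ≤ s ∧ d ≤ t then z.R (s - d) (t - d) else decide (s < t) :=
    ⟨⟨d + z.n, fun s t => if s < x.n ∧ t < x.n then x.R s t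
      else if d ≤ s ∧ d ≤ t then z.R (s - d) (t - d) else decide (s < t)⟩, rfl, fun _ _ => rfl⟩
  have hyR1 : ∀ s t, s < x.n → t < x.n → y.R s t = x.R s t := by
    intro s t hs ht
    rw [hyR, if_pos ⟨hs, ht⟩]
  have hyR2 : ∀ s t, d ≤ s → d ≤ t → y.R s t = z.R (s - d) (t - d) := by
    intro s t hs ht
    by_cases h : s < x.n ∧ t < x.n
    · rw [hyR1 s t h.1 h.2]
      have h3 := hw (s - d) (by omega) (t - d) (by omega)
      have e1 : d + (s - d) = s := by omega
      have e2 : d + (t - d) = t := by omega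
      rw [e1, e2, Nat.zero_add, Nat.zero_add] at h3
      exact h3
    · rw [hyR, if_neg h, if_pos ⟨hs, ht⟩]
  refine ⟨y, hL ok B b hb hB y (by omega) ?_ ?_, by omega, ?_, ?_⟩
  · intro k hk
    by_cases h : k + b ≤ x.n
    · exact ⟨x, hx, k, h, fun s hs t ht => hyR1 _ _ (by omega) (by omega)⟩
    · refine ⟨z, hz, k - d, by omega, fun s hs t ht => ?_⟩
      rw [hyR2 _ _ (by omega) (by omega)]
      have e1 : k + s - d = k - d + s := by omega
      have e2 : k + t - d = k - d + t := by omega
      rw [e1, e2]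
  · intro s t hst ht
    by_cases h1 : t < x.n
    · rw [hyR1 s t (by omega) h1, hyR1 t s h1 (by omega)]
      exact hx.1.2 s t (by omega) h1
    · by_cases h2 : d ≤ s
      · rw [hyR2 s t h2 (by omega), hyR2 t s (by omega) h2]
        exact hz.1.2 (s - d) (t - d) (by omega) (by omega)
      · rw [hyR, hyR, if_neg (by omega), if_neg (by omega), if_neg (by omega), if_neg (by omega)]
        have e1 : decide (s < t) = true := by
          rw [decide_eq_true_eq]; omega
        have e2 : decide (t < s) = false := by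
          rw [decide_eq_false_iff_not]; omega
        rw [e1, e2]
        exact hok
  · intro s hs t ht
    rw [Nat.zero_add, Nat.zero_add]
    exact hyR1 s t hs ht
  · intro s hs t ht
    rw [hyR2 _ _ (by omega) (by omega), Nat.zero_add, Nat.zero_add]
    have e1 : d + s - d = s := by omega
    have e2 : d + t - d = t := by omega
    rw [e1, e2]

end Pool.Agent.R474.CE
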