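import Pool.Agent.R474.CE.Stm

/-!
# Piece JEP: atomicity is the joint embedding property
-/

set_option autoImplicit false

namespace Pool.Agent.R474.CE

namespace JEP

theorem emb_refl (x : Str) : Emb x x :=
  ⟨0, by simp, fun i _ j _ => by simp⟩

theorem emb_trans {x y z : Str} (h1 : Emb x y) (h2 : Emb y z) : Emb x z := by
  obtain ⟨k, hk, h⟩ := h1
  obtain ⟨l, hl, h'⟩ := h2
  refine ⟨l + k, by omega, fun i hi j hj => ?_⟩
  rw [h i hi j hj, h' (k + i) (by omega) (k + j) (by omega), add_assoc, add_assoc]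

end JEP

open JEP in
theorem JEP : S_JEP := by
  intro D hD
  constructor
  · intro hA x hx y hy
    by_contra hcon
    push Not at hcon
    apply hA
    refine ⟨{z | z ∈ D ∧ ¬ Emb x z}, {z | z ∈ D ∧ ¬ Emb y z}, ?_, ?_, ?_, ?_, ?_⟩
    · rintro z ⟨hz, hxz⟩ w hw
      exact ⟨hD z hz w hw, fun h => hxz (emb_trans h hw)⟩
    · rintro z ⟨hz, hxz⟩ w hw
      exact ⟨hD z hz w hw, fun h => hxz (emb_trans h hw)⟩
    · exact ⟨fun z hz => hz.1, fun h => (h hx).2 (emb_refl x)⟩
    · exact ⟨fun z hz => hz.1, fun h => (h hy).2 (emb_refl y)⟩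
    · ext z
      constructor
      · rintro (h | h)
        · exact h.1
        · exact h.1
      · intro hz
        by_cases h : Emb x z
        · exact Or.inr ⟨hz, hcon z hz h⟩
        · exact Or.inl ⟨hz, h⟩
  · rintro hJ ⟨D1, D2, h1, h2, ⟨s1, n1⟩, ⟨s2, n2⟩, hU⟩
    obtain ⟨x, hx, hx1⟩ := Set.not_subset.mp n1
    obtain ⟨y, hy, hy2⟩ := Set.not_subset.mp n2
    obtain ⟨z, hz, hxz, hyz⟩ := hJ x hx y hy
    rw [← hU] at hz
    rcases hz with hz | hz
    · exact hx1 (h1 z hz x hxz)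
    · exact hy2 (h2 z hz y hyz)

end Pool.Agent.R474.CE
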