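import Pool.Agent.R474.CE.Stm

/-! # CE-LOC: membership is local (helper466) -/

set_option autoImplicit false

namespace Pool.Agent.R474.CE

theorem LOC : S_LOC := by
  intro ok B b hb hB x hx hw hfar
  refine ⟨⟨?_, ?_⟩, ?_⟩
  · intro i hi
    obtain ⟨k, hk⟩ : ∃ k, k = min i (x.n - b) := ⟨_, rfl⟩
    have h1 : k ≤ i := by omega
    have h2 : i < k + b := by omega
    have h3 : k + b ≤ x.n := by omega
    obtain ⟨z, hz, l, hl, hW⟩ := hw k h3
    have e := hW (i - k) (by omega) (i - k) (by omega)
    have e1 : k + (i - k) = i := by omega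
    rw [e1] at e
    rw [e]
    exact hz.1.1 _ (by omega)
  · intro i j hij hj
    by_cases hc : i + b ≤ j
    · exact hfar i j hc hj
    · obtain ⟨k, hk⟩ : ∃ k, k = min i (x.n - b) := ⟨_, rfl⟩
      have h1 : k ≤ i := by omega
      have h2 : j < k + b := by omega
      have h3 : k + b ≤ x.n := by omega
      obtain ⟨z, hz, l, hl, hW⟩ := hw k h3
      have e := hW (i - k) (by omega) (j - k) (by omega)
      have e' := hW (j - k) (by omega) (i - k) (by omega)
      have e1 : k + (i - k) = i := by omega
      have e2 : k + (j - k) = j := by omega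
      rw [e1, e2] at e e'
      rw [e, e']
      exact hz.1.2 _ _ (by omega) (by omega)
  · rintro y hy ⟨k, hk, he⟩
    obtain ⟨m, hm⟩ : ∃ m, m = min k (x.n - b) := ⟨_, rfl⟩
    have hyb := hB y hy
    have h1 : m ≤ k := by omega
    have h2 : k + y.n ≤ m + b := by omega
    have h3 : m + b ≤ x.n := by omega
    obtain ⟨z, hz, l, hl, hW⟩ := hw m h3
    refine hz.2 y hy ⟨l + (k - m), by omega, fun i hi j hj => ?_⟩
    rw [he i hi j hj]
    have e := hW (k - m + i) (by omega) (k - m + j) (by omega)
    have e1 : m + (k - m + i) = k + i := by omega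
    have e2 : m + (k - m + j) = k + j := by omega
    have e3 : l + (k - m + i) = l + (k - m) + i := by omega
    have e4 : l + (k - m + j) = l + (k - m) + j := by omega
    rw [e1, e2, e3, e4] at e
    exact e

end Pool.Agent.R474.CE
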