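import Pool.Agent.R474.CE.Stm

/-! Project CE (helper474), piece NEC (helper398). -/

set_option autoImplicit false

namespace Pool.Agent.R474.CE

namespace NEC

/-- a small structure embedded in a large one lies in a window of size `b` -/
theorem window (hRES : S_RES) (ok : Bool → Bool → Bool) (B : Set Str) (b : ℕ) (w z : Str)
    (hw : w.n ≤ b) (hz : z ∈ Av (Kof ok) B) (hb : b ≤ z.n) (h : Emb w z) :
    ∃ u ∈ Av (Kof ok) B, u.n = b ∧ Emb w u := by
  obtain ⟨k, hk, hR⟩ := h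
  obtain ⟨p, hp1, hp2, hp3⟩ : ∃ p, p ≤ k ∧ p + b ≤ z.n ∧ k + w.n ≤ p + b := by
    rcases le_total k (z.n - b) with h | h
    · exact ⟨k, le_rfl, by omega, by omega⟩
    · exact ⟨z.n - b, h, by omega, by omega⟩
  refine ⟨⟨b, fun i j => z.R (p + i) (p + j)⟩, (hRES ok B).2 z hz p b hp2, rfl, k - p, ?_, ?_⟩
  · show k - p + w.n ≤ b
    omega
  · intro i hi j hj
    show w.R i j = z.R (p + (k - p + i)) (p + (k - p + j))
    rw [hR i hi j hj, show p + (k - p + i) = k + i by omega, show p + (k - p + j) = k + j by omega]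

/-- an embedding in a window of `z` is an embedding in `z` -/
theorem emb_of_win {b : ℕ} {w u z : Str} {q : ℕ} (hu : u.n = b) (hq : q + b ≤ z.n)
    (h : Emb w u) (hW : Win b z q u 0) : Emb w z := by
  obtain ⟨k, hk, hR⟩ := h
  refine ⟨q + k, by omega, fun i hi j hj => ?_⟩
  rw [hR i hi j hj, add_assoc, add_assoc, hW (k + i) (by omega) (k + j) (by omega), Nat.zero_add,
    Nat.zero_add]

end NEC

theorem NEC (hRES : S_RES) (hCUT : S_CUT) (hSC : S_SC) : S_NEC := by
  intro ok B b hb h1 h2 hB hJ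
  have key : ∀ u ∈ Av (Kof ok) B, ∀ v ∈ Av (Kof ok) B, u.n = b → v.n = b →
      ∃ z ∈ Av (Kof ok) B, z.n ≤ M b ∧ Path b u v z := by
    intro u hu v hv hun hvn
    obtain ⟨z, hz, hP⟩ := hSC ok B b hb h1 h2 hB hJ u hu v hv hun hvn
    exact hCUT ok B b hb h1 hB u v z hz hP
  refine ⟨?_, key⟩
  intro w hw w' hw' hwn hwn'
  obtain ⟨z, hz, he, he'⟩ := hJ w hw w' hw'
  rcases le_total z.n b with hzb | hzb
  · exact ⟨z, hz, hzb.trans ((Nat.le_add_right _ _).trans (Nat.le_add_right _ _)), he, he'⟩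
  · obtain ⟨u, hu, hun, heu⟩ := NEC.window hRES ok B b w z hwn hz hzb he
    obtain ⟨v, hv, hvn, hev⟩ := NEC.window hRES ok B b w' z hwn' hz hzb he'
    obtain ⟨z', hz', hM, hP⟩ := key u hu v hv hun hvn
    obtain ⟨hbz, hW1, hW2⟩ := hP
    exact ⟨z', hz', hM, NEC.emb_of_win hun (by omega) heu hW1, NEC.emb_of_win hvn (by omega) hev hW2⟩

end Pool.Agent.R474.CE
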