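import Pool.Agent.R474.CE.Stm

/-!
# The coded criterion for atomicity is primitive recursive: first part
-/

set_option autoImplicit false

namespace Pool.Agent.R474.CE.PA1

open Pool.Agent.R474.CE

theorem ball {α : Type} [Primcodable α] {f : α → ℕ} (hf : Primrec f) {P : α → ℕ → Prop}
    (hP : PrimrecPred (fun q : α × ℕ => P q.1 q.2)) :
    PrimrecPred (fun a => ∀ x < f a, P a x) := by
  have h : PrimrecRel (fun (x : ℕ) (a : α) => P a x) :=
    hP.comp (Primrec.pair Primrec.snd Primrec.fst)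
  have h2 : PrimrecRel (fun (L : List ℕ) (a : α) => ∀ x ∈ L, P a x) := h.forall_mem_list
  refine (h2.comp (Primrec.list_range.comp hf) (Primrec.id (α := α))).of_eq ?_
  intro a
  simp

theorem bex {α : Type} [Primcodable α] {f : α → ℕ} (hf : Primrec f) {P : α → ℕ → Prop}
    (hP : PrimrecPred (fun q : α × ℕ => P q.1 q.2)) :
    PrimrecPred (fun a => ∃ x < f a, P a x) := by
  have h : PrimrecRel (fun (x : ℕ) (a : α) => P a x) :=
    hP.comp (Primrec.pair Primrec.snd Primrec.fst)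
  have h2 : PrimrecRel (fun (L : List ℕ) (a : α) => ∃ x ∈ L, P a x) := h.exists_mem_list
  refine (h2.comp (Primrec.list_range.comp hf) (Primrec.id (α := α))).of_eq ?_
  intro a
  simp

theorem imp {α : Type} [Primcodable α] {P Q : α → Prop} (hP : PrimrecPred P)
    (hQ : PrimrecPred Q) : PrimrecPred (fun a => P a → Q a) :=
  (hP.not.or hQ).of_eq (fun _ => imp_iff_not_or.symm)

theorem pow_two : Primrec (fun n : ℕ => 2 ^ n) := by
  have h : Primrec (fun n : ℕ => Nat.rec (motive := fun _ => ℕ) 1 (fun _ y => 2 * y) n) :=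
    Primrec.nat_rec₁ 1 ((Primrec.nat_mul.comp (Primrec.const 2) Primrec.snd).to₂)
  refine h.of_eq ?_
  intro n
  induction n with
  | zero => rfl
  | succ n ih => exact (congrArg (2 * ·) ih).trans (pow_succ' 2 n).symm

theorem aux (hbd : S_PBD) (hav : S_PAV) (hemb : S_PEMB) (ok : Bool → Bool → Bool) :
    PrimrecPred (fun B : Inp => aC1 ok B) := by
  have hb : Primrec bd := hbd.1
  have hM : Primrec (fun B : Inp => M (bd B)) := hbd.2.1.comp hb
  have hC : Primrec (fun B : Inp => 2 ^ (M (bd B) * M (bd B))) :=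
    pow_two.comp (Primrec.nat_mul.comp hM hM)
  have hb1 : Primrec (fun B : Inp => bd B + 1) := Primrec.succ.comp hb
  have hM1 : Primrec (fun B : Inp => M (bd B) + 1) := Primrec.succ.comp hM
  have hA := hav ok
  unfold aC1
  refine ball hb1 ?_
  refine ball (hC.comp Primrec.fst) ?_
  refine ball (hb1.comp (Primrec.fst.comp Primrec.fst)) ?_
  refine ball (hC.comp (Primrec.fst.comp (Primrec.fst.comp Primrec.fst))) ?_
  -- context: ((((B, n), c), n'), c')
  have pB : Primrec (fun q : (((Inp × ℕ) × ℕ) × ℕ) × ℕ => q.1.1.1.1) :=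
    Primrec.fst.comp (Primrec.fst.comp (Primrec.fst.comp Primrec.fst))
  have pn : Primrec (fun q : (((Inp × ℕ) × ℕ) × ℕ) × ℕ => q.1.1.1.2) :=
    Primrec.snd.comp (Primrec.fst.comp (Primrec.fst.comp Primrec.fst))
  have pc : Primrec (fun q : (((Inp × ℕ) × ℕ) × ℕ) × ℕ => q.1.1.2) :=
    Primrec.snd.comp (Primrec.fst.comp Primrec.fst)
  have pn' : Primrec (fun q : (((Inp × ℕ) × ℕ) × ℕ) × ℕ => q.1.2) :=
    Primrec.snd.comp Primrec.fst
  have pc' : Primrec (fun q : (((Inp × ℕ) × ℕ) × ℕ) × ℕ => q.2) := Primrec.snd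
  refine imp (hA.comp (pB.pair (pn.pair pc))) ?_
  refine imp (hA.comp (pB.pair (pn'.pair pc'))) ?_
  refine bex (hM1.comp pB) ?_
  refine bex (hC.comp (pB.comp Primrec.fst)) ?_
  have g2 : Primrec (fun q : (((((Inp × ℕ) × ℕ) × ℕ) × ℕ) × ℕ) × ℕ => q.1.1) :=
    Primrec.fst.comp Primrec.fst
  have pm : Primrec (fun q : (((((Inp × ℕ) × ℕ) × ℕ) × ℕ) × ℕ) × ℕ => q.1.2) :=
    Primrec.snd.comp Primrec.fst
  have pd : Primrec (fun q : (((((Inp × ℕ) × ℕ) × ℕ) × ℕ) × ℕ) × ℕ => q.2) := Primrec.snd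
  refine PrimrecPred.and (hA.comp ((pB.comp g2).pair (pm.pair pd))) ?_
  refine PrimrecPred.and (hemb.comp ((pn.comp g2).pair ((pc.comp g2).pair (pm.pair pd)))) ?_
  exact hemb.comp ((pn'.comp g2).pair ((pc'.comp g2).pair (pm.pair pd)))

end Pool.Agent.R474.CE.PA1

namespace Pool.Agent.R474.CE

theorem PA1 : S_PBD → S_PAV → S_PEMB → S_PA1 :=
  fun h1 h2 h3 ok => PA1.aux h1 h2 h3 ok

end Pool.Agent.R474.CE
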