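import Pool.Agent.R474.CE.Stm

set_option autoImplicit false

namespace Pool.Agent.R474.CE

namespace PA2

theorem fa {α : Type*} [Primcodable α] {f : α → ℕ} {P : α → ℕ → Prop} (hf : Primrec f)
    (hP : PrimrecPred fun z : α × ℕ => P z.1 z.2) : PrimrecPred (fun a => ∀ x < f a, P a x) := by
  have h1 : PrimrecRel (fun (x : ℕ) (a : α) => P a x) :=
    hP.comp (Primrec.pair Primrec.snd Primrec.fst)
  exact (h1.forall_mem_list.comp (Primrec.list_range.comp hf) Primrec.id).of_eq (by simp)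

theorem ex {α : Type*} [Primcodable α] {f : α → ℕ} {P : α → ℕ → Prop} (hf : Primrec f)
    (hP : PrimrecPred fun z : α × ℕ => P z.1 z.2) : PrimrecPred (fun a => ∃ x < f a, P a x) := by
  have h1 : PrimrecRel (fun (x : ℕ) (a : α) => P a x) :=
    hP.comp (Primrec.pair Primrec.snd Primrec.fst)
  exact (h1.exists_mem_list.comp (Primrec.list_range.comp hf) Primrec.id).of_eq (by simp)

theorem imp' {α : Type*} [Primcodable α] {p q : α → Prop} (hp : PrimrecPred p)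
    (hq : PrimrecPred q) : PrimrecPred fun a => (p a → q a) :=
  (hp.not.or hq).of_eq fun a => by
    rw [imp_iff_not_or]

theorem pw : Primrec₂ ((· ^ ·) : ℕ → ℕ → ℕ) := Primrec₂.unpaired'.1 Nat.Primrec.pow

end PA2

open PA2 in
theorem PA2 (hB : S_PBD) (hA : S_PAV) (hW : S_PWIN) : S_PA2 := by
  intro ok
  obtain ⟨hbd, hM, -⟩ := hB
  have hA' := hA ok
  have hbig : Primrec (fun B : Inp => 2 ^ (M (bd B) * M (bd B))) :=
    pw.comp (Primrec.const 2) (Primrec.nat_mul.comp (hM.comp hbd) (hM.comp hbd))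
  have hbig1 : Primrec (fun B : Inp => M (bd B) + 1) :=
    Primrec.succ.comp (hM.comp hbd)
  unfold aC2
  refine fa (P := fun (B : Inp) c => ∀ c' < 2 ^ (M (bd B) * M (bd B)),
    avC ok B (bd B) c → avC ok B (bd B) c' →
    ∃ m < M (bd B) + 1, ∃ d < 2 ^ (M (bd B) * M (bd B)), bd B ≤ m ∧
      avC ok B m d ∧ winC (bd B) m d 0 (bd B) c 0 ∧ winC (bd B) m d (m - bd B) (bd B) c' 0)
    hbig ?_
  refine fa (P := fun (z : Inp × ℕ) c' => avC ok z.1 (bd z.1) z.2 → avC ok z.1 (bd z.1) c' →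
    ∃ m < M (bd z.1) + 1, ∃ d < 2 ^ (M (bd z.1) * M (bd z.1)), bd z.1 ≤ m ∧
      avC ok z.1 m d ∧ winC (bd z.1) m d 0 (bd z.1) z.2 0 ∧
        winC (bd z.1) m d (m - bd z.1) (bd z.1) c' 0)
    (hbig.comp Primrec.fst) ?_
  have B2 : Primrec (fun z : (Inp × ℕ) × ℕ => z.1.1) := Primrec.fst.comp Primrec.fst
  have c2 : Primrec (fun z : (Inp × ℕ) × ℕ => z.1.2) := Primrec.snd.comp Primrec.fst
  have c2' : Primrec (fun z : (Inp × ℕ) × ℕ => z.2) := Primrec.snd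
  refine imp' (hA'.comp (Primrec.pair B2 (Primrec.pair (hbd.comp B2) c2))) ?_
  refine imp' (hA'.comp (Primrec.pair B2 (Primrec.pair (hbd.comp B2) c2'))) ?_
  refine ex (P := fun (z : (Inp × ℕ) × ℕ) m => ∃ d < 2 ^ (M (bd z.1.1) * M (bd z.1.1)),
      bd z.1.1 ≤ m ∧ avC ok z.1.1 m d ∧ winC (bd z.1.1) m d 0 (bd z.1.1) z.1.2 0 ∧
        winC (bd z.1.1) m d (m - bd z.1.1) (bd z.1.1) z.2 0) (hbig1.comp B2) ?_
  refine ex (P := fun (z : ((Inp × ℕ) × ℕ) × ℕ) d =>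
      bd z.1.1.1 ≤ z.2 ∧ avC ok z.1.1.1 z.2 d ∧
        winC (bd z.1.1.1) z.2 d 0 (bd z.1.1.1) z.1.1.2 0 ∧
        winC (bd z.1.1.1) z.2 d (z.2 - bd z.1.1.1) (bd z.1.1.1) z.1.2 0)
      (hbig.comp (B2.comp Primrec.fst)) ?_
  have B4 : Primrec (fun z : (((Inp × ℕ) × ℕ) × ℕ) × ℕ => z.1.1.1.1) :=
    B2.comp (Primrec.fst.comp Primrec.fst)
  have c4 : Primrec (fun z : (((Inp × ℕ) × ℕ) × ℕ) × ℕ => z.1.1.1.2) :=
    c2.comp (Primrec.fst.comp Primrec.fst)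
  have c4' : Primrec (fun z : (((Inp × ℕ) × ℕ) × ℕ) × ℕ => z.1.1.2) :=
    c2'.comp (Primrec.fst.comp Primrec.fst)
  have m4 : Primrec (fun z : (((Inp × ℕ) × ℕ) × ℕ) × ℕ => z.1.2) := Primrec.snd.comp Primrec.fst
  have d4 : Primrec (fun z : (((Inp × ℕ) × ℕ) × ℕ) × ℕ => z.2) := Primrec.snd
  have b4 := hbd.comp B4
  have z4 : Primrec (fun _ : (((Inp × ℕ) × ℕ) × ℕ) × ℕ => 0) := Primrec.const 0
  have l4 := Primrec.nat_sub.comp m4 b4
  refine (Primrec.nat_le.comp b4 m4).and ((hA'.comp (Primrec.pair B4 (Primrec.pair m4 d4))).and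
    (PrimrecPred.and ?_ ?_))
  · exact hW.comp (Primrec.pair b4 (Primrec.pair m4 (Primrec.pair d4 (Primrec.pair z4
      (Primrec.pair b4 (Primrec.pair c4 z4))))))
  · exact hW.comp (Primrec.pair b4 (Primrec.pair m4 (Primrec.pair d4 (Primrec.pair l4
      (Primrec.pair b4 (Primrec.pair c4' z4))))))

end Pool.Agent.R474.CE
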