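import Pool.Agent.R474.CE.Stm

/-! CE-PAV (helper160): membership is primitive recursive, from PBIT. -/

set_option autoImplicit false

namespace Pool.Agent.R474.CE

namespace PAV

theorem all_lt {β : Type} [Primcodable β] {R : ℕ → β → Prop} (hR : PrimrecRel R) {f : β → ℕ}
    (hf : Primrec f) : PrimrecPred (fun b => ∀ x < f b, R x b) :=
  (hR.forall_mem_list.comp (Primrec.list_range.comp hf) Primrec.id).of_eq (by simp)

theorem ex_lt {β : Type} [Primcodable β] {R : ℕ → β → Prop} (hR : PrimrecRel R) {f : β → ℕ}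
    (hf : Primrec f) : PrimrecPred (fun b => ∃ x < f b, R x b) :=
  (hR.exists_mem_list.comp (Primrec.list_range.comp hf) Primrec.id).of_eq (by simp)

theorem bitP {α : Type} [Primcodable α] (h : S_PBIT) {f g i j : α → ℕ} (hf : Primrec f)
    (hg : Primrec g) (hi : Primrec i) (hj : Primrec j) :
    PrimrecPred (fun a => bit (f a) (g a) (i a) (j a)) :=
  PrimrecPred.comp h (hf.pair (hg.pair (hi.pair hj)))

theorem memP {α γ : Type} [Primcodable α] [Primcodable γ] {f : α → γ} {L : α → List γ}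
    (hf : Primrec f) (hL : Primrec L) : PrimrecPred (fun a => f a ∈ L a) := by
  have h : PrimrecRel fun (L : List γ) (b : γ) => ∃ a ∈ L, a = b :=
    PrimrecRel.exists_mem_list Primrec.eq
  exact (h.comp hL hf).of_eq (by simp)

theorem iffP {α : Type} [Primcodable α] {p q : α → Prop} (hp : PrimrecPred p)
    (hq : PrimrecPred q) : PrimrecPred (fun a => p a ↔ q a) :=
  ((hp.and hq).or (hp.not.and hq.not)).of_eq (by intro a; tauto)

theorem impP {α : Type} [Primcodable α] {p q : α → Prop} (hp : PrimrecPred p)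
    (hq : PrimrecPred q) : PrimrecPred (fun a => p a → q a) :=
  (hp.not.or hq).of_eq (by intro a; tauto)

theorem part1 (h : S_PBIT) :
    PrimrecPred (fun q : Inp × ℕ × ℕ => ∀ i < q.2.1, ¬ bit q.2.1 q.2.2 i i) := by
  refine all_lt (R := fun i (q : Inp × ℕ × ℕ) => ¬ bit q.2.1 q.2.2 i i) ?_
    (Primrec.fst.comp Primrec.snd)
  have hq : Primrec (fun a : ℕ × (Inp × ℕ × ℕ) => a.2) := Primrec.snd
  exact (bitP h (Primrec.fst.comp (Primrec.snd.comp hq)) (Primrec.snd.comp (Primrec.snd.comp hq))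
    Primrec.fst Primrec.fst).not

theorem part2 (h : S_PBIT) (ok : Bool → Bool → Bool) :
    PrimrecPred (fun q : Inp × ℕ × ℕ => ∀ i < q.2.1, ∀ j < q.2.1, i < j →
      ok (decide (bit q.2.1 q.2.2 i j)) (decide (bit q.2.1 q.2.2 j i)) = true) := by
  refine all_lt (R := fun i (q : Inp × ℕ × ℕ) => ∀ j < q.2.1, i < j →
      ok (decide (bit q.2.1 q.2.2 i j)) (decide (bit q.2.1 q.2.2 j i)) = true) ?_
    (Primrec.fst.comp Primrec.snd)
  refine all_lt (R := fun j (a : ℕ × (Inp × ℕ × ℕ)) => a.1 < j →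
      ok (decide (bit a.2.2.1 a.2.2.2 a.1 j)) (decide (bit a.2.2.1 a.2.2.2 j a.1)) = true) ?_
    (Primrec.fst.comp (Primrec.snd.comp Primrec.snd))
  have hj : Primrec (fun a : ℕ × (ℕ × (Inp × ℕ × ℕ)) => a.1) := Primrec.fst
  have hi : Primrec (fun a : ℕ × (ℕ × (Inp × ℕ × ℕ)) => a.2.1) := Primrec.fst.comp Primrec.snd
  have hq : Primrec (fun a : ℕ × (ℕ × (Inp × ℕ × ℕ)) => a.2.2) := Primrec.snd.comp Primrec.snd
  have hn : Primrec (fun a : ℕ × (ℕ × (Inp × ℕ × ℕ)) => a.2.2.2.1) :=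
    Primrec.fst.comp (Primrec.snd.comp hq)
  have hc : Primrec (fun a : ℕ × (ℕ × (Inp × ℕ × ℕ)) => a.2.2.2.2) :=
    Primrec.snd.comp (Primrec.snd.comp hq)
  have b1 := (bitP h hn hc hi hj).decide
  have b2 := (bitP h hn hc hj hi).decide
  have b3 := (Primrec.dom_bool₂ ok).comp b1 b2
  have b4 := Primrec.eq.comp b3 (Primrec.const true)
  have b5 : PrimrecPred (fun a : ℕ × (ℕ × (Inp × ℕ × ℕ)) => a.2.1 < a.1) :=
    Primrec.nat_lt.comp hi hj
  exact impP b5 b4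

theorem part3 (h : S_PBIT) :
    PrimrecPred (fun q : Inp × ℕ × ℕ => ∀ p ∈ q.1, ¬ ∃ k < q.2.1 + 1, k + p.1 ≤ q.2.1 ∧
      ∀ i < p.1, ∀ j < p.1, ((i, j) ∈ p.2 ↔ bit q.2.1 q.2.2 (k + i) (k + j))) := by
  have key : PrimrecRel (fun (p : ℕ × List (ℕ × ℕ)) (q : Inp × ℕ × ℕ) =>
      ¬ ∃ k < q.2.1 + 1, k + p.1 ≤ q.2.1 ∧
      ∀ i < p.1, ∀ j < p.1, ((i, j) ∈ p.2 ↔ bit q.2.1 q.2.2 (k + i) (k + j))) := by
    refine PrimrecPred.not ?_
    refine ex_lt (R := fun k (a : (ℕ × List (ℕ × ℕ)) × (Inp × ℕ × ℕ)) => k + a.1.1 ≤ a.2.2.1 ∧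
      ∀ i < a.1.1, ∀ j < a.1.1, ((i, j) ∈ a.1.2 ↔ bit a.2.2.1 a.2.2.2 (k + i) (k + j))) ?_
      (Primrec.succ.comp (Primrec.fst.comp (Primrec.snd.comp Primrec.snd)))
    refine PrimrecPred.and ?_ ?_
    · exact Primrec.nat_le.comp (Primrec.nat_add.comp Primrec.fst
        (Primrec.fst.comp (Primrec.fst.comp Primrec.snd)))
        (Primrec.fst.comp (Primrec.snd.comp (Primrec.snd.comp Primrec.snd)))
    · refine all_lt (R := fun i (a : ℕ × ((ℕ × List (ℕ × ℕ)) × (Inp × ℕ × ℕ))) =>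
        ∀ j < a.2.1.1, ((i, j) ∈ a.2.1.2 ↔ bit a.2.2.2.1 a.2.2.2.2 (a.1 + i) (a.1 + j))) ?_
        (Primrec.fst.comp (Primrec.fst.comp Primrec.snd))
      refine all_lt (R := fun j (a : ℕ × (ℕ × ((ℕ × List (ℕ × ℕ)) × (Inp × ℕ × ℕ)))) =>
        ((a.1, j) ∈ a.2.2.1.2 ↔ bit a.2.2.2.2.1 a.2.2.2.2.2 (a.2.1 + a.1) (a.2.1 + j))) ?_
        (Primrec.fst.comp (Primrec.fst.comp (Primrec.snd.comp Primrec.snd)))
      have hj : Primrec (fun a : ℕ × (ℕ × (ℕ × ((ℕ × List (ℕ × ℕ)) × (Inp × ℕ × ℕ)))) => a.1) :=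
        Primrec.fst
      have hi : Primrec (fun a : ℕ × (ℕ × (ℕ × ((ℕ × List (ℕ × ℕ)) × (Inp × ℕ × ℕ)))) => a.2.1) :=
        Primrec.fst.comp Primrec.snd
      have hk : Primrec (fun a : ℕ × (ℕ × (ℕ × ((ℕ × List (ℕ × ℕ)) × (Inp × ℕ × ℕ)))) =>
          a.2.2.1) := Primrec.fst.comp (Primrec.snd.comp Primrec.snd)
      have hp : Primrec (fun a : ℕ × (ℕ × (ℕ × ((ℕ × List (ℕ × ℕ)) × (Inp × ℕ × ℕ)))) =>
          a.2.2.2.1) := Primrec.fst.comp (Primrec.snd.comp (Primrec.snd.comp Primrec.snd))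
      have hq : Primrec (fun a : ℕ × (ℕ × (ℕ × ((ℕ × List (ℕ × ℕ)) × (Inp × ℕ × ℕ)))) =>
          a.2.2.2.2) := Primrec.snd.comp (Primrec.snd.comp (Primrec.snd.comp Primrec.snd))
      exact iffP (memP (hi.pair hj) (Primrec.snd.comp hp))
        (bitP h (Primrec.fst.comp (Primrec.snd.comp hq)) (Primrec.snd.comp (Primrec.snd.comp hq))
          (Primrec.nat_add.comp hk hi) (Primrec.nat_add.comp hk hj))
  exact (key.forall_mem_list.comp Primrec.fst Primrec.id).of_eq (fun _ => Iff.rfl)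

end PAV

theorem PAV (h : S_PBIT) : S_PAV := fun ok =>
  (PAV.part1 h).and ((PAV.part2 h ok).and (PAV.part3 h))

end Pool.Agent.R474.CE
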