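import Mathlib

/-!
# Consecutive embeddings of digraphs and tournaments: definitions and statements of the pieces
-/

set_option autoImplicit false

namespace Pool.Agent.R474.CE

/-- a finite structure: the points `0 < 1 < ... < n - 1` and a relation (only its values at points
`< n` matter) -/
structure Str where
  n : ℕ
  R : ℕ → ℕ → Bool

/-- consecutive embedding -/
def Emb (x y : Str) : Prop :=
  ∃ k, k + x.n ≤ y.n ∧ ∀ i < x.n, ∀ j < x.n, x.R i j = y.R (k + i) (k + j)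

/-- digraphs -/
def Dig (x : Str) : Prop := ∀ i < x.n, x.R i i = false

/-- tournaments -/
def Tour (x : Str) : Prop :=
  (∀ i < x.n, x.R i i = false) ∧ ∀ i < x.n, ∀ j < x.n, i ≠ j → x.R i j = !x.R j i

/-- the members of the class `K` that avoid `B` -/
def Av (K : Str → Prop) (B : Set Str) : Set Str := {x | K x ∧ ∀ y ∈ B, ¬ Emb y x}

/-- downward closed -/
def Down (D : Set Str) : Prop := ∀ x ∈ D, ∀ y, Emb y x → y ∈ D

/-- not the union of two proper downward closed subsets -/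
def Atomic (D : Set Str) : Prop :=
  ¬ ∃ D1 D2 : Set Str, Down D1 ∧ Down D2 ∧ D1 ⊂ D ∧ D2 ⊂ D ∧ D1 ∪ D2 = D

/-- no infinite antichain -/
def WQO (D : Set Str) : Prop :=
  ¬ ∃ f : ℕ → Str, (∀ i, f i ∈ D) ∧ ∀ i j, i ≠ j → ¬ Emb (f i) (f j)

/-- inputs: lists of explicitly given structures (number of points, list of the pairs in the
relation) -/
abbrev Inp : Type := List (ℕ × List (ℕ × ℕ))

def den (p : ℕ × List (ℕ × ℕ)) : Str := ⟨p.1, fun i j => decide ((i, j) ∈ p.2)⟩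

def bas (B : Inp) : Set Str := {x | ∃ p ∈ B, x = den p}

/-! ## Classes with free pairs -/

/-- the class given by the allowed labels of pairs -/
def Kof (ok : Bool → Bool → Bool) (x : Str) : Prop :=
  (∀ i < x.n, x.R i i = false) ∧ ∀ i j, i < j → j < x.n → ok (x.R i j) (x.R j i) = true

/-- the number of windows of size `b` -/
def M (b : ℕ) : ℕ := b + 2 ^ (b * b) + 1

/-- the windows of `x` at `i` and of `y` at `j`, of size `b`, are equal -/
def Win (b : ℕ) (x : Str) (i : ℕ) (y : Str) (j : ℕ) : Prop :=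
  ∀ s < b, ∀ t < b, x.R (i + s) (i + t) = y.R (j + s) (j + t)

/-- pigeonhole -/
def S_PER : Prop := ∀ (b : ℕ) (x : Str), ∃ i j, i < j ∧ j ≤ 2 ^ (b * b) ∧ Win b x i x j

/-- restriction to a window stays in the class; `Av` is downward closed -/
def S_RES : Prop := ∀ (ok : Bool → Bool → Bool) (B : Set Str),
  (∀ x ∈ Av (Kof ok) B, ∀ y, Emb y x → y ∈ Av (Kof ok) B) ∧
  ∀ x ∈ Av (Kof ok) B, ∀ k m, k + m ≤ x.n →
    (⟨m, fun i j => x.R (k + i) (k + j)⟩ : Str) ∈ Av (Kof ok) B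

/-- membership is a condition on the windows of size `b` and on the labels of the far pairs -/
def S_LOC : Prop := ∀ (ok : Bool → Bool → Bool) (B : Set Str) (b : ℕ), 1 ≤ b →
  (∀ y ∈ B, y.n ≤ b) → ∀ x : Str, b ≤ x.n →
  (∀ k, k + b ≤ x.n → ∃ z ∈ Av (Kof ok) B, ∃ l, l + b ≤ z.n ∧ Win b x k z l) →
  (∀ s t, s + b ≤ t → t < x.n → ok (x.R s t) (x.R t s) = true) → x ∈ Av (Kof ok) B

/-- pumping -/
def S_GEN : Prop := ∀ (ok : Bool → Bool → Bool) (B : Set Str) (b : ℕ), 1 ≤ b →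
  ok true false = true → ok false true = true → (∀ y ∈ B, y.n ≤ b) →
  ∀ x ∈ Av (Kof ok) B, ∀ i j, i < j → j + b ≤ x.n → Win b x i x j →
  ∀ (F : ℕ → ℕ → Bool) (n : ℕ), b ≤ n → ∃ y ∈ Av (Kof ok) B, y.n = n ∧
    ∀ s t, s + b ≤ t → t < n → y.R s t = F s t ∧ y.R t s = !F s t

/-- an antichain from free far pairs -/
def S_ANT : Prop := ∀ (D : Set Str) (b : ℕ), 1 ≤ b →
  (∀ (F : ℕ → ℕ → Bool) (n : ℕ), b ≤ n → ∃ y ∈ D, y.n = n ∧
    ∀ s t, s + b ≤ t → t < n → y.R s t = F s t ∧ y.R t s = !F s t) → ¬ WQO D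

/-- bounded sizes -/
def S_FIN : Prop := ∀ (D : Set Str) (N : ℕ), (∀ x ∈ D, x.n ≤ N) → WQO D

/-- the joint embedding property -/
def S_JEP : Prop := ∀ D : Set Str, Down D →
  (Atomic D ↔ ∀ x ∈ D, ∀ y ∈ D, ∃ z ∈ D, Emb x z ∧ Emb y z)

/-- gluing at a window of size `b` -/
def S_GLUE : Prop := ∀ (ok : Bool → Bool → Bool) (B : Set Str) (b : ℕ), 1 ≤ b →
  ok true false = true → (∀ y ∈ B, y.n ≤ b) →
  ∀ x ∈ Av (Kof ok) B, ∀ z ∈ Av (Kof ok) B, b ≤ x.n → b ≤ z.n → Win b x (x.n - b) z 0 →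
  ∃ y ∈ Av (Kof ok) B, y.n + b = x.n + z.n ∧ Win x.n y 0 x 0 ∧ Win z.n y (x.n - b) z 0

/-- `z` leads from the window `u` to the window `v` (`u`, `v` of size `b`) -/
def Path (b : ℕ) (u v z : Str) : Prop :=
  b ≤ z.n ∧ Win b z 0 u 0 ∧ Win b z (z.n - b) v 0

/-- short paths -/
def S_CUT : Prop := ∀ (ok : Bool → Bool → Bool) (B : Set Str) (b : ℕ), 1 ≤ b →
  ok true false = true → (∀ y ∈ B, y.n ≤ b) → ∀ u v, ∀ z ∈ Av (Kof ok) B, Path b u v z →
  ∃ z' ∈ Av (Kof ok) B, z'.n ≤ M b ∧ Path b u v z'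

/-- joint embedding implies paths -/
def S_SC : Prop := ∀ (ok : Bool → Bool → Bool) (B : Set Str) (b : ℕ), 1 ≤ b →
  ok true false = true → ok false true = true → (∀ y ∈ B, y.n ≤ b) →
  (∀ x ∈ Av (Kof ok) B, ∀ y ∈ Av (Kof ok) B, ∃ z ∈ Av (Kof ok) B, Emb x z ∧ Emb y z) →
  ∀ u ∈ Av (Kof ok) B, ∀ v ∈ Av (Kof ok) B, u.n = b → v.n = b →
  ∃ z ∈ Av (Kof ok) B, Path b u v z

/-- the criterion for atomicity -/
def CritA (ok : Bool → Bool → Bool) (B : Set Str) (b : ℕ) : Prop :=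
  (∀ w ∈ Av (Kof ok) B, ∀ w' ∈ Av (Kof ok) B, w.n ≤ b → w'.n ≤ b →
    ∃ z ∈ Av (Kof ok) B, z.n ≤ M b ∧ Emb w z ∧ Emb w' z) ∧
  ∀ u ∈ Av (Kof ok) B, ∀ v ∈ Av (Kof ok) B, u.n = b → v.n = b →
    ∃ z ∈ Av (Kof ok) B, z.n ≤ M b ∧ Path b u v z

/-- necessity (use `S_JEP`-form joint embedding, `S_SC`, `S_CUT`, `S_RES`) -/
def S_NEC : Prop := ∀ (ok : Bool → Bool → Bool) (B : Set Str) (b : ℕ), 1 ≤ b →
  ok true false = true → ok false true = true → (∀ y ∈ B, y.n ≤ b) →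
  (∀ x ∈ Av (Kof ok) B, ∀ y ∈ Av (Kof ok) B, ∃ z ∈ Av (Kof ok) B, Emb x z ∧ Emb y z) →
  CritA ok B b

/-- sufficiency -/
def S_SUF : Prop := ∀ (ok : Bool → Bool → Bool) (B : Set Str) (b : ℕ), 1 ≤ b →
  ok true false = true → ok false true = true → (∀ y ∈ B, y.n ≤ b) → CritA ok B b →
  ∀ x ∈ Av (Kof ok) B, ∀ y ∈ Av (Kof ok) B, ∃ z ∈ Av (Kof ok) B, Emb x z ∧ Emb y z

/-! ## Codes -/

/-- the digit of `c` for the pair `(i, j)`, for structures with `n` points -/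
def bit (n c i j : ℕ) : Prop := c / 2 ^ (i * n + j) % 2 = 1

instance (n c i j : ℕ) : Decidable (bit n c i j) := inferInstanceAs (Decidable (_ = _))

/-- the structure with the code `c` -/
def cod (n c : ℕ) : Str := ⟨n, fun i j => decide (bit n c i j)⟩

/-- every structure has a code -/
def S_COD : Prop := ∀ x : Str, ∃ c < 2 ^ (x.n * x.n),
  ∀ i < x.n, ∀ j < x.n, (cod x.n c).R i j = x.R i j

/-- membership of the structure with the code `c` -/
def avC (ok : Bool → Bool → Bool) (B : Inp) (n c : ℕ) : Prop :=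
  (∀ i < n, ¬ bit n c i i) ∧
  (∀ i < n, ∀ j < n, i < j → ok (decide (bit n c i j)) (decide (bit n c j i)) = true) ∧
  ∀ p ∈ B, ¬ ∃ k < n + 1, k + p.1 ≤ n ∧ ∀ i < p.1, ∀ j < p.1, ((i, j) ∈ p.2 ↔ bit n c (k + i) (k + j))

def embC (n c m d : ℕ) : Prop :=
  ∃ k < m + 1, k + n ≤ m ∧ ∀ i < n, ∀ j < n, (bit n c i j ↔ bit m d (k + i) (k + j))

/-- windows of size `b` at `i` and `j` -/
def winC (b n c i m d j : ℕ) : Prop :=
  ∀ s < b, ∀ t < b, (bit n c (i + s) (i + t) ↔ bit m d (j + s) (j + t))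

/-- the codes are correct -/
def S_COR : Prop := (∀ ok B n c, avC ok B n c ↔ cod n c ∈ Av (Kof ok) (bas B)) ∧
  (∀ n c m d, embC n c m d ↔ Emb (cod n c) (cod m d)) ∧
  ∀ b n c i m d j, winC b n c i m d j ↔ Win b (cod n c) i (cod m d) j

def S_PBIT : Prop := PrimrecPred (fun q : ℕ × ℕ × ℕ × ℕ => bit q.1 q.2.1 q.2.2.1 q.2.2.2)

def S_PAV : Prop := ∀ ok : Bool → Bool → Bool,
  PrimrecPred (fun q : Inp × ℕ × ℕ => avC ok q.1 q.2.1 q.2.2)

def S_PEMB : Prop := PrimrecPred (fun q : ℕ × ℕ × ℕ × ℕ => embC q.1 q.2.1 q.2.2.1 q.2.2.2)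

/-- the arguments are `b, n, c, i, m, d, j` -/
def S_PWIN : Prop := PrimrecPred (fun q : ℕ × ℕ × ℕ × ℕ × ℕ × ℕ × ℕ =>
  winC q.1 q.2.1 q.2.2.1 q.2.2.2.1 q.2.2.2.2.1 q.2.2.2.2.2.1 q.2.2.2.2.2.2)

/-- a bound for the sizes of the members of `B` -/
def bd (B : Inp) : ℕ := (B.map Prod.fst).sum + 1

def S_PBD : Prop := Primrec bd ∧ Primrec M ∧ ∀ B : Inp, ∀ y ∈ bas B, y.n ≤ bd B

/-- coded form of the criterion for wqo -/
def wC (ok : Bool → Bool → Bool) (B : Inp) : Prop :=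
  ∀ c < 2 ^ (M (bd B) * M (bd B)), ¬ avC ok B (M (bd B)) c

def S_PW : Prop := ∀ ok : Bool → Bool → Bool, PrimrecPred (fun B : Inp => wC ok B)

/-- coded form of the criterion for atomicity: first part -/
def aC1 (ok : Bool → Bool → Bool) (B : Inp) : Prop :=
  ∀ n < bd B + 1, ∀ c < 2 ^ (M (bd B) * M (bd B)), ∀ n' < bd B + 1,
    ∀ c' < 2 ^ (M (bd B) * M (bd B)), avC ok B n c → avC ok B n' c' →
    ∃ m < M (bd B) + 1, ∃ d < 2 ^ (M (bd B) * M (bd B)),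
      avC ok B m d ∧ embC n c m d ∧ embC n' c' m d

/-- coded form of the criterion for atomicity: second part -/
def aC2 (ok : Bool → Bool → Bool) (B : Inp) : Prop :=
  ∀ c < 2 ^ (M (bd B) * M (bd B)), ∀ c' < 2 ^ (M (bd B) * M (bd B)),
    avC ok B (bd B) c → avC ok B (bd B) c' →
    ∃ m < M (bd B) + 1, ∃ d < 2 ^ (M (bd B) * M (bd B)), bd B ≤ m ∧
      avC ok B m d ∧ winC (bd B) m d 0 (bd B) c 0 ∧ winC (bd B) m d (m - bd B) (bd B) c' 0

def S_PA1 : Prop := ∀ ok : Bool → Bool → Bool, PrimrecPred (fun B : Inp => aC1 ok B)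

def S_PA2 : Prop := ∀ ok : Bool → Bool → Bool, PrimrecPred (fun B : Inp => aC2 ok B)

/-- the coded criterion for atomicity is correct -/
def S_CA : Prop := ∀ (ok : Bool → Bool → Bool) (B : Inp),
  CritA ok (bas B) (bd B) ↔ aC1 ok B ∧ aC2 ok B

/-- the coded criterion for wqo is correct -/
def S_CW : Prop := ∀ (ok : Bool → Bool → Bool) (B : Inp),
  (∀ x ∈ Av (Kof ok) (bas B), x.n ≠ M (bd B)) ↔ wC ok B

/-! ## The result -/

def Result : Prop :=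
  ComputablePred (fun B : Inp => WQO (Av Dig (bas B))) ∧
  ComputablePred (fun B : Inp => Atomic (Av Dig (bas B))) ∧
  ComputablePred (fun B : Inp => WQO (Av Tour (bas B))) ∧
  ComputablePred (fun B : Inp => Atomic (Av Tour (bas B)))

end Pool.Agent.R474.CE
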