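import Mathlib
import Pool.Agent.R474.CE.Stm

/-!
# Project CE: the bounds are primitive recursive
-/

set_option autoImplicit false

namespace Pool.Agent.R474.CE

namespace PBD

theorem bd_eq (B : Inp) : bd B = B.foldr (fun p s => p.1 + s) 0 + 1 := by
  unfold bd
  congr 1
  induction B with
  | nil => rfl
  | cons p B ih => simp [ih]

theorem prim_bd : Primrec bd := by
  have h : Primrec (fun B : Inp => B.foldr (fun p s => p.1 + s) 0 + 1) := by
    apply Primrec.succ.comp
    refine Primrec.list_foldr (f := fun B : Inp => B) (g := fun _ => (0 : ℕ))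
      (h := fun (_ : Inp) (q : (ℕ × List (ℕ × ℕ)) × ℕ) => q.1.1 + q.2) Primrec.id
      (Primrec.const 0) ?_
    exact Primrec.nat_add.comp
      ((Primrec.fst.comp (Primrec.fst.comp Primrec.snd)))
      (Primrec.snd.comp Primrec.snd)
  exact h.of_eq (fun B => (bd_eq B).symm)

theorem prim_pow : Primrec₂ (fun a b : ℕ => a ^ b) := Primrec₂.unpaired'.1 Nat.Primrec.pow

theorem prim_M : Primrec M := by
  have h : Primrec (fun b : ℕ => b + 2 ^ (b * b) + 1) := by
    apply Primrec.succ.comp
    exact Primrec.nat_add.comp Primrec.id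
      (prim_pow.comp (Primrec.const 2) (Primrec.nat_mul.comp Primrec.id Primrec.id))
  exact h.of_eq (fun b => rfl)

end PBD

theorem PBD : S_PBD := by
  refine ⟨PBD.prim_bd, PBD.prim_M, ?_⟩
  rintro B y ⟨p, hp, rfl⟩
  have h1 : p.1 ≤ (B.map Prod.fst).sum :=
    List.single_le_sum (fun _ _ => Nat.zero_le _) _ (List.mem_map_of_mem hp)
  change p.1 ≤ (B.map Prod.fst).sum + 1
  omega

end Pool.Agent.R474.CE
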