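import Pool.Agent.R474.CE.Stm

/-!
# Consecutive embeddings: the digits of a code are primitive recursive
-/

set_option autoImplicit false

namespace Pool.Agent.R474.CE

theorem PBIT.primrec_pow2 : Primrec (fun n : ℕ => 2 ^ n) := by
  have h : Primrec (fun n : ℕ => Nat.rec (motive := fun _ => ℕ) 1 (fun _ r => 2 * r) n) := by
    refine Primrec.nat_rec₁ 1 ?_
    exact Primrec.nat_mul.comp (Primrec.const 2) Primrec.snd
  refine h.of_eq fun n => ?_
  induction n with
  | zero => rfl
  | succ n ih =>
    show 2 * Nat.rec (motive := fun _ => ℕ) 1 (fun _ r => 2 * r) n = 2 ^ (n + 1)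
    rw [ih, pow_succ, mul_comm]

/-- general form: the digit is primitive recursive in primitive recursive arguments -/
theorem PBIT.primrecPred_bit {α : Type} [Primcodable α] {n c i j : α → ℕ} (hn : Primrec n)
    (hc : Primrec c) (hi : Primrec i) (hj : Primrec j) :
    PrimrecPred (fun a => bit (n a) (c a) (i a) (j a)) := by
  have h1 : Primrec fun a => i a * n a + j a := Primrec.nat_add.comp (Primrec.nat_mul.comp hi hn) hj
  have h2 : Primrec fun a => 2 ^ (i a * n a + j a) := PBIT.primrec_pow2.comp h1
  have h3 : Primrec fun a => c a / 2 ^ (i a * n a + j a) % 2 :=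
    Primrec.nat_mod.comp (Primrec.nat_div.comp hc h2) (Primrec.const 2)
  exact Primrec.eq.comp h3 (Primrec.const 1)

theorem PBIT : S_PBIT :=
  PBIT.primrecPred_bit Primrec.fst (Primrec.fst.comp Primrec.snd)
    (Primrec.fst.comp (Primrec.snd.comp Primrec.snd))
    (Primrec.snd.comp (Primrec.snd.comp Primrec.snd))

end Pool.Agent.R474.CE
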