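import Pool.Agent.R474.CE.Stm

/-!
# CE-PEMB: the coded embedding relation is primitive recursive
-/

set_option autoImplicit false

namespace Pool.Agent.R474.CE

namespace PEMB

open Primrec

theorem ex_lt {β : Type} [Primcodable β] {p : ℕ → β → Prop} {f : β → ℕ} (hp : PrimrecRel p)
    (hf : Primrec f) : PrimrecPred fun b => ∃ x < f b, p x b :=
  (hp.exists_mem_list.comp (list_range.comp hf) Primrec.id).of_eq (by simp)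

theorem all_lt {β : Type} [Primcodable β] {p : ℕ → β → Prop} {f : β → ℕ} (hp : PrimrecRel p)
    (hf : Primrec f) : PrimrecPred fun b => ∀ x < f b, p x b :=
  (hp.forall_mem_list.comp (list_range.comp hf) Primrec.id).of_eq (by simp)

theorem iff' {β : Type} [Primcodable β] {p q : β → Prop} (hp : PrimrecPred p)
    (hq : PrimrecPred q) : PrimrecPred fun b => (p b ↔ q b) :=
  ((hp.and hq).or (hp.not.and hq.not)).of_eq (by intro b; tauto)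

end PEMB

open Primrec PEMB in
/-- CE-PEMB -/
theorem PEMB (hb : S_PBIT) : S_PEMB := by
  unfold S_PEMB
  unfold S_PBIT at hb
  have h1 : PrimrecPred fun x : ℕ × ℕ × ℕ × ℕ × ℕ × ℕ × ℕ =>
      (bit x.2.2.2.1 x.2.2.2.2.1 x.2.1 x.1 ↔
        bit x.2.2.2.2.2.1 x.2.2.2.2.2.2 (x.2.2.1 + x.2.1) (x.2.2.1 + x.1)) := by
    have s1 : Primrec fun x : ℕ × ℕ × ℕ × ℕ × ℕ × ℕ × ℕ => x.2 := snd
    have s2 : Primrec fun x : ℕ × ℕ × ℕ × ℕ × ℕ × ℕ × ℕ => x.2.2 := snd.comp s1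
    have s3 : Primrec fun x : ℕ × ℕ × ℕ × ℕ × ℕ × ℕ × ℕ => x.2.2.2 := snd.comp s2
    have s4 : Primrec fun x : ℕ × ℕ × ℕ × ℕ × ℕ × ℕ × ℕ => x.2.2.2.2 := snd.comp s3
    have s5 : Primrec fun x : ℕ × ℕ × ℕ × ℕ × ℕ × ℕ × ℕ => x.2.2.2.2.2 := snd.comp s4
    have j : Primrec fun x : ℕ × ℕ × ℕ × ℕ × ℕ × ℕ × ℕ => x.1 := fst
    have i : Primrec fun x : ℕ × ℕ × ℕ × ℕ × ℕ × ℕ × ℕ => x.2.1 := fst.comp s1
    have k : Primrec fun x : ℕ × ℕ × ℕ × ℕ × ℕ × ℕ × ℕ => x.2.2.1 := fst.comp s2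
    have n : Primrec fun x : ℕ × ℕ × ℕ × ℕ × ℕ × ℕ × ℕ => x.2.2.2.1 := fst.comp s3
    have c : Primrec fun x : ℕ × ℕ × ℕ × ℕ × ℕ × ℕ × ℕ => x.2.2.2.2.1 := fst.comp s4
    have m : Primrec fun x : ℕ × ℕ × ℕ × ℕ × ℕ × ℕ × ℕ => x.2.2.2.2.2.1 := fst.comp s5
    have d : Primrec fun x : ℕ × ℕ × ℕ × ℕ × ℕ × ℕ × ℕ => x.2.2.2.2.2.2 := snd.comp s5
    exact iff' (hb.comp (n.pair (c.pair (i.pair j))))
      (hb.comp (m.pair (d.pair ((nat_add.comp k i).pair (nat_add.comp k j)))))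
  have h2 : PrimrecPred fun x : ℕ × ℕ × ℕ × ℕ × ℕ × ℕ => ∀ j < x.2.2.1,
      (bit x.2.2.1 x.2.2.2.1 x.1 j ↔
        bit x.2.2.2.2.1 x.2.2.2.2.2 (x.2.1 + x.1) (x.2.1 + j)) :=
    all_lt (β := ℕ × ℕ × ℕ × ℕ × ℕ × ℕ)
      (p := fun j x => (bit x.2.2.1 x.2.2.2.1 x.1 j ↔
        bit x.2.2.2.2.1 x.2.2.2.2.2 (x.2.1 + x.1) (x.2.1 + j))) h1
      (fst.comp (snd.comp snd))
  have h3 : PrimrecPred fun x : ℕ × ℕ × ℕ × ℕ × ℕ => ∀ i < x.2.1, ∀ j < x.2.1,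
      (bit x.2.1 x.2.2.1 i j ↔ bit x.2.2.2.1 x.2.2.2.2 (x.1 + i) (x.1 + j)) :=
    all_lt (β := ℕ × ℕ × ℕ × ℕ × ℕ)
      (p := fun i x => ∀ j < x.2.1,
        (bit x.2.1 x.2.2.1 i j ↔ bit x.2.2.2.1 x.2.2.2.2 (x.1 + i) (x.1 + j))) h2
      (fst.comp snd)
  have h4 : PrimrecPred fun x : ℕ × ℕ × ℕ × ℕ × ℕ => x.1 + x.2.1 ≤ x.2.2.2.1 :=
    nat_le.comp (nat_add.comp fst (fst.comp snd)) (fst.comp (snd.comp (snd.comp snd)))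
  exact ex_lt (β := ℕ × ℕ × ℕ × ℕ) (f := fun q => q.2.2.1 + 1)
    (p := fun k q => k + q.1 ≤ q.2.2.1 ∧ ∀ i < q.1, ∀ j < q.1,
      (bit q.1 q.2.1 i j ↔ bit q.2.2.1 q.2.2.2 (k + i) (k + j))) (h4.and h3)
    (succ.comp (fst.comp (snd.comp snd)))

end Pool.Agent.R474.CE
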