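import Pool.Agent.R474.CE.Stm

/-! # CE-PER: pigeonhole for windows (helper466) -/

set_option autoImplicit false

namespace Pool.Agent.R474.CE

theorem PER : S_PER := by
  intro b x
  have hcard : Fintype.card (Fin b × Fin b → Bool) < Fintype.card (Fin (2 ^ (b * b) + 1)) := by
    rw [Fintype.card_fun, Fintype.card_prod, Fintype.card_fin, Fintype.card_fin, Fintype.card_bool]
    exact Nat.lt_succ_self _
  obtain ⟨i, j, hne, heq⟩ := Fintype.exists_ne_map_eq_of_card_lt
    (fun (k : Fin (2 ^ (b * b) + 1)) (p : Fin b × Fin b) =>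
      x.R (k.val + p.1.val) (k.val + p.2.val)) hcard
  have key : ∀ i j : Fin (2 ^ (b * b) + 1), i.val < j.val →
      ((fun p : Fin b × Fin b => x.R (i.val + p.1.val) (i.val + p.2.val)) =
        fun p : Fin b × Fin b => x.R (j.val + p.1.val) (j.val + p.2.val)) →
      ∃ i j, i < j ∧ j ≤ 2 ^ (b * b) ∧ Win b x i x j := by
    intro i j hij h
    refine ⟨i.val, j.val, hij, Nat.lt_succ_iff.1 j.isLt, fun s hs t ht => ?_⟩
    exact congrFun h (⟨s, hs⟩, ⟨t, ht⟩)
  rcases lt_or_gt_of_ne (fun h => hne (Fin.ext h) : i.val ≠ j.val) with h | h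
  · exact key i j h heq
  · exact key j i h heq.symm

end Pool.Agent.R474.CE
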