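import Pool.Agent.R474.CE.Stm

/-!
Project CE, piece PW.
-/

set_option autoImplicit false

namespace Pool.Agent.R474.CE

theorem PW : S_PBD → S_PAV → S_PW := by
  intro hB hA ok
  obtain ⟨hbd, hM, -⟩ := hB
  have hMb : Primrec (fun B : Inp => M (bd B)) := hM.comp hbd
  have hpow : Primrec (fun n : ℕ => 2 ^ n) := by
    have h : Primrec (fun n : ℕ => Nat.rec (motive := fun _ => ℕ) 1 (fun _ y => 2 * y) n) :=
      Primrec.nat_rec₁ 1 ((Primrec.nat_mul.comp (Primrec.const 2) Primrec.snd).to₂)
    refine h.of_eq fun n => ?_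
    induction n with
    | zero => rfl
    | succ n ih => rw [pow_succ, ← ih, mul_comm]
  have hbound : Primrec (fun B : Inp => 2 ^ (M (bd B) * M (bd B))) :=
    hpow.comp (Primrec.nat_mul.comp hMb hMb)
  have hR : PrimrecRel (fun (c : ℕ) (B : Inp) => ¬ avC ok B (M (bd B)) c) := by
    have h := (hA ok).comp (f := fun p : ℕ × Inp => (p.2, M (bd p.2), p.1))
      (Primrec.pair Primrec.snd (Primrec.pair (hMb.comp Primrec.snd) Primrec.fst))
    exact h.not
  have h := hR.forall_mem_list.comp (Primrec.list_range.comp hbound) Primrec.id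
  refine h.of_eq fun B => ?_
  simp only [List.mem_range, wC, id]

end Pool.Agent.R474.CE
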