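import Pool.Agent.R474.CE.Stm

set_option autoImplicit false

namespace Pool.Agent.R474.CE

namespace PWIN

theorem fa {α : Type*} [Primcodable α] {f : α → ℕ} {P : α → ℕ → Prop} (hf : Primrec f)
    (hP : PrimrecPred fun z : α × ℕ => P z.1 z.2) : PrimrecPred (fun a => ∀ x < f a, P a x) := by
  have h1 : PrimrecRel (fun (x : ℕ) (a : α) => P a x) :=
    hP.comp (Primrec.pair Primrec.snd Primrec.fst)
  exact (h1.forall_mem_list.comp (Primrec.list_range.comp hf) Primrec.id).of_eq (by simp)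

theorem ex {α : Type*} [Primcodable α] {f : α → ℕ} {P : α → ℕ → Prop} (hf : Primrec f)
    (hP : PrimrecPred fun z : α × ℕ => P z.1 z.2) : PrimrecPred (fun a => ∃ x < f a, P a x) := by
  have h1 : PrimrecRel (fun (x : ℕ) (a : α) => P a x) :=
    hP.comp (Primrec.pair Primrec.snd Primrec.fst)
  exact (h1.exists_mem_list.comp (Primrec.list_range.comp hf) Primrec.id).of_eq (by simp)

theorem iff' {α : Type*} [Primcodable α] {p q : α → Prop} (hp : PrimrecPred p)
    (hq : PrimrecPred q) : PrimrecPred fun a => (p a ↔ q a) :=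
  ((hp.and hq).or (hp.not.and hq.not)).of_eq fun a => by
    tauto

theorem imp' {α : Type*} [Primcodable α] {p q : α → Prop} (hp : PrimrecPred p)
    (hq : PrimrecPred q) : PrimrecPred fun a => (p a → q a) :=
  (hp.not.or hq).of_eq fun a => by
    rw [imp_iff_not_or]

abbrev Q7 := ℕ × ℕ × ℕ × ℕ × ℕ × ℕ × ℕ

end PWIN

open PWIN in
theorem PWIN (h : S_PBIT) : S_PWIN := by
  unfold S_PWIN winC
  have q : Primrec (fun z : (Q7 × ℕ) × ℕ => z.1.1) := Primrec.fst.comp Primrec.fst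
  have s : Primrec (fun z : (Q7 × ℕ) × ℕ => z.1.2) := Primrec.snd.comp Primrec.fst
  have t : Primrec (fun z : (Q7 × ℕ) × ℕ => z.2) := Primrec.snd
  have q1 := Primrec.snd.comp q
  have q2 := Primrec.snd.comp q1
  have q3 := Primrec.snd.comp q2
  have q4 := Primrec.snd.comp q3
  have q5 := Primrec.snd.comp q4
  have q6 := Primrec.snd.comp q5
  have n := Primrec.fst.comp q1
  have c := Primrec.fst.comp q2
  have i := Primrec.fst.comp q3
  have m := Primrec.fst.comp q4
  have d := Primrec.fst.comp q5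
  refine fa (P := fun (q : Q7) s => ∀ t < q.1, (bit q.2.1 q.2.2.1 (q.2.2.2.1 + s) (q.2.2.2.1 + t) ↔
    bit q.2.2.2.2.1 q.2.2.2.2.2.1 (q.2.2.2.2.2.2 + s) (q.2.2.2.2.2.2 + t))) Primrec.fst ?_
  refine fa (P := fun (z : Q7 × ℕ) t => (bit z.1.2.1 z.1.2.2.1 (z.1.2.2.2.1 + z.2)
    (z.1.2.2.2.1 + t) ↔ bit z.1.2.2.2.2.1 z.1.2.2.2.2.2.1 (z.1.2.2.2.2.2.2 + z.2)
      (z.1.2.2.2.2.2.2 + t))) (Primrec.fst.comp Primrec.fst) ?_
  refine iff' ?_ ?_
  · exact h.comp (Primrec.pair n (Primrec.pair c (Primrec.pair (Primrec.nat_add.comp i s)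
      (Primrec.nat_add.comp i t))))
  · exact h.comp (Primrec.pair m (Primrec.pair d (Primrec.pair (Primrec.nat_add.comp q6 s)
      (Primrec.nat_add.comp q6 t))))

end Pool.Agent.R474.CE
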