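import Pool.Agent.R474.CE.StmQ

/-!
# Consecutive embeddings of posets: joint embedding for bicyclic classes (S_QBI)
-/

set_option autoImplicit false

namespace Pool.Agent.R474.CE.QBI

open Pool.Agent.R474.CE

theorem win_symm {b i j : ℕ} {x y : Str} (h : Win b x i y j) : Win b y j x i :=
  fun s hs t ht => (h s hs t ht).symm

theorem win_trans {b i j k : ℕ} {x y z : Str} (h : Win b x i y j) (h' : Win b y j z k) :
    Win b x i z k :=
  fun s hs t ht => (h s hs t ht).trans (h' s hs t ht)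

theorem win_sub {b i j : ℕ} {x y : Str} (h : Win b x i y j) (b' k i' j' : ℕ) (hk : k + b' ≤ b)
    (hi : i' = i + k) (hj : j' = j + k) : Win b' x i' y j' := by
  subst hi hj
  intro s hs t ht
  have := h (k + s) (by omega) (k + t) (by omega)
  simpa [Nat.add_assoc] using this

theorem win_l (x : Str) (k m b i : ℕ) (y : Str) (j : ℕ) :
    Win b (win x k m) i y j ↔ Win b x (k + i) y j := by
  unfold Win win; simp only [Nat.add_assoc]

theorem win_r (x : Str) (k m b i : ℕ) (y : Str) (j : ℕ) :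
    Win b y j (win x k m) i ↔ Win b y j x (k + i) := by
  unfold Win win; simp only [Nat.add_assoc]

theorem emb_win {x y : Str} : Emb x y ↔ ∃ k, k + x.n ≤ y.n ∧ Win x.n y k x 0 := by
  unfold Emb Win
  constructor
  · rintro ⟨k, hk, h⟩
    exact ⟨k, hk, fun s hs t ht => by rw [Nat.zero_add, Nat.zero_add]; exact (h s hs t ht).symm⟩
  · rintro ⟨k, hk, h⟩
    refine ⟨k, hk, fun s hs t ht => ?_⟩
    have := h s hs t ht
    rw [Nat.zero_add, Nat.zero_add] at this
    exact this.symm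

structure Hyp (C : Set Str) (b : ℕ) : Prop where
  res : ∀ x ∈ C, ∀ k m, k + m ≤ x.n → win x k m ∈ C
  glue : ∀ D, b ≤ D → ∀ x ∈ C, ∀ z ∈ C, D ≤ x.n → D ≤ z.n → Win D x (x.n - D) z 0 →
    ∃ y ∈ C, y.n + D = x.n + z.n ∧ Win x.n y 0 x 0 ∧ Win z.n y (x.n - D) z 0
  cut : ∀ u v, ∀ z ∈ C, Path b u v z → ∃ z' ∈ C, z'.n ≤ M b ∧ Path b u v z'
  det : ∀ x ∈ C, ∀ x' ∈ C, x.n = x'.n → b ≤ x.n → (∀ k, k + b ≤ x.n → Win b x k x' k) →
    Win x.n x 0 x' 0
  js : JS C b

structure Edg (C : Set Str) (b : ℕ) (e : Str) : Prop where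
  mem : e ∈ C
  sz : e.n = b + 1
  tr : ∀ z ∈ C, ¬ Path b (win e 1 b) (win e 0 b) z

def Occ (b : ℕ) (e z : Str) (p : ℕ) : Prop := p + (b + 1) ≤ z.n ∧ Win (b + 1) z p e 0

variable {C : Set Str} {b : ℕ} {e : Str}

theorem path_of (H : Hyp C b) (z : Str) (hz : z ∈ C) (p q : ℕ) (hpq : p ≤ q) (hq : q + b ≤ z.n)
    (u v : Str) (hu : Win b z p u 0) (hv : Win b z q v 0) : ∃ y ∈ C, Path b u v y := by
  refine ⟨win z p (q - p + b), H.res z hz _ _ (by omega), ?_, ?_, ?_⟩
  · show b ≤ q - p + b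
    omega
  · rw [win_l]; exact hu
  · show Win b (win z p (q - p + b)) (q - p + b - b) v 0
    rw [win_l]
    have : p + (q - p + b - b) = q := by omega
    rw [this]; exact hv

theorem path_trans (H : Hyp C b) (u v w z z' : Str) (hz : z ∈ C) (hz' : z' ∈ C)
    (h : Path b u v z) (h' : Path b v w z') : ∃ y ∈ C, Path b u w y := by
  obtain ⟨h1, h2, h3⟩ := h
  obtain ⟨h1', h2', h3'⟩ := h'
  obtain ⟨y, hy, hn, ha, hb⟩ := H.glue b le_rfl z hz z' hz' h1 h1' (win_trans h3 (win_symm h2'))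
  refine ⟨y, hy, by omega, ?_, ?_⟩
  · exact win_trans (win_sub ha b 0 0 0 (by omega) rfl rfl) h2
  · exact win_trans (win_sub hb b (z'.n - b) _ _ (by omega) (by omega) (by omega)) h3'

theorem uniq (H : Hyp C b) (E : Edg C b e) (z : Str) (hz : z ∈ C) (p q : ℕ) (hp : Occ b e z p)
    (hq : Occ b e z q) : p = q := by
  have key : ∀ p q, Occ b e z p → Occ b e z q → ¬ p < q := by
    intro p q hp hq h
    have h1 := hq.1
    obtain ⟨y, hy, hP⟩ := path_of H z hz (p + 1) q (by omega) (by omega) (win e 1 b) (win e 0 b)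
      (by rw [win_r]; exact win_sub hp.2 b 1 _ _ (by omega) rfl rfl)
      (by rw [win_r]; exact win_sub hq.2 b 0 _ _ (by omega) rfl rfl)
    exact E.tr y hy hP
  have h1 := key p q hp hq
  have h2 := key q p hq hp
  omega

theorem fwd (H : Hyp C b) (E : Edg C b e) (w z1 : Str) (hz1 : z1 ∈ C)
    (hP : Path b (win e 1 b) w z1) (f g : Str) (hf : f ∈ C) (hg : g ∈ C) (hfn : f.n = b + 1)
    (hgn : g.n = b + 1) (hfw : Win b f 0 w 0) (hgw : Win b g 0 w 0) : Win (b + 1) f 0 g 0 := by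
  obtain ⟨z, hz, hzn, h1, h2, h3⟩ := H.cut _ _ z1 hz1 hP
  have hen := E.sz
  obtain ⟨y, hy, hyn, ya, yb⟩ := H.glue b le_rfl e E.mem z hz (by omega) h1 (by
    have : e.n - b = 1 := by omega
    rw [this]
    rw [win_r] at h2
    exact win_symm h2)
  have he1 : e.n - b = 1 := by omega
  rw [he1] at yb
  have hyend : Win b y (y.n - b) w 0 :=
    win_trans (win_sub yb b (z.n - b) _ _ (by omega) (by omega) (by omega)) h3
  have ext : ∀ f ∈ C, f.n = b + 1 → Win b f 0 w 0 →
      ∃ yf ∈ C, yf.n = y.n + 1 ∧ Win (b + 1) yf 0 e 0 ∧ Win (b + 1) yf (y.n - b) f 0 := by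
    intro f hf hfn hfw
    obtain ⟨yf, hyf, hn, ha, hb⟩ := H.glue b le_rfl y hy f hf (by omega) (by omega)
      (win_trans hyend (win_symm hfw))
    refine ⟨yf, hyf, by omega, ?_, ?_⟩
    · rw [hen] at ya
      exact win_trans (win_sub ha (b + 1) 0 0 0 (by omega) rfl rfl) ya
    · rw [hfn] at hb; exact hb
  obtain ⟨yf, hyf, nf, f1, f2⟩ := ext f hf hfn hfw
  obtain ⟨yg, hyg, ng, g1, g2⟩ := ext g hg hgn hgw
  obtain ⟨Z, hZ, -, ef, eg⟩ := H.js yf hyf yg hyg (by unfold S1; omega) (by unfold S1; omega)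
  rw [emb_win] at ef eg
  obtain ⟨k, hk, wf⟩ := ef
  obtain ⟨l, hl, wg⟩ := eg
  have hkl : k = l := uniq H E Z hZ k l
    ⟨by omega, win_trans (win_sub wf (b + 1) 0 k 0 (by omega) rfl rfl) f1⟩
    ⟨by omega, win_trans (win_sub wg (b + 1) 0 l 0 (by omega) rfl rfl) g1⟩
  subst hkl
  have a1 : Win (b + 1) Z (k + (y.n - b)) f 0 :=
    win_trans (win_sub wf (b + 1) (y.n - b) _ _ (by omega) rfl (Nat.zero_add _).symm) f2
  have a2 : Win (b + 1) Z (k + (y.n - b)) g 0 :=
    win_trans (win_sub wg (b + 1) (y.n - b) _ _ (by omega) rfl (Nat.zero_add _).symm) g2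
  exact win_trans (win_symm a1) a2

theorem bwd (H : Hyp C b) (E : Edg C b e) (w z1 : Str) (hz1 : z1 ∈ C)
    (hP : Path b w (win e 0 b) z1) (f g : Str) (hf : f ∈ C) (hg : g ∈ C) (hfn : f.n = b + 1)
    (hgn : g.n = b + 1) (hfw : Win b f 1 w 0) (hgw : Win b g 1 w 0) : Win (b + 1) f 0 g 0 := by
  obtain ⟨z, hz, hzn, h1, h2, h3⟩ := H.cut _ _ z1 hz1 hP
  have hen := E.sz
  obtain ⟨y, hy, hyn, ya, yb⟩ := H.glue b le_rfl z hz e E.mem h1 (by omega) (by
    rw [win_r] at h3
    exact h3)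
  have hyst : Win b y 0 w 0 := win_trans (win_sub ya b 0 _ _ (by omega) rfl rfl) h2
  have ext : ∀ f ∈ C, f.n = b + 1 → Win b f 1 w 0 →
      ∃ yf ∈ C, yf.n = y.n + 1 ∧ Win (b + 1) yf (1 + (z.n - b)) e 0 ∧ Win (b + 1) yf 0 f 0 := by
    intro f hf hfn hfw
    have hf1 : f.n - b = 1 := by omega
    obtain ⟨yf, hyf, hn, ha, hb⟩ := H.glue b le_rfl f hf y hy (by omega) (by omega)
      (by rw [hf1]; exact win_trans hfw (win_symm hyst))
    rw [hf1] at hb
    rw [hen] at yb
    refine ⟨yf, hyf, by omega, ?_, ?_⟩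
    · exact win_trans (win_sub hb (b + 1) (z.n - b) _ _ (by omega) rfl (Nat.zero_add _).symm) yb
    · rw [hfn] at ha; exact ha
  obtain ⟨yf, hyf, nf, f1, f2⟩ := ext f hf hfn hfw
  obtain ⟨yg, hyg, ng, g1, g2⟩ := ext g hg hgn hgw
  obtain ⟨Z, hZ, -, ef, eg⟩ := H.js yf hyf yg hyg (by unfold S1; omega) (by unfold S1; omega)
  rw [emb_win] at ef eg
  obtain ⟨k, hk, wf⟩ := ef
  obtain ⟨l, hl, wg⟩ := eg
  have hkl : k + (1 + (z.n - b)) = l + (1 + (z.n - b)) := uniq H E Z hZ _ _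
    ⟨by omega, win_trans (win_sub wf (b + 1) (1 + (z.n - b)) _ _ (by omega) rfl
      (Nat.zero_add _).symm) f1⟩
    ⟨by omega, win_trans (win_sub wg (b + 1) (1 + (z.n - b)) _ _ (by omega) rfl
      (Nat.zero_add _).symm) g1⟩
  have hkl' : k = l := by omega
  subst hkl'
  have a1 : Win (b + 1) Z k f 0 := win_trans (win_sub wf (b + 1) 0 k 0 (by omega) rfl rfl) f2
  have a2 : Win (b + 1) Z k g 0 := win_trans (win_sub wg (b + 1) 0 k 0 (by omega) rfl rfl) g2
  exact win_trans (win_symm a1) a2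

theorem fwdAll (H : Hyp C b) (E : Edg C b e) (X Y : Str) (hX : X ∈ C) (hY : Y ∈ C) (p q : ℕ)
    (hp : Occ b e X p) (hq : Occ b e Y q) : ∀ j, p + j + b ≤ X.n → q + j + b ≤ Y.n →
      Win b X (p + j) Y (q + j) := by
  have hXY : Win (b + 1) X p Y q := win_trans hp.2 (win_symm hq.2)
  intro j
  induction j with
  | zero => intro _ _; exact win_sub hXY b 0 _ _ (by omega) rfl rfl
  | succ j ih =>
    intro h1 h2
    rcases Nat.eq_zero_or_pos j with h0 | h0
    · subst h0
      exact win_sub hXY b 1 _ _ (by omega) rfl rfl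
    · have hw := ih (by omega) (by omega)
      obtain ⟨z1, hz1, hP⟩ := path_of H X hX (p + 1) (p + j) (by omega) (by omega) (win e 1 b)
        (win X (p + j) b)
        (by rw [win_r]; exact win_sub hp.2 b 1 _ _ (by omega) rfl rfl)
        (by rw [win_r]; intro s _ t _; rfl)
      have := fwd H E (win X (p + j) b) z1 hz1 hP (win X (p + j) (b + 1)) (win Y (q + j) (b + 1))
        (H.res X hX _ _ (by omega)) (H.res Y hY _ _ (by omega)) rfl rfl
        (by rw [win_l, win_r]; intro s _ t _; rfl)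
        (by rw [win_l, win_r]; exact win_symm hw)
      rw [win_l, win_r] at this
      exact win_sub this b 1 _ _ (by omega) rfl rfl

theorem bwdAll (H : Hyp C b) (E : Edg C b e) (X Y : Str) (hX : X ∈ C) (hY : Y ∈ C) (p q : ℕ)
    (hp : Occ b e X p) (hq : Occ b e Y q) : ∀ j, j ≤ p → j ≤ q →
      Win b X (p - j) Y (q - j) := by
  have hXY : Win (b + 1) X p Y q := win_trans hp.2 (win_symm hq.2)
  have hp1 := hp.1
  have hq1 := hq.1
  intro j
  induction j with
  | zero => intro _ _; exact win_sub hXY b 0 _ _ (by omega) rfl rfl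
  | succ j ih =>
    intro h1 h2
    have hw := ih (by omega) (by omega)
    obtain ⟨z1, hz1, hP⟩ := path_of H X hX (p - j) p (by omega) (by omega)
      (win X (p - j) b) (win e 0 b)
      (by rw [win_r]; intro s _ t _; rfl)
      (by rw [win_r]; exact win_sub hp.2 b 0 _ _ (by omega) rfl rfl)
    have e1 : p - (j + 1) + 1 = p - j := by omega
    have e2 : q - (j + 1) + 1 = q - j := by omega
    have := bwd H E (win X (p - j) b) z1 hz1 hP (win X (p - (j + 1)) (b + 1))
      (win Y (q - (j + 1)) (b + 1))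
      (H.res X hX _ _ (by omega)) (H.res Y hY _ _ (by omega)) rfl rfl
      (by rw [win_l, win_r, e1]; intro s _ t _; rfl)
      (by rw [win_l, win_r, e2]; exact win_symm hw)
    rw [win_l, win_r] at this
    exact win_sub this b 0 _ _ (by omega) rfl rfl

theorem embOf (H : Hyp C b) (E : Edg C b e) (X Z : Str) (hX : X ∈ C) (hZ : Z ∈ C) (r p : ℕ)
    (hr : Occ b e X r) (hp : Occ b e Z p) (h1 : r ≤ p) (h2 : X.n + p ≤ Z.n + r) : Emb X Z := by
  have hr1 := hr.1
  have hp1 := hp.1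
  rw [emb_win]
  refine ⟨p - r, by omega, ?_⟩
  have := H.det X hX (win Z (p - r) X.n) (H.res Z hZ _ _ (by omega)) rfl (by omega) (by
    intro k hk
    rw [win_r]
    rcases Nat.lt_or_ge k r with h | h
    · have hh := bwdAll H E X Z hX hZ r p hr hp (r - k) (by omega) (by omega)
      have e1 : r - (r - k) = k := by omega
      have e2 : p - (r - k) = p - r + k := by omega
      rw [e1, e2] at hh
      exact hh
    · have hh := fwdAll H E X Z hX hZ r p hr hp (k - r) (by omega) (by omega)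
      have e1 : r + (k - r) = k := by omega
      have e2 : p + (k - r) = p - r + k := by omega
      rw [e1, e2] at hh
      exact hh)
  rw [win_r] at this
  exact win_symm this

theorem comb (H : Hyp C b) (E : Edg C b e) (P Q : Str) (hP : P ∈ C) (hQ : Q ∈ C) (p q : ℕ)
    (hp : Occ b e P p) (hq : Occ b e Q q) : ∃ Z ∈ C, Occ b e Z p ∧ Z.n + q = p + Q.n := by
  have hp1 := hp.1
  have hq1 := hq.1
  obtain ⟨y, hy, hn, ha, hb⟩ := H.glue (b + 1) (by omega) (win P 0 (p + (b + 1)))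
    (H.res P hP _ _ (by omega)) (win Q q (Q.n - q)) (H.res Q hQ _ _ (by omega))
    (by show b + 1 ≤ p + (b + 1); omega) (by show b + 1 ≤ Q.n - q; omega)
    (by
      show Win (b + 1) (win P 0 (p + (b + 1))) (p + (b + 1) - (b + 1)) (win Q q (Q.n - q)) 0
      rw [win_l, win_r]
      have : 0 + (p + (b + 1) - (b + 1)) = p := by omega
      rw [this]
      exact win_trans hp.2 (win_symm hq.2))
  change y.n + (b + 1) = p + (b + 1) + (Q.n - q) at hn
  change Win (p + (b + 1)) y 0 (win P 0 (p + (b + 1))) 0 at ha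
  rw [win_r] at ha
  refine ⟨y, hy, ⟨by omega, ?_⟩, by omega⟩
  exact win_trans (win_sub ha (b + 1) p p p (by omega) (by omega) (by omega)) hp.2

theorem cont (H : Hyp C b) (E : Edg C b e) (x : Str) (hx : x ∈ C) :
    ∃ y ∈ C, Emb x y ∧ ∃ p, Occ b e y p := by
  have hen := E.sz
  by_cases hs : x.n ≤ S1 b
  · obtain ⟨z, hz, -, h1, h2⟩ := H.js x hx e E.mem hs (by rw [hen]; unfold S1; omega)
    refine ⟨z, hz, h1, ?_⟩
    rw [emb_win] at h2
    obtain ⟨k, hk, hw⟩ := h2
    rw [hen] at hk hw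
    exact ⟨k, hk, hw⟩
  have hxb : b + 1 ≤ x.n := by unfold S1 at hs; omega
  by_cases ho : ∃ p, Occ b e x p
  · exact ⟨x, hx, emb_win.2 ⟨0, by omega, fun s _ t _ => rfl⟩, ho⟩
  have step : ∀ k, k + (b + 1) ≤ x.n → (∃ z ∈ C, Path b (win x (k + 1) b) (win e 0 b) z) ∨
      ∃ z ∈ C, Path b (win e 1 b) (win x k b) z := by
    intro k hk
    obtain ⟨z, hz, -, h1, h2⟩ := H.js (win x k (b + 1)) (H.res x hx _ _ hk) e E.mem
      (by show b + 1 ≤ S1 b; unfold S1; omega) (by rw [hen]; unfold S1; omega)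
    rw [emb_win] at h1 h2
    obtain ⟨k', hk', hw'⟩ := h1
    obtain ⟨q, hq, hwq⟩ := h2
    rw [hen] at hq hwq
    change k' + (b + 1) ≤ z.n at hk'
    change Win (b + 1) z k' (win x k (b + 1)) 0 at hw'
    rw [win_r] at hw'
    rcases Nat.lt_trichotomy k' q with h | h | h
    · left
      exact path_of H z hz (k' + 1) q (by omega) (by omega) _ _
        (by rw [win_r]; exact win_sub hw' b 1 _ _ (by omega) rfl rfl)
        (by rw [win_r]; exact win_sub hwq b 0 _ _ (by omega) rfl rfl)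
    · exfalso
      subst h
      exact ho ⟨k, hk, win_trans (win_symm hw') hwq⟩
    · right
      exact path_of H z hz (q + 1) k' (by omega) (by omega) _ _
        (by rw [win_r]; exact win_sub hwq b 1 _ _ (by omega) rfl rfl)
        (by rw [win_r]; exact win_sub hw' b 0 _ _ (by omega) rfl rfl)
  by_cases h0 : ∃ z ∈ C, Path b (win e 1 b) (win x 0 b) z
  · obtain ⟨z, hz, h1, h2, h3⟩ := h0
    have he1 : e.n - b = 1 := by omega
    rw [win_r] at h2 h3
    obtain ⟨y, hy, hyn, ya, yb⟩ := H.glue b le_rfl e E.mem z hz (by omega) h1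
      (by rw [he1]; exact win_symm h2)
    rw [he1] at yb
    obtain ⟨v, hv, hvn, va, vb⟩ := H.glue b le_rfl y hy x hx (by omega) (by omega)
      (win_trans (win_sub yb b (z.n - b) _ _ (by omega) (by omega) (by omega)) h3)
    refine ⟨v, hv, emb_win.2 ⟨y.n - b, by omega, vb⟩, 0, by omega, ?_⟩
    rw [hen] at ya
    exact win_trans (win_sub va (b + 1) 0 _ _ (by omega) rfl rfl) ya
  · have all : ∀ k, k + 1 + b ≤ x.n → ∃ z ∈ C, Path b (win x (k + 1) b) (win e 0 b) z := by
      intro k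
      induction k with
      | zero =>
        intro hk
        rcases step 0 (by omega) with h | h
        · exact h
        · exact absurd h h0
      | succ k ih =>
        intro hk
        obtain ⟨z, hz, hP⟩ := ih (by omega)
        rcases step (k + 1) (by omega) with h | h
        · exact h
        · obtain ⟨z', hz', hP'⟩ := h
          obtain ⟨y, hy, hPy⟩ := path_trans H _ _ _ z' z hz' hz hP' hP
          exact absurd hPy (E.tr y hy)
    obtain ⟨z, hz, h1, h2, h3⟩ := all (x.n - b - 1) (by omega)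
    have ex1 : x.n - b - 1 + 1 = x.n - b := by omega
    rw [win_r] at h2 h3
    rw [ex1] at h2
    obtain ⟨y, hy, hyn, ya, yb⟩ := H.glue b le_rfl x hx z hz (by omega) h1 (win_symm h2)
    obtain ⟨v, hv, hvn, va, vb⟩ := H.glue b le_rfl y hy e E.mem (by omega) (by omega)
      (win_trans (win_sub yb b (z.n - b) _ _ (by omega) (by omega) (by omega)) h3)
    rw [hen] at vb
    refine ⟨v, hv, emb_win.2 ⟨0, by omega, ?_⟩, y.n - b, by omega, vb⟩
    exact win_trans (win_sub va x.n 0 _ _ (by omega) rfl rfl) ya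

theorem exEdge (H : Hyp C b) (hcn : ¬ CN C b) : ∃ e, Edg C b e := by
  unfold CN at hcn
  push_neg at hcn
  obtain ⟨u, hu, v, hv, hun, hvn, hno⟩ := hcn
  have hno' : ∀ z ∈ C, ¬ Path b u v z := by
    intro z hz hP
    obtain ⟨z', hz', hn, hP'⟩ := H.cut u v z hz hP
    exact hno z' hz' hn hP'
  obtain ⟨z, hz, -, h1, h2⟩ := H.js u hu v hv (by rw [hun]; unfold S1; omega)
    (by rw [hvn]; unfold S1; omega)
  rw [emb_win] at h1 h2
  obtain ⟨k, hk, wk⟩ := h1
  obtain ⟨l, hl, wl⟩ := h2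
  rw [hun] at hk wk
  rw [hvn] at hl wl
  have hlk : l < k := by
    by_contra h
    obtain ⟨y, hy, hP⟩ := path_of H z hz k l (by omega) hl u v wk wl
    exact hno' y hy hP
  by_contra hcon
  have all : ∀ j, l + j ≤ k → ∃ y ∈ C, Path b (win z (l + j) b) v y := by
    intro j
    induction j with
    | zero =>
      intro _
      exact path_of H z hz l l le_rfl hl _ _ (by rw [win_r]; intro s _ t _; rfl) wl
    | succ j ih =>
      intro hj
      obtain ⟨y, hy, hP⟩ := ih (by omega)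
      have : ∃ y ∈ C, Path b (win z (l + (j + 1)) b) (win z (l + j) b) y := by
        by_contra hn
        apply hcon
        refine ⟨win z (l + j) (b + 1), H.res z hz _ _ (by omega), rfl, ?_⟩
        intro y hy hP
        apply hn
        obtain ⟨p1, p2, p3⟩ := hP
        rw [win_r, win_r] at p2 p3
        refine ⟨y, hy, p1, ?_, ?_⟩
        · rw [win_r]; exact win_sub p2 b 0 _ _ (by omega) (by omega) (by omega)
        · rw [win_r]; exact win_sub p3 b 0 _ _ (by omega) (by omega) (by omega)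
      obtain ⟨y', hy', hP'⟩ := this
      exact path_trans H _ _ _ y' y hy' hy hP' hP
  obtain ⟨y, hy, p1, p2, p3⟩ := all (k - l) (by omega)
  have ek : l + (k - l) = k := by omega
  rw [win_r, ek] at p2
  exact hno' y hy ⟨p1, win_trans p2 wk, p3⟩

theorem main (H : Hyp C b) (hcn : ¬ CN C b) : JE C := by
  obtain ⟨e, E⟩ := exEdge H hcn
  intro x hx y hy
  obtain ⟨X, hX, hxX, p, hp⟩ := cont H E x hx
  obtain ⟨Y, hY, hyY, q, hq⟩ := cont H E y hy
  have embtr : ∀ {x y z : Str}, Emb x y → Emb y z → Emb x z := by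
    intro x y z h1 h2
    rw [emb_win] at *
    obtain ⟨k, hk, hw⟩ := h1
    obtain ⟨l, hl, hv⟩ := h2
    exact ⟨l + k, by omega, win_trans (win_sub hv x.n k _ _ (by omega) rfl (Nat.zero_add _).symm)
      hw⟩
  have hp1 := hp.1
  have hq1 := hq.1
  have fin : ∀ P ∈ C, ∀ Q ∈ C, ∀ p' q', Occ b e P p' → Occ b e Q q' → p ≤ p' → q ≤ p' →
      X.n + q' ≤ Q.n + p → Y.n + q' ≤ Q.n + q → ∃ z ∈ C, Emb x z ∧ Emb y z := by
    intro P hP Q hQ p' q' hp' hq' a1 a2 a3 a4
    obtain ⟨Z, hZ, oc, hn⟩ := comb H E P Q hP hQ p' q' hp' hq'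
    exact ⟨Z, hZ, embtr hxX (embOf H E X Z hX hZ p p' hp oc a1 (by omega)),
      embtr hyY (embOf H E Y Z hY hZ q p' hq oc a2 (by omega))⟩
  rcases le_total p q with h | h
  · rcases le_total (X.n + q) (Y.n + p) with h' | h'
    · exact fin Y hY Y hY q q hq hq h le_rfl (by omega) (by omega)
    · exact fin Y hY X hX q p hq hp h le_rfl (by omega) (by omega)
  · rcases le_total (X.n + q) (Y.n + p) with h' | h'
    · exact fin X hX Y hY p q hp hq le_rfl h (by omega) (by omega)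
    · exact fin X hX X hX p p hp hp le_rfl h (by omega) (by omega)

end Pool.Agent.R474.CE.QBI

namespace Pool.Agent.R474.CE

theorem QBI (h1 : S_QRES) (h2 : S_QGLUE) (h3 : S_QCUT) (h4 : S_QDET) : S_QBI := by
  intro B b hS hjs hcn hfr
  refine QBI.main ⟨(h1 B).2, ?_, ?_, ?_, hjs⟩ hcn
  · intro D hD x hx z hz hxn hzn hw
    obtain ⟨y, hy, ha⟩ := h2 B b hS D hD x hx z hz hxn hzn hw
    exact ⟨y, hy, ha.1, ha.2.1, ha.2.2.1⟩
  · intro u v z hz hP
    exact h3 B b hS u v z hz hP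
  · intro x hx x' hx' hn hb hk
    exact h4 B b b hS le_rfl hfr x hx x' hx' hn hb hk

end Pool.Agent.R474.CE
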