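import Pool.Agent.R474.CE.StmQ

set_option autoImplicit false

namespace Pool.Agent.R474.CE

namespace QCN

theorem trans {x y z : Str} (h1 : Emb x y) (h2 : Emb y z) : Emb x z := by
  obtain ⟨k, hk, h⟩ := h1
  obtain ⟨l, hl, h'⟩ := h2
  refine ⟨l + k, by omega, ?_⟩
  intro i hi j hj
  rw [h i hi j hj, h' (k + i) (by omega) (k + j) (by omega), Nat.add_assoc, Nat.add_assoc]

/-- joining two structures of size at least `b` -/
theorem big (hR : S_QRES) (hG : S_QGLUE) (B : Set Str) (b : ℕ) (hs : Std B b)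
    (hCN : CN (Av Pos B) b) (x : Str) (hx : x ∈ Av Pos B) (y : Str) (hy : y ∈ Av Pos B)
    (hxb : b ≤ x.n) (hyb : b ≤ y.n) : ∃ z ∈ Av Pos B, Emb x z ∧ Emb y z := by
  have hu : win x (x.n - b) b ∈ Av Pos B := (hR B).2 x hx (x.n - b) b (by omega)
  have hv : win y 0 b ∈ Av Pos B := (hR B).2 y hy 0 b (by omega)
  obtain ⟨z, hz, _, hzb, hzu, hzv⟩ := hCN _ hu _ hv rfl rfl
  have hW1 : Win b x (x.n - b) z 0 := by
    intro s hs t ht
    have := hzu s hs t ht
    rw [this]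
    simp only [win, Nat.zero_add]
  obtain ⟨y1, hy1, hn1, hW2, hW3, -⟩ := hG B b hs b (le_refl b) x hx z hz hxb hzb hW1
  have hy1b : b ≤ y1.n := by omega
  have hW4 : Win b y1 (y1.n - b) y 0 := by
    intro s hs t ht
    have e : ∀ r, y1.n - b + r = x.n - b + (z.n - b + r) := by intro r; omega
    rw [e, e, hW3 (z.n - b + s) (by omega) (z.n - b + t) (by omega), Nat.zero_add, Nat.zero_add,
      hzv s hs t ht]
    simp only [win, Nat.zero_add]
  obtain ⟨y2, hy2, hn2, hW5, hW6, -⟩ := hG B b hs b (le_refl b) y1 hy1 y hy hy1b hyb hW4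
  refine ⟨y2, hy2, ⟨0, by omega, ?_⟩, ⟨y1.n - b, by omega, ?_⟩⟩
  · intro i hi j hj
    rw [hW5 i (by omega) j (by omega), hW2 i hi j hj, Nat.zero_add, Nat.zero_add]
  · intro i hi j hj
    rw [hW6 i hi j hj, Nat.zero_add, Nat.zero_add]

theorem half (hR : S_QRES) (hG : S_QGLUE) (B : Set Str) (b : ℕ) (hs : Std B b)
    (hJS : JS (Av Pos B) b)
    (hCN : CN (Av Pos B) b) (x : Str) (hx : x ∈ Av Pos B) (y : Str) (hy : y ∈ Av Pos B)
    (hxb : x.n < b) (hyb : b ≤ y.n) : ∃ z ∈ Av Pos B, Emb x z ∧ Emb y z := by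
  have hv : win y 0 b ∈ Av Pos B := (hR B).2 y hy 0 b (by omega)
  have hS : b ≤ S1 b := by unfold S1; omega
  obtain ⟨z1, hz1, _, h1, h2⟩ := hJS x hx _ hv (by omega) hS
  have hz1b : b ≤ z1.n := by
    obtain ⟨k, hk, _⟩ := h2
    have : (win y 0 b).n = b := rfl
    omega
  obtain ⟨z2, hz2, h3, h4⟩ := big hR hG B b hs hCN z1 hz1 y hy hz1b hyb
  exact ⟨z2, hz2, trans h1 h3, h4⟩

end QCN

theorem QCN (hR : S_QRES) (hG : S_QGLUE) : S_QCN := by
  intro B b hs hJS hCN x hx y hy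
  have hS : b ≤ S1 b := by unfold S1; omega
  rcases Nat.lt_or_ge x.n b with hxb | hxb
  · rcases Nat.lt_or_ge y.n b with hyb | hyb
    · obtain ⟨z, hz, _, h1, h2⟩ := hJS x hx y hy (by omega) (by omega)
      exact ⟨z, hz, h1, h2⟩
    · exact QCN.half hR hG B b hs hJS hCN x hx y hy hxb hyb
  · rcases Nat.lt_or_ge y.n b with hyb | hyb
    · obtain ⟨z, hz, h1, h2⟩ := QCN.half hR hG B b hs hJS hCN y hy x hx hyb hxb
      exact ⟨z, hz, h2, h1⟩
    · exact QCN.big hR hG B b hs hCN x hx y hy hxb hyb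

end Pool.Agent.R474.CE
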