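import Pool.Agent.R474.CE.StmQ

/-! # CE-QCOR: the codes are correct (posets) -/

set_option autoImplicit false

namespace Pool.Agent.R474.CE

/-- `S_QCOR` with the necessary hypothesis `1 ≤ m` in the second part -/
def S_QCORx : Prop := (∀ B n c, avQ B n c ↔ cod n c ∈ Av Pos (bas B)) ∧
  (∀ B N m, 1 ≤ m → 2 ^ (m * m) ≤ N → (freeC B N m ↔ FreeP (Av Pos (bas B)) m)) ∧
  (∀ B N D n, 2 ^ (n * n) ≤ N → (mkC B N D n ↔ MK (Av Pos (bas B)) D n)) ∧
  (∀ B N b, 1 ≤ b → 2 ^ (S2 b * S2 b) ≤ N → (jsC B N b ↔ JS (Av Pos (bas B)) b)) ∧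
  (∀ B N b, 1 ≤ b → 2 ^ (S2 b * S2 b) ≤ N → (cnC B N b ↔ CN (Av Pos (bas B)) b))

namespace QCORaux

/-- same size, same relation below -/
def Eqv (x y : Str) : Prop := x.n = y.n ∧ ∀ i < x.n, ∀ j < x.n, x.R i j = y.R i j

theorem Eqv.symm {x y : Str} (h : Eqv x y) : Eqv y x :=
  ⟨h.1.symm, fun i hi j hj => (h.2 i (by rw [h.1]; exact hi) j (by rw [h.1]; exact hj)).symm⟩

theorem Eqv.emb {x y : Str} (h : Eqv x y) : Emb x y :=
  ⟨0, by rw [h.1]; omega, fun i hi j hj => by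
    rw [Nat.zero_add, Nat.zero_add]
    exact h.2 i hi j hj⟩

theorem emb_trans {x y z : Str} (h : Emb x y) (h' : Emb y z) : Emb x z := by
  obtain ⟨k, hk, hR⟩ := h
  obtain ⟨l, hl, hR'⟩ := h'
  refine ⟨l + k, by omega, fun i hi j hj => ?_⟩
  rw [hR i hi j hj, hR' (k + i) (by omega) (k + j) (by omega), Nat.add_assoc, Nat.add_assoc]

theorem av_of (hQ : S_QRES) {B : Set Str} {x y : Str} (h : Eqv x y) (hx : x ∈ Av Pos B) :
    y ∈ Av Pos B := (hQ B).1 x hx y h.symm.emb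

theorem code (hC : S_COD) (x : Str) (n : ℕ) (hn : x.n = n) :
    ∃ c < 2 ^ (n * n), Eqv (cod n c) x := by
  subst hn
  obtain ⟨c, hc, h⟩ := hC x
  exact ⟨c, hc, rfl, fun i hi j hj => h i hi j hj⟩

theorem win_congr {b : ℕ} {x x' y y' : Str} {i j : ℕ} (hx : Eqv x x') (hy : Eqv y y')
    (hi : i + b ≤ x.n) (hj : j + b ≤ y.n) (h : Win b x i y j) : Win b x' i y' j := by
  intro s hs t ht
  rw [← hx.2 (i + s) (by omega) (i + t) (by omega), ← hy.2 (j + s) (by omega) (j + t) (by omega)]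
  exact h s hs t ht

theorem part1 (B : Inp) (n c : ℕ) : avQ B n c ↔ cod n c ∈ Av Pos (bas B) := by
  unfold avQ
  show _ ↔ (Pos (cod n c) ∧ ∀ y ∈ bas B, ¬ Emb y (cod n c))
  constructor
  · rintro ⟨⟨h1, h2, h4⟩, h3⟩
    refine ⟨⟨fun i hi => decide_eq_true (h1 i hi), fun i hi j hj hij hb =>
      decide_eq_false (h2 i hi j hj hij (of_decide_eq_true hb)),
      fun i hi j hj k hk h h' => decide_eq_true
        (h4 i hi j hj k hk (of_decide_eq_true h) (of_decide_eq_true h'))⟩, ?_⟩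
    rintro y ⟨p, hp, rfl⟩ ⟨k, hk, he⟩
    have hk' : k + p.1 ≤ n := hk
    refine h3 p hp ⟨k, by omega, hk', fun i hi j hj => ?_⟩
    have := he i hi j hj
    exact decide_eq_decide.1 this
  · rintro ⟨⟨h1, h2, h4⟩, h3⟩
    refine ⟨⟨fun i hi => of_decide_eq_true (h1 i hi), fun i hi j hj hij hb =>
      of_decide_eq_false (h2 i hi j hj hij (decide_eq_true hb)),
      fun i hi j hj k hk h h' => of_decide_eq_true
        (h4 i hi j hj k hk (decide_eq_true h) (decide_eq_true h'))⟩, ?_⟩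
    rintro p hp ⟨k, _, hk, he⟩
    refine h3 (den p) ⟨p, hp, rfl⟩ ⟨k, hk, fun i hi j hj => ?_⟩
    exact decide_eq_decide.2 (he i hi j hj)

theorem part2 (hC : S_COD) (hQ : S_QRES) (B : Inp) (N m : ℕ) (hm : 1 ≤ m)
    (hN : 2 ^ (m * m) ≤ N) : freeC B N m ↔ FreeP (Av Pos (bas B)) m := by
  constructor
  · rintro ⟨c, _, hav, d, _, hav', h1, h2⟩
    refine ⟨cod m c, (part1 _ _ _).1 hav, cod m d, (part1 _ _ _).1 hav', rfl, rfl, ?_, ?_⟩
    · intro s hs t ht hne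
      exact h1 s hs t ht (fun hiff => hne (decide_eq_decide.2 hiff))
    · rcases h2 with h | h
      · exact Or.inl (fun he => h (decide_eq_decide.1 he))
      · exact Or.inr (fun he => h (decide_eq_decide.1 he))
  · rintro ⟨u, hu, u', hu', hn, hn', h1, h2⟩
    obtain ⟨c, hc, hce⟩ := code hC u m hn
    obtain ⟨d, hd, hde⟩ := code hC u' m hn'
    refine ⟨c, lt_of_lt_of_le hc hN, (part1 _ _ _).2 (av_of hQ hce.symm hu), d,
      lt_of_lt_of_le hd hN, (part1 _ _ _).2 (av_of hQ hde.symm hu'), ?_, ?_⟩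
    · intro s hs t ht hne
      apply h1 s hs t ht
      intro he
      apply hne
      have e1 := hce.2 s hs t ht
      have e2 := hde.2 s hs t ht
      exact decide_eq_decide.1 (e1.trans (he.trans e2.symm))
    · have key : ∀ s t, s < m → t < m → (bit m c s t ↔ bit m d s t) → u.R s t = u'.R s t := by
        intro s t hs ht hiff
        have e1 := hce.2 s hs t ht
        have e2 := hde.2 s hs t ht
        exact e1.symm.trans ((decide_eq_decide.2 hiff).trans e2)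
      rcases h2 with h | h
      · exact Or.inl (fun hiff => h (key 0 (m - 1) (by omega) (by omega) hiff))
      · exact Or.inr (fun hiff => h (key (m - 1) 0 (by omega) (by omega) hiff))

theorem part3 (hC : S_COD) (hR : S_COR) (hQ : S_QRES) (B : Inp) (N D n : ℕ)
    (hN : 2 ^ (n * n) ≤ N) : mkC B N D n ↔ MK (Av Pos (bas B)) D n := by
  constructor
  · rintro ⟨c, _, hav, hD, h⟩
    refine ⟨cod n c, (part1 _ _ _).1 hav, rfl, hD, ?_⟩
    intro k hk1 hk2
    obtain ⟨g1, g2⟩ := h k (by omega) hk1 hk2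
    exact ⟨fun hw => g1 ((hR.2.2 _ _ _ _ _ _ _).2 hw), fun hw => g2 ((hR.2.2 _ _ _ _ _ _ _).2 hw)⟩
  · rintro ⟨x, hx, hn, hD, h⟩
    obtain ⟨c, hc, hce⟩ := code hC x n hn
    refine ⟨c, lt_of_lt_of_le hc hN, (part1 _ _ _).2 (av_of hQ hce.symm hx), hD, ?_⟩
    intro k _ hk1 hk2
    obtain ⟨g1, g2⟩ := h k hk1 hk2
    refine ⟨fun hw => g1 ?_, fun hw => g2 ?_⟩
    · have hw' := (hR.2.2 _ _ _ _ _ _ _).1 hw
      exact win_congr hce hce (show k + (D + 1) ≤ n by omega) (show 0 + (D + 1) ≤ n by omega) hw'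
    · have hw' := (hR.2.2 _ _ _ _ _ _ _).1 hw
      exact win_congr hce hce (show k + (D + 1) ≤ n by omega)
        (show (n - D - 1) + (D + 1) ≤ n by omega) hw'

theorem powle {a b N : ℕ} (h : a ≤ b) (hN : 2 ^ (b * b) ≤ N) : 2 ^ (a * a) ≤ N :=
  (Nat.pow_le_pow_right (by norm_num) (Nat.mul_le_mul h h)).trans hN

theorem part4 (hC : S_COD) (hR : S_COR) (hQ : S_QRES) (B : Inp) (N b : ℕ)
    (hN : 2 ^ (S2 b * S2 b) ≤ N) : jsC B N b ↔ JS (Av Pos (bas B)) b := by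
  have hS : S1 b ≤ S2 b := by
    unfold S2
    omega
  constructor
  · intro h x hx y hy hxn hyn
    obtain ⟨c, hc, hce⟩ := code hC x x.n rfl
    obtain ⟨c', hc', hce'⟩ := code hC y y.n rfl
    obtain ⟨m, hm, d, _, hav, he1, he2⟩ := h x.n (by omega) c
      (lt_of_lt_of_le hc (powle (hxn.trans hS) hN)) ((part1 _ _ _).2 (av_of hQ hce.symm hx))
      y.n (by omega) c' (lt_of_lt_of_le hc' (powle (hyn.trans hS) hN))
      ((part1 _ _ _).2 (av_of hQ hce'.symm hy))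
    refine ⟨cod m d, (part1 _ _ _).1 hav, ?_, ?_, ?_⟩
    · show m ≤ S2 b
      omega
    · exact emb_trans hce.symm.emb ((hR.2.1 _ _ _ _).1 he1)
    · exact emb_trans hce'.symm.emb ((hR.2.1 _ _ _ _).1 he2)
  · intro h n hn c _ hav n' hn' c' _ hav'
    obtain ⟨z, hz, hzn, he1, he2⟩ := h (cod n c) ((part1 _ _ _).1 hav) (cod n' c')
      ((part1 _ _ _).1 hav') (show n ≤ S1 b by omega) (show n' ≤ S1 b by omega)
    obtain ⟨d, hd, hde⟩ := code hC z z.n rfl
    refine ⟨z.n, by omega, d, lt_of_lt_of_le hd (powle hzn hN),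
      (part1 _ _ _).2 (av_of hQ hde.symm hz), ?_, ?_⟩
    · exact (hR.2.1 _ _ _ _).2 (emb_trans he1 hde.symm.emb)
    · exact (hR.2.1 _ _ _ _).2 (emb_trans he2 hde.symm.emb)

theorem part5 (hC : S_COD) (hR : S_COR) (hQ : S_QRES) (B : Inp) (N b : ℕ)
    (hN : 2 ^ (S2 b * S2 b) ≤ N) : cnC B N b ↔ CN (Av Pos (bas B)) b := by
  have hS : b ≤ S2 b := by
    unfold S2 S1
    omega
  have hM : M b ≤ S2 b := by
    unfold S2
    omega
  constructor
  · intro h u hu v hv hun hvn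
    obtain ⟨c, hc, hce⟩ := code hC u b hun
    obtain ⟨c', hc', hce'⟩ := code hC v b hvn
    obtain ⟨m, hm, d, _, hav, hbm, hw1, hw2⟩ := h c (lt_of_lt_of_le hc (powle hS hN))
      ((part1 _ _ _).2 (av_of hQ hce.symm hu)) c' (lt_of_lt_of_le hc' (powle hS hN))
      ((part1 _ _ _).2 (av_of hQ hce'.symm hv))
    have hid : Eqv (cod m d) (cod m d) := ⟨rfl, fun _ _ _ _ => rfl⟩
    refine ⟨cod m d, (part1 _ _ _).1 hav, ?_, hbm, ?_, ?_⟩
    · show m ≤ M b
      omega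
    · exact win_congr hid hce (show 0 + b ≤ m by omega) (show 0 + b ≤ b by omega)
        ((hR.2.2 _ _ _ _ _ _ _).1 hw1)
    · exact win_congr hid hce' (show m - b + b ≤ m by omega) (show 0 + b ≤ b by omega)
        ((hR.2.2 _ _ _ _ _ _ _).1 hw2)
  · intro h c _ hav c' _ hav'
    obtain ⟨z, hz, hzn, hbz, hw1, hw2⟩ := h (cod b c) ((part1 _ _ _).1 hav) (cod b c')
      ((part1 _ _ _).1 hav') rfl rfl
    obtain ⟨d, hd, hde⟩ := code hC z z.n rfl
    have hid : ∀ e, Eqv (cod b e) (cod b e) := fun e => ⟨rfl, fun _ _ _ _ => rfl⟩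
    refine ⟨z.n, by omega, d, lt_of_lt_of_le hd (powle (hzn.trans hM) hN),
      (part1 _ _ _).2 (av_of hQ hde.symm hz), hbz, ?_, ?_⟩
    · exact (hR.2.2 _ _ _ _ _ _ _).2 (win_congr hde.symm (hid c) (show 0 + b ≤ z.n by omega)
        (show 0 + b ≤ b by omega) hw1)
    · exact (hR.2.2 _ _ _ _ _ _ _).2 (win_congr hde.symm (hid c')
        (show z.n - b + b ≤ z.n by omega) (show 0 + b ≤ b by omega) hw2)

end QCORaux

open QCORaux

theorem QCOR (hC : S_COD) (hR : S_COR) (hQ : S_QRES) : S_QCORx :=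
  ⟨part1, fun B N m hm hN => part2 hC hQ B N m hm hN,
    fun B N D n hN => part3 hC hR hQ B N D n hN,
    fun B N b _ hN => part4 hC hR hQ B N b hN, fun B N b _ hN => part5 hC hR hQ B N b hN⟩

end Pool.Agent.R474.CE
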