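import Pool.Agent.R474.CE.StmQ

set_option autoImplicit false

namespace Pool.Agent.R474.CE

theorem QDET.win_mem {B : Set Str} {x : Str} (hx : x ∈ Av Pos B) {k m : ℕ} (h : k + m ≤ x.n) :
    win x k m ∈ Av Pos B := by
  obtain ⟨⟨h1, h2, h3⟩, h4⟩ := hx
  refine ⟨⟨?_, ?_, ?_⟩, ?_⟩
  · intro i hi
    have hi' : i < m := hi
    exact h1 (k + i) (by omega)
  · intro i hi j hj hij h5
    have hi' : i < m := hi
    have hj' : j < m := hj
    exact h2 (k + i) (by omega) (k + j) (by omega) (by omega) h5
  · intro i hi j hj l hl h5 h6
    have hi' : i < m := hi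
    have hj' : j < m := hj
    have hl' : l < m := hl
    exact h3 (k + i) (by omega) (k + j) (by omega) (k + l) (by omega) h5 h6
  · rintro y hy ⟨k', hk', he⟩
    have hk'' : k' + y.n ≤ m := hk'
    refine h4 y hy ⟨k + k', by omega, fun i hi j hj => ?_⟩
    have h5 : y.R i j = x.R (k + (k' + i)) (k + (k' + j)) := he i hi j hj
    rw [h5, add_assoc, add_assoc]

theorem QDET.aux (B : Set Str) (D : ℕ) (hF : ∀ m, D < m → ¬ FreeP (Av Pos B) m)
    (x : Str) (hx : x ∈ Av Pos B) (x' : Str) (hx' : x' ∈ Av Pos B) (hn : x.n = x'.n)
    (hD : D ≤ x.n) (hW : ∀ k, k + D ≤ x.n → Win D x k x' k) :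
    ∀ d s : ℕ, s + d < x.n → x.R s (s + d) = x'.R s (s + d) ∧ x.R (s + d) s = x'.R (s + d) s := by
  intro d
  induction d using Nat.strong_induction_on with
  | _ d ih =>
    intro s hs
    by_cases hd : d < D
    · obtain ⟨k, hk1, hk2, hk3⟩ : ∃ k, k + D ≤ x.n ∧ k ≤ s ∧ s + d < k + D := by
        by_cases h : s + D ≤ x.n
        · exact ⟨s, h, le_rfl, by omega⟩
        · exact ⟨x.n - D, by omega, by omega, by omega⟩
      have h1 := hW k hk1 (s - k) (by omega) (s + d - k) (by omega)
      have h2 := hW k hk1 (s + d - k) (by omega) (s - k) (by omega)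
      have e1 : k + (s - k) = s := by omega
      have e2 : k + (s + d - k) = s + d := by omega
      rw [e1, e2] at h1 h2
      exact ⟨h1, h2⟩
    · by_contra hne
      apply hF (d + 1) (by omega)
      have agree : ∀ i j : ℕ, i < d + 1 → j < d + 1 → x.R (s + i) (s + j) ≠ x'.R (s + i) (s + j) →
          (i = 0 ∧ j = d) ∨ (i = d ∧ j = 0) := by
        intro i j hi hj hij
        by_contra h
        apply hij
        rcases le_total i j with hle | hle
        · have h1 := (ih (j - i) (by omega) (s + i) (by omega)).1
          have e1 : s + i + (j - i) = s + j := by omega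
          rw [e1] at h1
          exact h1
        · have h1 := (ih (i - j) (by omega) (s + j) (by omega)).2
          have e1 : s + j + (i - j) = s + i := by omega
          rw [e1] at h1
          exact h1
      refine ⟨win x s (d + 1), QDET.win_mem hx (by omega), win x' s (d + 1),
        QDET.win_mem hx' (by omega), rfl, rfl, ?_, ?_⟩
      · intro i hi j hj hij
        have h1 := agree i j hi hj hij
        simpa using h1
      · have h1 : ¬ (x.R s (s + d) = x'.R s (s + d)) ∨ ¬ (x.R (s + d) s = x'.R (s + d) s) := by
          by_contra h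
          apply hne
          constructor
          · by_contra h2
            exact h (Or.inl h2)
          · by_contra h2
            exact h (Or.inr h2)
        simpa [win] using h1

theorem QDET : S_QDET := by
  intro B b D hS hb hF x hx x' hx' hn hD hW s hs t ht
  rw [Nat.zero_add, Nat.zero_add]
  rcases le_total s t with h | h
  · have h1 := (QDET.aux B D hF x hx x' hx' hn hD hW (t - s) s (by omega)).1
    have e : s + (t - s) = t := by omega
    rw [e] at h1
    exact h1
  · have h1 := (QDET.aux B D hF x hx x' hx' hn hD hW (s - t) t (by omega)).2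
    have e : t + (s - t) = s := by omega
    rw [e] at h1
    exact h1

end Pool.Agent.R474.CE
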