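import Pool.Agent.R474.CE.StmQ

/-!
# Joint embedding of small structures in structures of bounded size
-/

set_option autoImplicit false

namespace Pool.Agent.R474.CE.QJS

open Pool.Agent.R474.CE

lemma emb_trans {x y z : Str} (h1 : Emb x y) (h2 : Emb y z) : Emb x z := by
  obtain ⟨k1, hk1, e1⟩ := h1
  obtain ⟨k2, hk2, e2⟩ := h2
  refine ⟨k2 + k1, by omega, fun i hi j hj => ?_⟩
  rw [e1 i hi j hj, e2 (k1 + i) (by omega) (k1 + j) (by omega)]
  simp only [Nat.add_assoc]

/-- the enlarged window -/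
lemma enlarge {x z : Str} (b : ℕ) (hb : b ≤ z.n) (h : Emb x z) :
    ∃ p m, m = max x.n b ∧ p + m ≤ z.n ∧ Emb x (win z p m) := by
  obtain ⟨p, hp, e⟩ := h
  have hm : max x.n b ≤ z.n := max_le (by omega) hb
  rcases le_total p (z.n - max x.n b) with h1 | h1
  · refine ⟨p, max x.n b, rfl, by omega, 0, ?_, fun i hi j hj => ?_⟩
    · have : x.n ≤ max x.n b := le_max_left _ _
      show 0 + x.n ≤ max x.n b
      omega
    · show x.R i j = z.R (p + (0 + i)) (p + (0 + j))
      rw [e i hi j hj, Nat.zero_add, Nat.zero_add]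
  · refine ⟨z.n - max x.n b, max x.n b, rfl, by omega, p - (z.n - max x.n b), ?_,
      fun i hi j hj => ?_⟩
    · show p - (z.n - max x.n b) + x.n ≤ max x.n b
      omega
    · show x.R i j = z.R (z.n - max x.n b + (p - (z.n - max x.n b) + i))
        (z.n - max x.n b + (p - (z.n - max x.n b) + j))
      rw [e i hi j hj]
      congr 1 <;> omega

lemma core (hR : S_QRES) (hG : S_QGLUE) (hC : S_QCUT) (B : Set Str) (b : ℕ) (hS : Std B b)
    (z : Str) (hz : z ∈ Av Pos B) (S p m q l : ℕ) (hbm : b ≤ m) (hbl : b ≤ l) (hm : m ≤ S)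
    (hl : l ≤ S) (hpq : p ≤ q) (hp : p + m ≤ z.n) (hq : q + l ≤ z.n) :
    ∃ w ∈ Av Pos B, w.n ≤ 2 * S + M b ∧ Emb (win z p m) w ∧ Emb (win z q l) w := by
  by_cases hc : q ≤ p + m
  · refine ⟨win z p (max m (q + l - p)), (hR B).2 z hz p _ ?_, ?_, ⟨0, ?_, ?_⟩,
      ⟨q - p, ?_, ?_⟩⟩
    · omega
    · show max m (q + l - p) ≤ 2 * S + M b
      omega
    · show 0 + m ≤ max m (q + l - p)
      omega
    · intro i hi j hj
      show z.R (p + i) (p + j) = z.R (p + (0 + i)) (p + (0 + j))
      rw [Nat.zero_add, Nat.zero_add]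
    · show q - p + l ≤ max m (q + l - p)
      omega
    · intro i hi j hj
      show z.R (q + i) (q + j) = z.R (p + (q - p + i)) (p + (q - p + j))
      congr 1 <;> omega
  · have hc' : p + m < q := not_le.1 hc
    obtain ⟨L, hL⟩ : ∃ L, L = q - p - m + 2 * b := ⟨_, rfl⟩
    have hz0 : win z (p + m - b) L ∈ Av Pos B := (hR B).2 z hz _ _ (by omega)
    have hpath : Path b (win z (p + m - b) b) (win z q b) (win z (p + m - b) L) := by
      refine ⟨?_, ?_, ?_⟩
      · show b ≤ L
        omega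
      · intro s hs t ht
        rfl
      · intro s hs t ht
        show z.R (p + m - b + (L - b + s)) (p + m - b + (L - b + t)) =
          z.R (q + (0 + s)) (q + (0 + t))
        congr 1 <;> omega
    obtain ⟨z', hz', hn', hb', hw1, hw2⟩ := hC B b hS _ _ _ hz0 hpath
    obtain ⟨g1, hg1, hn1, ha1, ha2, -⟩ := hG B b hS b le_rfl (win z p m)
      ((hR B).2 z hz p m hp) z' hz' hbm hb' (by
        intro s hs t ht
        rw [hw1 s hs t ht]
        show z.R (p + (m - b + s)) (p + (m - b + t)) =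
          z.R (p + m - b + (0 + s)) (p + m - b + (0 + t))
        congr 1 <;> omega)
    change g1.n + b = m + z'.n at hn1
    change Win m g1 0 (win z p m) 0 at ha1
    change Win z'.n g1 (m - b) z' 0 at ha2
    obtain ⟨g2, hg2, hn2, hc1, hc2, -⟩ := hG B b hS b le_rfl g1 hg1 (win z q l)
      ((hR B).2 z hz q l hq) (by omega) hbl (by
        intro s hs t ht
        have h1 := ha2 (z'.n - b + s) (by omega) (z'.n - b + t) (by omega)
        have h2 := hw2 s hs t ht
        have e1 : g1.n - b + s = m - b + (z'.n - b + s) := by omega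
        have e2 : g1.n - b + t = m - b + (z'.n - b + t) := by omega
        rw [e1, e2, h1, Nat.zero_add, Nat.zero_add, h2]
        rfl)
    change g2.n + b = g1.n + l at hn2
    change Win l g2 (g1.n - b) (win z q l) 0 at hc2
    refine ⟨g2, hg2, by omega, ⟨0, ?_, ?_⟩, ⟨g1.n - b, ?_, ?_⟩⟩
    · show 0 + m ≤ g2.n
      omega
    · intro i hi j hj
      change i < m at hi
      change j < m at hj
      rw [hc1 i (by omega) j (by omega), ha1 i hi j hj, Nat.zero_add, Nat.zero_add]
    · show g1.n - b + l ≤ g2.n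
      omega
    · intro i hi j hj
      change i < l at hi
      change j < l at hj
      rw [hc2 i hi j hj, Nat.zero_add, Nat.zero_add]

end Pool.Agent.R474.CE.QJS

namespace Pool.Agent.R474.CE

/-- Small structures embed jointly in structures of bounded size. -/
theorem QJS (hR : S_QRES) (hG : S_QGLUE) (hC : S_QCUT) : S_QJS := by
  intro B b hS hJ x hx y hy hxn hyn
  obtain ⟨z, hz, hxz, hyz⟩ := hJ x hx y hy
  by_cases hb : b ≤ z.n
  · obtain ⟨p, m, hm, hp, hxp⟩ := QJS.enlarge b hb hxz
    obtain ⟨q, l, hl, hq, hyq⟩ := QJS.enlarge b hb hyz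
    have hbS : b ≤ S1 b := by unfold S1; omega
    have hbm : b ≤ m := by rw [hm]; exact le_max_right _ _
    have hbl : b ≤ l := by rw [hl]; exact le_max_right _ _
    have hmS : m ≤ S1 b := by rw [hm]; exact max_le hxn hbS
    have hlS : l ≤ S1 b := by rw [hl]; exact max_le hyn hbS
    rcases le_total p q with hpq | hpq
    · obtain ⟨w, hw, hwn, h1, h2⟩ := QJS.core hR hG hC B b hS z hz (S1 b) p m q l hbm hbl hmS hlS
        hpq hp hq
      exact ⟨w, hw, hwn, QJS.emb_trans hxp h1, QJS.emb_trans hyq h2⟩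
    · obtain ⟨w, hw, hwn, h1, h2⟩ := QJS.core hR hG hC B b hS z hz (S1 b) q l p m hbl hbm hlS hmS
        hpq hq hp
      exact ⟨w, hw, hwn, QJS.emb_trans hxp h2, QJS.emb_trans hyq h1⟩
  · exact ⟨z, hz, by unfold S2 S1; omega, hxz, hyz⟩

end Pool.Agent.R474.CE
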