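import Pool.Agent.R474.CE.StmQ

set_option autoImplicit false

/-! Project CE (MP_7b05dd_co), piece QLEMA: a recurrent free pair gives an infinite antichain. -/

namespace Pool.Agent.R474.CE

namespace QLEMA

theorem ext (hG : S_QGLUE) {B : Set Str} {b : ℕ} (hstd : Std B b) {m : ℕ} (hm : b < m)
    {u y w : Str} (hy : y ∈ Av Pos B) (hym : m ≤ y.n) (h0 : Win m y 0 u 0) (hw : w ∈ Av Pos B)
    (hwm : m - 1 ≤ w.n) (hyw : Win (m - 1) y (y.n - (m - 1)) w 0) :
    ∃ y' ∈ Av Pos B, y'.n + (m - 1) = y.n + w.n ∧ Win m y' 0 u 0 ∧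
      (∀ t, t + m ≤ y.n → (Win m y' t u 0 ↔ Win m y t u 0)) ∧
      (∀ t, t + m ≤ w.n → (Win m y' (y.n - (m - 1) + t) u 0 ↔ Win m w t u 0)) ∧
      (∀ (v : Str) (j : ℕ), Win (m - 1) w (w.n - (m - 1)) v j →
        Win (m - 1) y' (y'.n - (m - 1)) v j) := by
  obtain ⟨y', hy', h1, h2, h3, -, -⟩ :=
    hG B b hstd (m - 1) (by omega) y hy w hw (by omega) hwm hyw
  have a2 : ∀ s t, s < y.n → t < y.n → y'.R s t = y.R s t := by
    intro s t hs ht
    have := h2 s hs t ht
    simpa only [Nat.zero_add] using this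
  have a3 : ∀ s t, s < w.n → t < w.n →
      y'.R (y.n - (m - 1) + s) (y.n - (m - 1) + t) = w.R s t := by
    intro s t hs ht
    have := h3 s hs t ht
    simpa only [Nat.zero_add] using this
  refine ⟨y', hy', h1, ?_, ?_, ?_, ?_⟩
  · intro s hs t ht
    have := h0 s hs t ht
    rw [Nat.zero_add, Nat.zero_add] at this ⊢
    rw [a2 s t (by omega) (by omega)]
    exact this
  · intro t ht
    constructor
    · intro h s hs s' hs'
      rw [← a2 (t + s) (t + s') (by omega) (by omega)]
      exact h s hs s' hs'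
    · intro h s hs s' hs'
      rw [a2 (t + s) (t + s') (by omega) (by omega)]
      exact h s hs s' hs'
  · intro t ht
    constructor
    · intro h s hs s' hs'
      rw [← a3 (t + s) (t + s') (by omega) (by omega), ← Nat.add_assoc, ← Nat.add_assoc]
      exact h s hs s' hs'
    · intro h s hs s' hs'
      rw [Nat.add_assoc, Nat.add_assoc, a3 (t + s) (t + s') (by omega) (by omega)]
      exact h s hs s' hs'
  · intro v j h s hs s' hs'
    have e : y'.n - (m - 1) = y.n - (m - 1) + (w.n - (m - 1)) := by omega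
    rw [e, Nat.add_assoc, Nat.add_assoc, a3 _ _ (by omega) (by omega)]
    exact h s hs s' hs'

end QLEMA

open QLEMA in
theorem QLEMA (hR : S_QRES) (hG : S_QGLUE) : S_QLEMA := by
  classical
  intro B b hstd m hbm u hu u' hu' hFP z hz hP hW
  obtain ⟨hun, hun', hd1, hd2⟩ := hFP
  obtain ⟨hzn, hz1, hz2⟩ := hP
  have hb1 : 1 ≤ b := hstd.1
  have hag : ∀ s t, s < m → t < m → ¬ (s = 0 ∧ t = m - 1) → ¬ (s = m - 1 ∧ t = 0) →
      u.R s t = u'.R s t := by
    intro s t hs ht h1 h2
    by_contra hc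
    rcases hd1 s hs t ht hc with h | h
    · exact h1 h
    · exact h2 h
  have huu' : ¬ Win m u' 0 u 0 := by
    intro h
    rcases hd2 with h3 | h3
    · apply h3
      have := h 0 (by omega) (m - 1) (by omega)
      simpa only [Nat.zero_add] using this.symm
    · apply h3
      have := h (m - 1) (by omega) 0 (by omega)
      simpa only [Nat.zero_add] using this.symm
  have hQ : win u 1 (m - 1) ∈ Av Pos B := (hR B).2 u hu 1 (m - 1) (by omega)
  have hPp : win u 0 (m - 1) ∈ Av Pos B := (hR B).2 u hu 0 (m - 1) (by omega)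
  -- step 1: existence of `r`
  have hex : ∃ n, ∃ r : Str, r.n = n ∧ r ∈ Av Pos B ∧ m - 1 ≤ r.n ∧ Win (m - 1) r 0 u 1 ∧
      Win (m - 1) r (r.n - (m - 1)) u 0 := by
    obtain ⟨y1, hy1, e1, f1, g1, -, -⟩ := hG B b hstd b le_rfl (win u 1 (m - 1)) hQ z hz
      (show b ≤ m - 1 by omega) hzn (by
        intro s hs t ht
        have h := hz1 s hs t ht
        show u.R (1 + (m - 1 - b + s)) (1 + (m - 1 - b + t)) = z.R (0 + s) (0 + t)
        rw [h]
        show _ = u.R (m - b + (0 + s)) (m - b + (0 + t))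
        rw [show 1 + (m - 1 - b + s) = m - b + (0 + s) by omega,
          show 1 + (m - 1 - b + t) = m - b + (0 + t) by omega])
    have e1' : y1.n + b = m - 1 + z.n := e1
    have f1' : ∀ s < m - 1, ∀ t < m - 1, y1.R s t = u.R (1 + s) (1 + t) := by
      intro s hs t ht
      have h : y1.R (0 + s) (0 + t) = u.R (1 + (0 + s)) (1 + (0 + t)) := f1 s hs t ht
      simpa only [Nat.zero_add] using h
    have g1' : ∀ s < z.n, ∀ t < z.n, y1.R (m - 1 - b + s) (m - 1 - b + t) = z.R s t := by
      intro s hs t ht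
      have h : y1.R (m - 1 - b + s) (m - 1 - b + t) = z.R (0 + s) (0 + t) := g1 s hs t ht
      simpa only [Nat.zero_add] using h
    obtain ⟨r0, hr0, e2, f2, g2, -, -⟩ := hG B b hstd b le_rfl y1 hy1 (win u 0 (m - 1)) hPp
      (by omega) (show b ≤ m - 1 by omega) (by
        intro s hs t ht
        have h : z.R (z.n - b + s) (z.n - b + t) = u.R (0 + (0 + s)) (0 + (0 + t)) :=
          hz2 s hs t ht
        show y1.R (y1.n - b + s) (y1.n - b + t) = u.R (0 + (0 + s)) (0 + (0 + t))
        rw [← h, ← g1' (z.n - b + s) (by omega) (z.n - b + t) (by omega),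
          show y1.n - b + s = m - 1 - b + (z.n - b + s) by omega,
          show y1.n - b + t = m - 1 - b + (z.n - b + t) by omega])
    have e2' : r0.n + b = y1.n + (m - 1) := e2
    refine ⟨_, r0, rfl, hr0, by omega, ?_, ?_⟩
    · intro s hs t ht
      have h : r0.R (0 + s) (0 + t) = y1.R (0 + s) (0 + t) := f2 s (by omega) t (by omega)
      rw [h, Nat.zero_add, Nat.zero_add]
      exact f1' s hs t ht
    · intro s hs t ht
      have h : r0.R (y1.n - b + s) (y1.n - b + t) = u.R (0 + (0 + s)) (0 + (0 + t)) :=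
        g2 s hs t ht
      rw [show r0.n - (m - 1) = y1.n - b by omega, h]
      simp only [Nat.zero_add]
  obtain ⟨r, hrn, hrC, hrm, hr0, hr1⟩ := Nat.find_spec hex
  have hmin : ∀ r' : Str, r' ∈ Av Pos B → m - 1 ≤ r'.n → Win (m - 1) r' 0 u 1 →
      Win (m - 1) r' (r'.n - (m - 1)) u 0 → r.n ≤ r'.n := by
    intro r' h1 h2 h3 h4
    rw [hrn]
    exact Nat.find_min' hex ⟨r', rfl, h1, h2, h3, h4⟩
  -- step 2: `u` does not occur in `r`
  have hrno : ∀ t, t + m ≤ r.n → ¬ Win m r t u 0 := by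
    intro t ht hwin
    have h := hmin (win r (t + 1) (r.n - (t + 1))) ((hR B).2 r hrC _ _ (by omega))
      (show m - 1 ≤ r.n - (t + 1) by omega) (by
        intro s hs s' hs'
        have h := hwin (1 + s) (by omega) (1 + s') (by omega)
        show r.R (t + 1 + (0 + s)) (t + 1 + (0 + s')) = u.R (1 + s) (1 + s')
        rw [show t + 1 + (0 + s) = t + (1 + s) by omega,
          show t + 1 + (0 + s') = t + (1 + s') by omega, h, Nat.zero_add, Nat.zero_add]) (by
        intro s hs s' hs'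
        have h := hr1 s hs s' hs'
        show r.R (t + 1 + (r.n - (t + 1) - (m - 1) + s)) (t + 1 + (r.n - (t + 1) - (m - 1) + s')) =
          u.R (0 + s) (0 + s')
        rw [show t + 1 + (r.n - (t + 1) - (m - 1) + s) = r.n - (m - 1) + s by omega,
          show t + 1 + (r.n - (t + 1) - (m - 1) + s') = r.n - (m - 1) + s' by omega]
        exact h)
    have h' : r.n ≤ r.n - (t + 1) := h
    omega
  -- step 3: from a prefix ending with `Q` to one ending with `P`
  have hmid : ∀ y ∈ Av Pos B, m ≤ y.n → Win m y 0 u 0 → Win (m - 1) y (y.n - (m - 1)) u 1 →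
      (∀ t, 1 ≤ t → t + m ≤ y.n → ¬ Win m y t u 0) →
      ∃ y' ∈ Av Pos B, y.n ≤ y'.n ∧ Win m y' 0 u 0 ∧ Win (m - 1) y' (y'.n - (m - 1)) u 0 ∧
        ∀ t, 1 ≤ t → t + m ≤ y'.n → ¬ Win m y' t u 0 := by
    intro y hy hym h0 h1 h2
    obtain ⟨y', hy', en, g0, g1, g2, g3⟩ := ext hG hstd hbm hy hym h0 hrC hrm (by
      intro s hs t ht
      rw [h1 s hs t ht, ← hr0 s hs t ht])
    refine ⟨y', hy', by omega, g0, g3 u 0 hr1, ?_⟩
    intro t ht htm hw
    by_cases hc : t + m ≤ y.n
    · exact h2 t ht hc ((g1 t hc).1 hw)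
    · obtain ⟨t', rfl⟩ : ∃ t', t = y.n - (m - 1) + t' := ⟨t - (y.n - (m - 1)), by omega⟩
      exact hrno t' (by omega) ((g2 t' (by omega)).1 hw)
  -- prefixes ending with `Q` of every size
  have hpre : ∀ k : ℕ, ∃ y ∈ Av Pos B, m + k ≤ y.n ∧ Win m y 0 u 0 ∧
      Win (m - 1) y (y.n - (m - 1)) u 1 ∧ ∀ t, 1 ≤ t → t + m ≤ y.n → ¬ Win m y t u 0 := by
    intro k
    induction k with
    | zero =>
      refine ⟨u, hu, by omega, fun s _ t _ => rfl, ?_, fun t h1 h2 => by omega⟩
      intro s hs t ht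
      rw [show u.n - (m - 1) = 1 by omega]
    | succ k ih =>
      obtain ⟨y, hy, hyn, h0, h1, h2⟩ := ih
      obtain ⟨y1, hy1, hn1, k0, k1, k2⟩ := hmid y hy (by omega) h0 h1 h2
      obtain ⟨y2, hy2, en, g0, g1, g2, g3⟩ := ext hG hstd hbm hy1 (by omega) k0 hu'
        (by omega) (by
          intro s hs t ht
          rw [k1 s hs t ht, Nat.zero_add, Nat.zero_add]
          exact hag s t (by omega) (by omega) (by omega) (by omega))
      refine ⟨y2, hy2, by omega, g0, ?_, ?_⟩
      · apply g3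
        intro s hs t ht
        rw [show u'.n - (m - 1) = 1 by omega]
        exact (hag (1 + s) (1 + t) (by omega) (by omega) (by omega) (by omega)).symm
      · intro t ht htm hw
        by_cases hc : t + m ≤ y1.n
        · exact k2 t ht hc ((g1 t hc).1 hw)
        · obtain ⟨t', rfl⟩ : ∃ t', t = y1.n - (m - 1) + t' := ⟨t - (y1.n - (m - 1)), by omega⟩
          have ht' : t' = 0 := by omega
          subst ht'
          exact huu' ((g2 0 (by omega)).1 hw)
  -- the members of the antichain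
  have hX : ∀ N : ℕ, ∃ x ∈ Av Pos B, N ≤ x.n ∧ m < x.n ∧ Win m x 0 u 0 ∧ Win m x (x.n - m) u 0 ∧
      ∀ t, 1 ≤ t → t + m < x.n → ¬ Win m x t u 0 := by
    intro N
    obtain ⟨y, hy, hyn, h0, h1, h2⟩ := hpre N
    obtain ⟨y1, hy1, hn1, k0, k1, k2⟩ := hmid y hy (by omega) h0 h1 h2
    obtain ⟨x, hx, en, g0, g1, g2, g3⟩ := ext hG hstd hbm hy1 (by omega) k0 hu (by omega) k1
    refine ⟨x, hx, by omega, by omega, g0, ?_, ?_⟩
    · have h := (g2 0 (by omega)).2 (fun s _ t _ => rfl)
      rwa [show y1.n - (m - 1) + 0 = x.n - m by omega] at h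
    · intro t ht htm hw
      exact k2 t ht (by omega) ((g1 t (by omega)).1 hw)
  choose g hgC hgN hgm hg0 hg1 hg2 using hX
  -- a sequence with increasing sizes
  let f : ℕ → Str := fun k => Nat.rec (g 0) (fun _ x => g (x.n + 1)) k
  have hfs : ∀ k, f (k + 1) = g ((f k).n + 1) := fun k => rfl
  have hfg : ∀ k, ∃ N, f k = g N := by
    intro k
    cases k with
    | zero => exact ⟨0, rfl⟩
    | succ k => exact ⟨_, hfs k⟩
  have hmono : StrictMono (fun k => (f k).n) := by
    apply strictMono_nat_of_lt_succ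
    intro k
    show (f k).n < (f (k + 1)).n
    rw [hfs k]
    have := hgN ((f k).n + 1)
    omega
  refine hW ⟨f, ?_, ?_⟩
  · intro i
    obtain ⟨N, hN⟩ := hfg i
    rw [hN]
    exact hgC N
  · rintro i j hij ⟨p, hp, hE⟩
    have hne : (f i).n ≠ (f j).n := fun h => hij (hmono.injective h)
    obtain ⟨N, hN⟩ := hfg i
    obtain ⟨N', hN'⟩ := hfg j
    rw [hN] at hp hE hne
    rw [hN'] at hp hE hne
    have m1 := hgm N
    have w1 : Win m (g N') p u 0 := by
      intro s hs t ht
      rw [← hE s (by omega) t (by omega)]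
      have h := hg0 N s hs t ht
      simpa only [Nat.zero_add] using h
    have w2 : Win m (g N') (p + ((g N).n - m)) u 0 := by
      intro s hs t ht
      rw [Nat.add_assoc, Nat.add_assoc, ← hE _ (by omega) _ (by omega)]
      exact hg1 N s hs t ht
    rcases Nat.eq_zero_or_pos p with h | h
    · subst h
      exact hg2 N' (0 + ((g N).n - m)) (by omega) (by omega) w2
    · exact hg2 N' p h (by omega) w1

end Pool.Agent.R474.CE
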