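import Pool.Agent.R474.CE.StmQ

set_option autoImplicit false

namespace Pool.Agent.R474.CE

theorem QLOC : S_QLOC := by
  intro B b hS x hx hb hw
  refine ⟨hx, ?_⟩
  rintro y hy ⟨k0, hk0, hR⟩
  have hyb : y.n ≤ b := hS.2 y hy
  obtain ⟨z, hz, l, hl, hW⟩ := hw (min k0 (x.n - b)) (by omega)
  apply hz.2 y hy
  refine ⟨l + (k0 - min k0 (x.n - b)), by omega, ?_⟩
  intro i hi j hj
  rw [hR i hi j hj]
  have h1 := hW (k0 - min k0 (x.n - b) + i) (by omega) (k0 - min k0 (x.n - b) + j) (by omega)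
  have e1 : min k0 (x.n - b) + (k0 - min k0 (x.n - b) + i) = k0 + i := by omega
  have e2 : min k0 (x.n - b) + (k0 - min k0 (x.n - b) + j) = k0 + j := by omega
  rw [e1, e2] at h1
  rw [h1]
  congr 1 <;> omega

end Pool.Agent.R474.CE
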