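import Pool.Agent.R474.CE.StmQ

/-! CE-QMKN: marker structures of unbounded size give an infinite antichain (helper300). -/

set_option autoImplicit false

namespace Pool.Agent.R474.CE

namespace QMKN

/-- the window of size `m` at `i`, as an element of a finite type -/
def wcol (m : ℕ) (x : Str) (i : ℕ) : Fin m → Fin m → Bool := fun s t => x.R (i + s) (i + t)

theorem win_of_wcol {m : ℕ} {x y : Str} {i j : ℕ} (h : wcol m x i = wcol m y j) : Win m x i y j := by
  intro s hs t ht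
  exact congrFun (congrFun h ⟨s, hs⟩) ⟨t, ht⟩

theorem exists_seq (P : ℕ → Str → Prop) (h : ∀ n0, ∃ n, n0 ≤ n ∧ ∃ x, P n x) :
    ∃ (a : ℕ → ℕ) (x : ℕ → Str), StrictMono a ∧ ∀ k, P (a k) (x k) := by
  choose N hN X hX using h
  let a : ℕ → ℕ := fun k => Nat.rec (N 0) (fun _ r => N (r + 1)) k
  have ha0 : a 0 = N 0 := rfl
  have has : ∀ k, a (k + 1) = N (a k + 1) := fun _ => rfl
  let x : ℕ → Str := fun k => match k with
    | 0 => X 0
    | k + 1 => X (a k + 1)
  refine ⟨a, x, strictMono_nat_of_lt_succ fun k => ?_, fun k => ?_⟩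
  · rw [has]
    exact lt_of_lt_of_le (Nat.lt_succ_self _) (hN (a k + 1))
  · cases k with
    | zero => exact hX 0
    | succ k => exact hX (a k + 1)

end QMKN

open QMKN in
theorem QMKN : S_QMKN := by
  classical
  intro B b D _ _ h hW
  apply hW
  obtain ⟨a, x, ha, hx⟩ := exists_seq (fun n x => x ∈ Av Pos B ∧ x.n = n ∧ D + 2 ≤ n ∧
    ∀ k, 1 ≤ k → k + D + 1 < n → ¬ Win (D + 1) x k x 0 ∧ ¬ Win (D + 1) x k x (n - D - 1)) h
  let col : ℕ → (Fin (D + 1) → Fin (D + 1) → Bool) × (Fin (D + 1) → Fin (D + 1) → Bool) :=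
    fun k => (wcol (D + 1) (x k) 0, wcol (D + 1) (x k) (a k - D - 1))
  obtain ⟨c, hc⟩ := Finite.exists_infinite_fiber col
  let φ := Nat.orderEmbeddingOfSet (col ⁻¹' {c})
  have hφ : ∀ i, col (φ i) = c := by
    intro i
    have h1 : φ i ∈ Set.range φ := ⟨i, rfl⟩
    rw [Nat.orderEmbeddingOfSet_range] at h1
    exact h1
  refine ⟨fun i => x (φ i), fun i => (hx (φ i)).1, ?_⟩
  intro i j hij hE
  change Emb (x (φ i)) (x (φ j)) at hE
  obtain ⟨p, hp, hR⟩ := hE
  obtain ⟨-, hn, hD, -⟩ := hx (φ i)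
  obtain ⟨-, hn', hD', hM⟩ := hx (φ j)
  have hne : a (φ i) ≠ a (φ j) := fun he => hij (φ.injective (ha.injective he))
  have hp' : p + a (φ i) ≤ a (φ j) := by
    have := hp
    rwa [hn, hn'] at this
  have hcol : col (φ i) = col (φ j) := (hφ i).trans (hφ j).symm
  have hw1 : Win (D + 1) (x (φ i)) 0 (x (φ j)) 0 := win_of_wcol (congrArg Prod.fst hcol)
  have hw2 : Win (D + 1) (x (φ i)) (a (φ i) - D - 1) (x (φ j)) (a (φ j) - D - 1) :=
    win_of_wcol (congrArg Prod.snd hcol)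
  have hp0 : p = 0 := by
    by_contra hp0
    refine (hM p (Nat.one_le_iff_ne_zero.mpr hp0) (by omega)).1 ?_
    intro s hs t ht
    rw [← hw1 s hs t ht, Nat.zero_add, Nat.zero_add]
    exact (hR s (by omega) t (by omega)).symm
  subst hp0
  refine (hM (a (φ i) - D - 1) (by omega) (by omega)).2 ?_
  intro s hs t ht
  rw [← hw2 s hs t ht]
  have h1 := hR (a (φ i) - D - 1 + s) (by omega) (a (φ i) - D - 1 + t) (by omega)
  rw [Nat.zero_add, Nat.zero_add] at h1
  exact h1.symm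

end Pool.Agent.R474.CE
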