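import Pool.Agent.R474.CE.StmQ

set_option autoImplicit false

namespace Pool.Agent.R474.CE

namespace QMKPaux

theorem glue (hres : S_QRES) (hglue : S_QGLUE) {B : Set Str} {b D : ℕ} (hstd : Std B b)
    (hbD : b ≤ D) {x : Str} (hx : x ∈ Av Pos B) {n : ℕ} (hn : x.n = n)
    (hmk : ∀ k, 1 ≤ k → k + D + 1 < n → ¬ Win (D + 1) x k x 0 ∧ ¬ Win (D + 1) x k x (n - D - 1))
    {p q : ℕ} (hp : 1 ≤ p) (hq : 1 ≤ q) (hpn : p + D < n) (hqn : q + D + 1 ≤ n)
    (hw : Win D x p x q) : MK (Av Pos B) D (p + n - q) := by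
  have hA : win x 0 (p + D) ∈ Av Pos B := (hres B).2 x hx 0 (p + D) (by omega)
  have hZ : win x q (n - q) ∈ Av Pos B := (hres B).2 x hx q (n - q) (by omega)
  have hwin : Win D (win x 0 (p + D)) ((win x 0 (p + D)).n - D) (win x q (n - q)) 0 := by
    intro s hs t ht
    have h1 := hw s hs t ht
    change x.R (0 + (p + D - D + s)) (0 + (p + D - D + t)) = x.R (q + (0 + s)) (q + (0 + t))
    rw [Nat.add_sub_cancel, Nat.zero_add, Nat.zero_add, Nat.zero_add, Nat.zero_add]
    exact h1
  obtain ⟨y, hy, hyn, hy1, hy2, -, -⟩ := hglue B b hstd D hbD _ hA _ hZ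
    (show D ≤ p + D by omega) (show D ≤ n - q by omega) hwin
  have hyn' : y.n + D = p + D + (n - q) := hyn
  have eA : ∀ s < p + D, ∀ t < p + D, y.R s t = x.R s t := by
    intro s hs t ht
    have h1 := hy1 s hs t ht
    change y.R (0 + s) (0 + t) = x.R (0 + (0 + s)) (0 + (0 + t)) at h1
    simpa only [Nat.zero_add] using h1
  have eZ : ∀ s < n - q, ∀ t < n - q, y.R (p + s) (p + t) = x.R (q + s) (q + t) := by
    intro s hs t ht
    have h1 := hy2 s hs t ht
    change y.R (p + D - D + s) (p + D - D + t) = x.R (q + (0 + s)) (q + (0 + t)) at h1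
    rw [Nat.add_sub_cancel] at h1
    simpa only [Nat.zero_add] using h1
  have w0 : ∀ s < D + 1, ∀ t < D + 1, y.R (0 + s) (0 + t) = x.R (0 + s) (0 + t) := by
    intro s hs t ht
    rw [Nat.zero_add, Nat.zero_add]
    exact eA s (by omega) t (by omega)
  have wl : ∀ s < D + 1, ∀ t < D + 1,
      y.R (p + n - q - D - 1 + s) (p + n - q - D - 1 + t) =
        x.R (n - D - 1 + s) (n - D - 1 + t) := by
    intro s hs t ht
    have h1 := eZ (n - q - D - 1 + s) (by omega) (n - q - D - 1 + t) (by omega)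
    have e1 : p + (n - q - D - 1 + s) = p + n - q - D - 1 + s := by omega
    have e2 : p + (n - q - D - 1 + t) = p + n - q - D - 1 + t := by omega
    have e3 : q + (n - q - D - 1 + s) = n - D - 1 + s := by omega
    have e4 : q + (n - q - D - 1 + t) = n - D - 1 + t := by omega
    rw [e1, e2, e3, e4] at h1
    exact h1
  refine ⟨y, hy, by omega, by omega, ?_⟩
  intro k hk hkn
  obtain ⟨k', hk1, hk2, wk⟩ : ∃ k', 1 ≤ k' ∧ k' + D + 1 < n ∧
      ∀ s < D + 1, ∀ t < D + 1, y.R (k + s) (k + t) = x.R (k' + s) (k' + t) := by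
    rcases Nat.lt_or_ge k p with h | h
    · exact ⟨k, hk, by omega, fun s hs t ht => eA (k + s) (by omega) (k + t) (by omega)⟩
    · refine ⟨q + (k - p), by omega, by omega, fun s hs t ht => ?_⟩
      have h1 := eZ (k - p + s) (by omega) (k - p + t) (by omega)
      have e1 : p + (k - p + s) = k + s := by omega
      have e2 : p + (k - p + t) = k + t := by omega
      rw [e1, e2, ← Nat.add_assoc, ← Nat.add_assoc] at h1
      exact h1
  obtain ⟨m1, m2⟩ := hmk k' hk1 hk2
  constructor
  · intro hwk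
    apply m1
    intro s hs t ht
    rw [← wk s hs t ht, hwk s hs t ht, w0 s hs t ht]
  · intro hwk
    apply m2
    intro s hs t ht
    rw [← wk s hs t ht, hwk s hs t ht, wl s hs t ht]

end QMKPaux

open QMKPaux in
theorem QMKP (hper : S_PER) (hres : S_QRES) (hglue : S_QGLUE) : S_QMKP := by
  intro B b D hstd hbD n hn ⟨x, hx, hxn, hD2, hmk⟩
  obtain ⟨i', j', hij, hj, hw'⟩ := hper D (win x 1 (x.n - 1))
  have hw : Win D x (i' + 1) x (j' + 1) := by
    intro s hs t ht
    have h1 := hw' s hs t ht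
    change x.R (1 + (i' + s)) (1 + (i' + t)) = x.R (1 + (j' + s)) (1 + (j' + t)) at h1
    have e1 : 1 + (i' + s) = i' + 1 + s := by omega
    have e2 : 1 + (i' + t) = i' + 1 + t := by omega
    have e3 : 1 + (j' + s) = j' + 1 + s := by omega
    have e4 : 1 + (j' + t) = j' + 1 + t := by omega
    rw [e1, e2, e3, e4] at h1
    exact h1
  have hws : Win D x (j' + 1) x (i' + 1) := fun s hs t ht => (hw s hs t ht).symm
  have hTT : TT D = 2 ^ (D * D) + 2 * D + 4 := rfl
  rw [hTT] at hn
  refine ⟨⟨i' + 1 + n - (j' + 1), by omega, by omega, ?_⟩, j' + 1 + n - (i' + 1), by omega, ?_⟩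
  · exact glue hres hglue hstd hbD hx hxn hmk (by omega) (by omega) (by omega) (by omega) hw
  · exact glue hres hglue hstd hbD hx hxn hmk (by omega) (by omega) (by omega) (by omega) hws

end Pool.Agent.R474.CE
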