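import Pool.Agent.R474.CE.StmQ

/-!
# CE-QNF: no free pairs, if joint embedding holds but not all windows can be joined
-/

set_option autoImplicit false

namespace Pool.Agent.R474.CE

namespace QNF

/-- replace the part `[p, p + m)` of `z` by `x'`, which differs at most in the extreme pair -/
theorem glue3 (hR : S_QRES) (hG : S_QGLUE) (B : Set Str) (b : ℕ) (hs : Std B b) (m p : ℕ)
    (hbm : b < m) (z x' : Str) (hz : z ∈ Av Pos B) (hx' : x' ∈ Av Pos B) (hm : x'.n = m)
    (hp : p + m ≤ z.n)
    (hag : ∀ s < m, ∀ t < m, ¬ (s = 0 ∧ t = m - 1) → ¬ (s = m - 1 ∧ t = 0) →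
      x'.R s t = z.R (p + s) (p + t)) :
    ∃ z' ∈ Av Pos B, z'.n = z.n ∧ (∀ k, k + b ≤ z.n → Win b z' k z k) ∧
      ∀ s < m, ∀ t < m, z'.R (p + s) (p + t) = x'.R s t := by
  have hb1 : 1 ≤ b := hs.1
  have ha : win z 0 (p + b) ∈ Av Pos B := (hR B).2 z hz 0 (p + b) (by omega)
  have hc : win z (p + m - b) (z.n - (p + m - b)) ∈ Av Pos B :=
    (hR B).2 z hz (p + m - b) (z.n - (p + m - b)) (by omega)
  have ean : (win z 0 (p + b)).n = p + b := rfl
  have ecn : (win z (p + m - b) (z.n - (p + m - b))).n = z.n - (p + m - b) := rfl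
  have eaR : ∀ i j, (win z 0 (p + b)).R i j = z.R (0 + i) (0 + j) := fun _ _ => rfl
  have ecR : ∀ i j, (win z (p + m - b) (z.n - (p + m - b))).R i j
      = z.R (p + m - b + i) (p + m - b + j) := fun _ _ => rfl
  obtain ⟨y1, hy1, hn1, hw1, hw2, -, -⟩ := hG B b hs b le_rfl (win z 0 (p + b)) ha x' hx'
    (by omega) (by omega) (by
      intro s hs' t ht
      rw [eaR, ean]
      have h1 := hag s (by omega) t (by omega) (by omega) (by omega)
      rw [show 0 + s = s by omega, show 0 + t = t by omega, h1]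
      exact congrArg₂ z.R (by omega) (by omega))
  have hn1' : y1.n = p + m := by omega
  rw [ean] at hw1 hw2
  rw [hm] at hw2
  -- the values of `y1`
  have hy1a : ∀ i j, i < p + b → j < p + b → y1.R i j = z.R i j := by
    intro i j hi hj
    have h1 := hw1 i hi j hj
    rw [eaR] at h1
    simpa using h1
  have hy1x : ∀ i j, i < m → j < m → y1.R (p + i) (p + j) = x'.R i j := by
    intro i j hi hj
    have h1 := hw2 i hi j hj
    rw [show p + b - b + i = p + i by omega, show p + b - b + j = p + j by omega] at h1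
    simpa using h1
  obtain ⟨y2, hy2, hn2, hv1, hv2, -, -⟩ := hG B b hs b le_rfl y1 hy1
    (win z (p + m - b) (z.n - (p + m - b))) hc
    (by omega) (by omega) (by
      intro s hs' t ht
      rw [ecR, hn1']
      have h1 := hy1x (m - b + s) (m - b + t) (by omega) (by omega)
      have h2 := hag (m - b + s) (by omega) (m - b + t) (by omega) (by omega) (by omega)
      rw [h2] at h1
      calc y1.R (p + m - b + s) (p + m - b + t)
          = y1.R (p + (m - b + s)) (p + (m - b + t)) := congrArg₂ y1.R (by omega) (by omega)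
        _ = z.R (p + (m - b + s)) (p + (m - b + t)) := h1
        _ = _ := congrArg₂ z.R (by omega) (by omega))
  rw [hn1'] at hv1
  rw [ecn, hn1'] at hv2
  have hy2a : ∀ i j, i < p + m → j < p + m → y2.R i j = y1.R i j := by
    intro i j hi hj
    have h1 := hv1 i hi j hj
    simpa using h1
  have hy2c : ∀ i j, i < z.n - (p + m - b) → j < z.n - (p + m - b) →
      y2.R (p + m - b + i) (p + m - b + j) = z.R (p + m - b + i) (p + m - b + j) := by
    intro i j hi hj
    have h1 := hv2 i hi j hj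
    rw [ecR] at h1
    simpa using h1
  refine ⟨y2, hy2, by omega, ?_, ?_⟩
  · intro k hk s hs' t ht
    by_cases h1 : k ≤ p
    · rw [hy2a _ _ (by omega) (by omega), hy1a _ _ (by omega) (by omega)]
    · by_cases h2 : k + b ≤ p + m
      · rw [hy2a _ _ (by omega) (by omega)]
        have h3 := hy1x (k - p + s) (k - p + t) (by omega) (by omega)
        have h4 := hag (k - p + s) (by omega) (k - p + t) (by omega) (by omega) (by omega)
        rw [h4] at h3
        calc y1.R (k + s) (k + t)
            = y1.R (p + (k - p + s)) (p + (k - p + t)) := congrArg₂ y1.R (by omega) (by omega)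
          _ = z.R (p + (k - p + s)) (p + (k - p + t)) := h3
          _ = z.R (k + s) (k + t) := congrArg₂ z.R (by omega) (by omega)
      · have h3 := hy2c (k - (p + m - b) + s) (k - (p + m - b) + t) (by omega) (by omega)
        calc y2.R (k + s) (k + t)
            = y2.R (p + m - b + (k - (p + m - b) + s)) (p + m - b + (k - (p + m - b) + t)) :=
              congrArg₂ y2.R (by omega) (by omega)
          _ = z.R (p + m - b + (k - (p + m - b) + s)) (p + m - b + (k - (p + m - b) + t)) := h3
          _ = z.R (k + s) (k + t) := congrArg₂ z.R (by omega) (by omega)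
  · intro s hs' t ht
    rw [hy2a _ _ (by omega) (by omega), hy1x _ _ hs' ht]

/-- the part of `w` between two windows -/
theorem between (hR : S_QRES) (B : Set Str) (b : ℕ) (w u v : Str) (hw : w ∈ Av Pos B)
    (p q : ℕ) (hpq : p ≤ q) (hq : q + b ≤ w.n)
    (hu : ∀ i < b, ∀ j < b, u.R i j = w.R (p + i) (p + j))
    (hv : ∀ i < b, ∀ j < b, v.R i j = w.R (q + i) (q + j)) :
    ∃ z ∈ Av Pos B, Path b u v z ∧ (∀ i < b, ∀ j < b, z.R i j = u.R i j) ∧
      ∀ i < b, ∀ j < b, z.R (z.n - b + i) (z.n - b + j) = v.R i j := by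
  have hn : (win w p (q + b - p)).n = q + b - p := rfl
  have hRR : ∀ i j, (win w p (q + b - p)).R i j = w.R (p + i) (p + j) := fun _ _ => rfl
  have h1 : ∀ i < b, ∀ j < b, (win w p (q + b - p)).R i j = u.R i j := by
    intro i hi j hj
    rw [hRR, hu i hi j hj]
  have h2 : ∀ i < b, ∀ j < b, (win w p (q + b - p)).R ((win w p (q + b - p)).n - b + i)
      ((win w p (q + b - p)).n - b + j) = v.R i j := by
    intro i hi j hj
    rw [hRR, hv i hi j hj, hn]
    exact congrArg₂ w.R (by omega) (by omega)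
  refine ⟨win w p (q + b - p), (hR B).2 w hw p (q + b - p) (by omega), ⟨by omega, ?_, ?_⟩, h1, h2⟩
  · intro s hs t ht
    simpa using h1 s hs t ht
  · intro s hs t ht
    simpa using h2 s hs t ht

end QNF

open QNF in
/-- CE-QNF -/
theorem QNF (hR : S_QRES) (hG : S_QGLUE) (hC : S_QCUT) (hU : S_QUNI) : S_QNF := by
  intro B b hs hJ hCN m hbm hF
  obtain ⟨x, hx, x', hx', hxn, hxn', hdiff, hne⟩ := hF
  -- the windows `u`, `v`
  simp only [CN] at hCN
  push Not at hCN
  obtain ⟨u, hu, v, hv, hun, hvn, hno⟩ := hCN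
  have hnoP : ∀ z ∈ Av Pos B, ¬ Path b u v z := by
    intro z hz hP
    obtain ⟨z', hz', hn', hP'⟩ := hC B b hs u v z hz hP
    exact hno z' hz' hn' hP'
  obtain ⟨w, hw, ⟨p, hp, hpu⟩, ⟨q, hq, hqv⟩⟩ := hJ u hu v hv
  rw [hun] at hp hpu
  rw [hvn] at hq hqv
  have hlt : q < p := by
    by_contra hle
    obtain ⟨z, hz, hP, -, -⟩ := between hR B b w u v hw p q (by omega) hq hpu hqv
    exact hnoP z hz hP
  obtain ⟨z0, hz0, hP0, hz0v, hz0u⟩ := between hR B b w v u hw q p (by omega) hp hqv hpu
  have hTr0 : Tr (Av Pos B) b z0 := by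
    refine ⟨hz0, hP0.1, ?_⟩
    intro z hz hP
    refine hnoP z hz ⟨hP.1, ?_, ?_⟩
    · intro s hs' t ht
      have h1 := hP.2.1 s hs' t ht
      have h2 : (win z0 (z0.n - b) b).R (0 + s) (0 + t)
          = z0.R (z0.n - b + (0 + s)) (z0.n - b + (0 + t)) := rfl
      rw [h2] at h1
      rw [h1]
      simpa using hz0u s hs' t ht
    · intro s hs' t ht
      have h1 := hP.2.2 s hs' t ht
      have h2 : (win z0 0 b).R (0 + s) (0 + t) = z0.R (0 + (0 + s)) (0 + (0 + t)) := rfl
      rw [h2] at h1
      rw [h1]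
      simpa using hz0v s hs' t ht
  obtain ⟨z, hz, ⟨r, hr, hrx⟩, hEz⟩ := hJ x hx z0 hz0
  rw [hxn] at hr hrx
  have hTr : Tr (Av Pos B) b z := (hU B b hs z0 hTr0).2 z hz hEz
  obtain ⟨z', hz', hzn', hwin, hval⟩ := glue3 hR hG B b hs m r hbm z x' hz hx' hxn' hr (by
    intro s hs' t ht h1 h2
    rw [← hrx s hs' t ht]
    by_contra hcon
    rcases hdiff s hs' t ht (fun h => hcon h.symm) with h | h
    · exact h1 h
    · exact h2 h)
  obtain ⟨W, hW, ⟨s0, hs0, hs0R⟩, ⟨s1, hs1, hs1R⟩⟩ := hJ z hz z' hz'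
  rw [hzn'] at hs1 hs1R
  have heq : s0 = s1 := by
    refine (hU B b hs z hTr).1 W hW s0 s1 hs0 hs1 ?_ ?_
    · intro k hk s hs' t ht
      have h1 := hs0R (k + s) (by omega) (k + t) (by omega)
      rw [h1]
      exact congrArg₂ W.R (by omega) (by omega)
    · intro k hk s hs' t ht
      have h1 := hs1R (k + s) (by omega) (k + t) (by omega)
      have h2 := hwin k hk s hs' t ht
      rw [← h2, h1]
      exact congrArg₂ W.R (by omega) (by omega)
  subst heq
  have hall : ∀ s < m, ∀ t < m, x.R s t = x'.R s t := by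
    intro s hs' t ht
    rw [hrx s hs' t ht, ← hval s hs' t ht, hs0R (r + s) (by omega) (r + t) (by omega),
      hs1R (r + s) (by omega) (r + t) (by omega)]
  rcases hne with h | h
  · exact h (hall 0 (by omega) (m - 1) (by omega))
  · exact h (hall (m - 1) (by omega) 0 (by omega))

end Pool.Agent.R474.CE
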