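import Pool.Agent.R474.CE.StmQ

/-!
# CE-QPAV: membership of coded posets is primitive recursive
-/

set_option autoImplicit false

namespace Pool.Agent.R474.CE

namespace QPAV

open Primrec

theorem ex_lt {β : Type} [Primcodable β] {p : ℕ → β → Prop} {f : β → ℕ} (hp : PrimrecRel p)
    (hf : Primrec f) : PrimrecPred fun b => ∃ x < f b, p x b :=
  (hp.exists_mem_list.comp (list_range.comp hf) Primrec.id).of_eq (by simp)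

theorem all_lt {β : Type} [Primcodable β] {p : ℕ → β → Prop} {f : β → ℕ} (hp : PrimrecRel p)
    (hf : Primrec f) : PrimrecPred fun b => ∀ x < f b, p x b :=
  (hp.forall_mem_list.comp (list_range.comp hf) Primrec.id).of_eq (by simp)

theorem iff' {β : Type} [Primcodable β] {p q : β → Prop} (hp : PrimrecPred p)
    (hq : PrimrecPred q) : PrimrecPred fun b => (p b ↔ q b) :=
  ((hp.and hq).or (hp.not.and hq.not)).of_eq (by intro b; tauto)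

theorem imp' {β : Type} [Primcodable β] {p q : β → Prop} (hp : PrimrecPred p)
    (hq : PrimrecPred q) : PrimrecPred fun b => (p b → q b) :=
  (hp.not.or hq).of_eq (by intro b; tauto)

theorem bit' (hb : S_PBIT) {α : Type} [Primcodable α] {n c i j : α → ℕ} (hn : Primrec n)
    (hc : Primrec c) (hi : Primrec i) (hj : Primrec j) :
    PrimrecPred (fun a => bit (n a) (c a) (i a) (j a)) :=
  PrimrecPred.comp (f := fun a => (n a, c a, i a, j a)) hb (hn.pair (hc.pair (hi.pair hj)))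

/-- the order axioms; the arguments are `n, c` -/
theorem pos (hb : S_PBIT) : PrimrecPred (fun q : ℕ × ℕ => posC q.1 q.2) := by
  unfold posC
  -- reflexivity
  have a1 : PrimrecPred fun q : ℕ × ℕ => ∀ i < q.1, bit q.1 q.2 i i :=
    all_lt (β := ℕ × ℕ) (p := fun i q => bit q.1 q.2 i i) (f := fun q => q.1)
      (bit' hb (α := ℕ × ℕ × ℕ) (n := fun x => x.2.1) (c := fun x => x.2.2) (i := fun x => x.1)
        (j := fun x => x.1) (fst.comp snd) (snd.comp snd) fst fst) fst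
  -- antisymmetry
  have b1 : PrimrecPred fun x : ℕ × ℕ × ℕ × ℕ =>
      (x.2.1 ≠ x.1 → bit x.2.2.1 x.2.2.2 x.2.1 x.1 → ¬ bit x.2.2.1 x.2.2.2 x.1 x.2.1) := by
    have j : Primrec fun x : ℕ × ℕ × ℕ × ℕ => x.1 := fst
    have i : Primrec fun x : ℕ × ℕ × ℕ × ℕ => x.2.1 := fst.comp snd
    have n : Primrec fun x : ℕ × ℕ × ℕ × ℕ => x.2.2.1 := fst.comp (snd.comp snd)
    have c : Primrec fun x : ℕ × ℕ × ℕ × ℕ => x.2.2.2 := snd.comp (snd.comp snd)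
    exact imp' (PrimrecPred.not (Primrec.eq.comp i j))
      (imp' (bit' hb n c i j) (PrimrecPred.not (bit' hb n c j i)))
  have b2 : PrimrecPred fun x : ℕ × ℕ × ℕ => ∀ j < x.2.1,
      (x.1 ≠ j → bit x.2.1 x.2.2 x.1 j → ¬ bit x.2.1 x.2.2 j x.1) :=
    all_lt (β := ℕ × ℕ × ℕ) (p := fun j x =>
      (x.1 ≠ j → bit x.2.1 x.2.2 x.1 j → ¬ bit x.2.1 x.2.2 j x.1)) (f := fun x => x.2.1) b1
      (fst.comp snd)
  have b3 : PrimrecPred fun q : ℕ × ℕ => ∀ i < q.1, ∀ j < q.1,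
      (i ≠ j → bit q.1 q.2 i j → ¬ bit q.1 q.2 j i) :=
    all_lt (β := ℕ × ℕ) (p := fun i q => ∀ j < q.1,
      (i ≠ j → bit q.1 q.2 i j → ¬ bit q.1 q.2 j i)) (f := fun q => q.1) b2 fst
  -- transitivity
  have c1 : PrimrecPred fun x : ℕ × ℕ × ℕ × ℕ × ℕ =>
      (bit x.2.2.2.1 x.2.2.2.2 x.2.2.1 x.2.1 → bit x.2.2.2.1 x.2.2.2.2 x.2.1 x.1 →
        bit x.2.2.2.1 x.2.2.2.2 x.2.2.1 x.1) := by
    have k : Primrec fun x : ℕ × ℕ × ℕ × ℕ × ℕ => x.1 := fst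
    have j : Primrec fun x : ℕ × ℕ × ℕ × ℕ × ℕ => x.2.1 := fst.comp snd
    have i : Primrec fun x : ℕ × ℕ × ℕ × ℕ × ℕ => x.2.2.1 := fst.comp (snd.comp snd)
    have n : Primrec fun x : ℕ × ℕ × ℕ × ℕ × ℕ => x.2.2.2.1 :=
      fst.comp (snd.comp (snd.comp snd))
    have c : Primrec fun x : ℕ × ℕ × ℕ × ℕ × ℕ => x.2.2.2.2 :=
      snd.comp (snd.comp (snd.comp snd))
    exact imp' (bit' hb n c i j) (imp' (bit' hb n c j k) (bit' hb n c i k))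
  have c2 : PrimrecPred fun x : ℕ × ℕ × ℕ × ℕ => ∀ k < x.2.2.1,
      (bit x.2.2.1 x.2.2.2 x.2.1 x.1 → bit x.2.2.1 x.2.2.2 x.1 k →
        bit x.2.2.1 x.2.2.2 x.2.1 k) :=
    all_lt (β := ℕ × ℕ × ℕ × ℕ) (p := fun k x =>
      (bit x.2.2.1 x.2.2.2 x.2.1 x.1 → bit x.2.2.1 x.2.2.2 x.1 k →
        bit x.2.2.1 x.2.2.2 x.2.1 k)) (f := fun x => x.2.2.1) c1 (fst.comp (snd.comp snd))
  have c3 : PrimrecPred fun x : ℕ × ℕ × ℕ => ∀ j < x.2.1, ∀ k < x.2.1,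
      (bit x.2.1 x.2.2 x.1 j → bit x.2.1 x.2.2 j k → bit x.2.1 x.2.2 x.1 k) :=
    all_lt (β := ℕ × ℕ × ℕ) (p := fun j x => ∀ k < x.2.1,
      (bit x.2.1 x.2.2 x.1 j → bit x.2.1 x.2.2 j k → bit x.2.1 x.2.2 x.1 k))
      (f := fun x => x.2.1) c2 (fst.comp snd)
  have c4 : PrimrecPred fun q : ℕ × ℕ => ∀ i < q.1, ∀ j < q.1, ∀ k < q.1,
      (bit q.1 q.2 i j → bit q.1 q.2 j k → bit q.1 q.2 i k) :=
    all_lt (β := ℕ × ℕ) (p := fun i q => ∀ j < q.1, ∀ k < q.1,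
      (bit q.1 q.2 i j → bit q.1 q.2 j k → bit q.1 q.2 i k)) (f := fun q => q.1) c3 fst
  exact a1.and (b3.and c4)

/-- avoiding one structure -/
theorem one (hb : S_PBIT) : PrimrecPred (fun x : (ℕ × List (ℕ × ℕ)) × ℕ × ℕ =>
    ¬ ∃ k < x.2.1 + 1, k + x.1.1 ≤ x.2.1 ∧ ∀ i < x.1.1, ∀ j < x.1.1,
      ((i, j) ∈ x.1.2 ↔ bit x.2.1 x.2.2 (k + i) (k + j))) := by
  have h1 : PrimrecPred fun x : ℕ × ℕ × ℕ × (ℕ × List (ℕ × ℕ)) × ℕ × ℕ =>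
      ((x.2.1, x.1) ∈ x.2.2.2.1.2 ↔
        bit x.2.2.2.2.1 x.2.2.2.2.2 (x.2.2.1 + x.2.1) (x.2.2.1 + x.1)) := by
    have s3 : Primrec fun x : ℕ × ℕ × ℕ × (ℕ × List (ℕ × ℕ)) × ℕ × ℕ => x.2.2.2 :=
      snd.comp (snd.comp snd)
    have j : Primrec fun x : ℕ × ℕ × ℕ × (ℕ × List (ℕ × ℕ)) × ℕ × ℕ => x.1 := fst
    have i : Primrec fun x : ℕ × ℕ × ℕ × (ℕ × List (ℕ × ℕ)) × ℕ × ℕ => x.2.1 := fst.comp snd
    have k : Primrec fun x : ℕ × ℕ × ℕ × (ℕ × List (ℕ × ℕ)) × ℕ × ℕ => x.2.2.1 :=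
      fst.comp (snd.comp snd)
    have l : Primrec fun x : ℕ × ℕ × ℕ × (ℕ × List (ℕ × ℕ)) × ℕ × ℕ => x.2.2.2.1.2 :=
      snd.comp (fst.comp s3)
    have n : Primrec fun x : ℕ × ℕ × ℕ × (ℕ × List (ℕ × ℕ)) × ℕ × ℕ => x.2.2.2.2.1 :=
      fst.comp (snd.comp s3)
    have c : Primrec fun x : ℕ × ℕ × ℕ × (ℕ × List (ℕ × ℕ)) × ℕ × ℕ => x.2.2.2.2.2 :=
      snd.comp (snd.comp s3)
    have hm : PrimrecPred fun x : ℕ × ℕ × ℕ × (ℕ × List (ℕ × ℕ)) × ℕ × ℕ =>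
        (x.2.1, x.1) ∈ x.2.2.2.1.2 := by
      have he : PrimrecRel (fun a b : ℕ × ℕ => a = b) := Primrec.eq
      exact (he.exists_mem_list.comp l (i.pair j)).of_eq (by intro x; simp)
    exact iff' hm (bit' hb n c (nat_add.comp k i) (nat_add.comp k j))
  have h2 : PrimrecPred fun x : ℕ × ℕ × (ℕ × List (ℕ × ℕ)) × ℕ × ℕ => ∀ j < x.2.2.1.1,
      ((x.1, j) ∈ x.2.2.1.2 ↔ bit x.2.2.2.1 x.2.2.2.2 (x.2.1 + x.1) (x.2.1 + j)) :=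
    all_lt (β := ℕ × ℕ × (ℕ × List (ℕ × ℕ)) × ℕ × ℕ) (p := fun j x =>
      ((x.1, j) ∈ x.2.2.1.2 ↔ bit x.2.2.2.1 x.2.2.2.2 (x.2.1 + x.1) (x.2.1 + j)))
      (f := fun x => x.2.2.1.1) h1 (fst.comp (fst.comp (snd.comp snd)))
  have h3 : PrimrecPred fun x : ℕ × (ℕ × List (ℕ × ℕ)) × ℕ × ℕ => ∀ i < x.2.1.1, ∀ j < x.2.1.1,
      ((i, j) ∈ x.2.1.2 ↔ bit x.2.2.1 x.2.2.2 (x.1 + i) (x.1 + j)) :=
    all_lt (β := ℕ × (ℕ × List (ℕ × ℕ)) × ℕ × ℕ) (p := fun i x => ∀ j < x.2.1.1,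
      ((i, j) ∈ x.2.1.2 ↔ bit x.2.2.1 x.2.2.2 (x.1 + i) (x.1 + j)))
      (f := fun x => x.2.1.1) h2 (fst.comp (fst.comp snd))
  have h4 : PrimrecPred fun x : ℕ × (ℕ × List (ℕ × ℕ)) × ℕ × ℕ => x.1 + x.2.1.1 ≤ x.2.2.1 :=
    nat_le.comp (nat_add.comp fst (fst.comp (fst.comp snd))) (fst.comp (snd.comp snd))
  exact PrimrecPred.not (ex_lt (β := (ℕ × List (ℕ × ℕ)) × ℕ × ℕ) (f := fun q => q.2.1 + 1)
    (p := fun k q => k + q.1.1 ≤ q.2.1 ∧ ∀ i < q.1.1, ∀ j < q.1.1,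
      ((i, j) ∈ q.1.2 ↔ bit q.2.1 q.2.2 (k + i) (k + j))) (h4.and h3)
    (succ.comp (fst.comp snd)))

end QPAV

open Primrec QPAV in
/-- CE-QPAV -/
theorem QPAV (hb : S_PBIT) : S_QPAV := by
  unfold S_QPAV avQ
  have h1 : PrimrecPred fun q : Inp × ℕ × ℕ => posC q.2.1 q.2.2 :=
    PrimrecPred.comp (f := fun q : Inp × ℕ × ℕ => q.2) (pos hb) snd
  have hR : PrimrecRel (fun (p : ℕ × List (ℕ × ℕ)) (b : ℕ × ℕ) =>
      ¬ ∃ k < b.1 + 1, k + p.1 ≤ b.1 ∧ ∀ i < p.1, ∀ j < p.1,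
      ((i, j) ∈ p.2 ↔ bit b.1 b.2 (k + i) (k + j))) := one hb
  have h2 : PrimrecPred fun q : Inp × ℕ × ℕ => ∀ p ∈ q.1,
      ¬ ∃ k < q.2.1 + 1, k + p.1 ≤ q.2.1 ∧ ∀ i < p.1, ∀ j < p.1,
      ((i, j) ∈ p.2 ↔ bit q.2.1 q.2.2 (k + i) (k + j)) :=
    hR.forall_mem_list.comp fst snd
  exact h1.and h2

end Pool.Agent.R474.CE
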