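import Pool.Agent.R474.CE.StmQ

set_option autoImplicit false

/-! Project CE, piece QPCN: the coded connection criterion is primitive recursive. -/

namespace Pool.Agent.R474.CE

namespace QPCN

theorem fa {α : Type*} [Primcodable α] {f : α → ℕ} {P : α → ℕ → Prop} (hf : Primrec f)
    (hP : PrimrecPred fun z : α × ℕ => P z.1 z.2) : PrimrecPred (fun a => ∀ x < f a, P a x) := by
  have h1 : PrimrecRel (fun (x : ℕ) (a : α) => P a x) :=
    hP.comp (Primrec.pair Primrec.snd Primrec.fst)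
  exact (h1.forall_mem_list.comp (Primrec.list_range.comp hf) Primrec.id).of_eq (by simp)

theorem ex {α : Type*} [Primcodable α] {f : α → ℕ} {P : α → ℕ → Prop} (hf : Primrec f)
    (hP : PrimrecPred fun z : α × ℕ => P z.1 z.2) : PrimrecPred (fun a => ∃ x < f a, P a x) := by
  have h1 : PrimrecRel (fun (x : ℕ) (a : α) => P a x) :=
    hP.comp (Primrec.pair Primrec.snd Primrec.fst)
  exact (h1.exists_mem_list.comp (Primrec.list_range.comp hf) Primrec.id).of_eq (by simp)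

theorem imp' {α : Type*} [Primcodable α] {p q : α → Prop} (hp : PrimrecPred p)
    (hq : PrimrecPred q) : PrimrecPred fun a => (p a → q a) :=
  (hp.not.or hq).of_eq fun a => by
    rw [imp_iff_not_or]

abbrev Q := Inp × ℕ × ℕ

end QPCN

open QPCN in
theorem QPCN (hB : S_PBD) (hA : S_QPAV) (hW : S_PWIN) : S_QPCN := by
  obtain ⟨-, hM, -⟩ := hB
  unfold S_QPCN cnC
  have B0 : Primrec (fun q : Q => q.1) := Primrec.fst
  have N0 : Primrec (fun q : Q => q.2.1) := Primrec.fst.comp Primrec.snd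
  have b0 : Primrec (fun q : Q => q.2.2) := Primrec.snd.comp Primrec.snd
  refine fa (P := fun (q : Q) c => avQ q.1 q.2.2 c → ∀ c' < q.2.1, avQ q.1 q.2.2 c' →
    ∃ m < M q.2.2 + 1, ∃ d < q.2.1, avQ q.1 m d ∧ q.2.2 ≤ m ∧
      winC q.2.2 m d 0 q.2.2 c 0 ∧ winC q.2.2 m d (m - q.2.2) q.2.2 c' 0) N0 ?_
  have f1 : Primrec (fun z : Q × ℕ => z.1) := Primrec.fst
  have s1 : Primrec (fun z : Q × ℕ => z.2) := Primrec.snd
  refine imp' (hA.comp (Primrec.pair (B0.comp f1) (Primrec.pair (b0.comp f1) s1))) ?_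
  refine fa (P := fun (z : Q × ℕ) c' => avQ z.1.1 z.1.2.2 c' →
    ∃ m < M z.1.2.2 + 1, ∃ d < z.1.2.1, avQ z.1.1 m d ∧ z.1.2.2 ≤ m ∧
      winC z.1.2.2 m d 0 z.1.2.2 z.2 0 ∧ winC z.1.2.2 m d (m - z.1.2.2) z.1.2.2 c' 0)
    (N0.comp f1) ?_
  have f2 : Primrec (fun z : (Q × ℕ) × ℕ => z.1.1) := Primrec.fst.comp Primrec.fst
  have s2 : Primrec (fun z : (Q × ℕ) × ℕ => z.2) := Primrec.snd
  refine imp' (hA.comp (Primrec.pair (B0.comp f2) (Primrec.pair (b0.comp f2) s2))) ?_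
  refine ex (P := fun (z : (Q × ℕ) × ℕ) m => ∃ d < z.1.1.2.1, avQ z.1.1.1 m d ∧ z.1.1.2.2 ≤ m ∧
      winC z.1.1.2.2 m d 0 z.1.1.2.2 z.1.2 0 ∧
      winC z.1.1.2.2 m d (m - z.1.1.2.2) z.1.1.2.2 z.2 0)
    (Primrec.succ.comp (hM.comp (b0.comp f2))) ?_
  have f3 : Primrec (fun z : ((Q × ℕ) × ℕ) × ℕ => z.1.1.1) := f2.comp Primrec.fst
  refine ex (P := fun (z : ((Q × ℕ) × ℕ) × ℕ) d => avQ z.1.1.1.1 z.2 d ∧ z.1.1.1.2.2 ≤ z.2 ∧
      winC z.1.1.1.2.2 z.2 d 0 z.1.1.1.2.2 z.1.1.2 0 ∧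
      winC z.1.1.1.2.2 z.2 d (z.2 - z.1.1.1.2.2) z.1.1.1.2.2 z.1.2 0)
    (N0.comp f3) ?_
  have f4 : Primrec (fun z : (((Q × ℕ) × ℕ) × ℕ) × ℕ => z.1.1.1.1) := f3.comp Primrec.fst
  have c4 : Primrec (fun z : (((Q × ℕ) × ℕ) × ℕ) × ℕ => z.1.1.1.2) :=
    Primrec.snd.comp (Primrec.fst.comp (Primrec.fst.comp Primrec.fst))
  have c4' : Primrec (fun z : (((Q × ℕ) × ℕ) × ℕ) × ℕ => z.1.1.2) :=
    Primrec.snd.comp (Primrec.fst.comp Primrec.fst)
  have m4 : Primrec (fun z : (((Q × ℕ) × ℕ) × ℕ) × ℕ => z.1.2) := Primrec.snd.comp Primrec.fst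
  have d4 : Primrec (fun z : (((Q × ℕ) × ℕ) × ℕ) × ℕ => z.2) := Primrec.snd
  have B4 := B0.comp f4
  have b4 := b0.comp f4
  have z4 : Primrec (fun _ : (((Q × ℕ) × ℕ) × ℕ) × ℕ => 0) := Primrec.const 0
  have l4 := Primrec.nat_sub.comp m4 b4
  refine (hA.comp (Primrec.pair B4 (Primrec.pair m4 d4))).and
    ((Primrec.nat_le.comp b4 m4).and (PrimrecPred.and ?_ ?_))
  · exact hW.comp (Primrec.pair b4 (Primrec.pair m4 (Primrec.pair d4 (Primrec.pair z4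
      (Primrec.pair b4 (Primrec.pair c4 z4))))))
  · exact hW.comp (Primrec.pair b4 (Primrec.pair m4 (Primrec.pair d4 (Primrec.pair l4
      (Primrec.pair b4 (Primrec.pair c4' z4))))))

end Pool.Agent.R474.CE
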