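import Pool.Agent.R474.CE.StmQ

/-!
# Free pairs are primitive recursive
-/

set_option autoImplicit false

namespace Pool.Agent.R474.CE

namespace QPFR

variable {α : Type} [Primcodable α]

theorem ex_lt {f : α → ℕ} {R : ℕ → α → Prop} (hR : PrimrecPred (fun p : ℕ × α => R p.1 p.2))
    (hf : Primrec f) : PrimrecPred (fun a => ∃ x < f a, R x a) :=
  ((PrimrecRel.exists_mem_list (R := R) hR).comp (Primrec.list_range.comp hf)
    Primrec.id).of_eq (by simp)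

theorem all_lt {f : α → ℕ} {R : ℕ → α → Prop} (hR : PrimrecPred (fun p : ℕ × α => R p.1 p.2))
    (hf : Primrec f) : PrimrecPred (fun a => ∀ x < f a, R x a) :=
  ((PrimrecRel.forall_mem_list (R := R) hR).comp (Primrec.list_range.comp hf)
    Primrec.id).of_eq (by simp)

theorem pimp {P Q : α → Prop} (hP : PrimrecPred P) (hQ : PrimrecPred Q) :
    PrimrecPred (fun a => P a → Q a) :=
  (hP.not.or hQ).of_eq fun a => by tauto

theorem piff {P Q : α → Prop} (hP : PrimrecPred P) (hQ : PrimrecPred Q) :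
    PrimrecPred (fun a => (P a ↔ Q a)) :=
  ((pimp hP hQ).and (pimp hQ hP)).of_eq fun a => by tauto

theorem pbit (h : S_PBIT) {n c i j : α → ℕ} (hn : Primrec n) (hc : Primrec c) (hi : Primrec i)
    (hj : Primrec j) : PrimrecPred (fun a => bit (n a) (c a) (i a) (j a)) :=
  PrimrecPred.comp h (hn.pair (hc.pair (hi.pair hj)))

theorem pav (h : S_QPAV) {B : α → Inp} {n c : α → ℕ} (hB : Primrec B) (hn : Primrec n)
    (hc : Primrec c) : PrimrecPred (fun a => avQ (B a) (n a) (c a)) :=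
  PrimrecPred.comp h (hB.pair (hn.pair hc))

theorem sub1 {n : α → ℕ} (hn : Primrec n) : Primrec (fun a => n a - 1) :=
  Primrec.nat_sub.comp hn (Primrec.const 1)

theorem part2 (h : S_PBIT) {m c d : α → ℕ} (hm : Primrec m) (hc : Primrec c) (hd : Primrec d) :
    PrimrecPred (fun a => ¬ (bit (m a) (c a) 0 (m a - 1) ↔ bit (m a) (d a) 0 (m a - 1)) ∨
      ¬ (bit (m a) (c a) (m a - 1) 0 ↔ bit (m a) (d a) (m a - 1) 0)) := by
  have h0 : Primrec (fun _ : α => 0) := Primrec.const 0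
  exact (piff (pbit h hm hc h0 (sub1 hm)) (pbit h hm hd h0 (sub1 hm))).not.or
    (piff (pbit h hm hc (sub1 hm) h0) (pbit h hm hd (sub1 hm) h0)).not

theorem part1 (h : S_PBIT) {m c d : α → ℕ} (hm : Primrec m) (hc : Primrec c) (hd : Primrec d) :
    PrimrecPred (fun a => ∀ s < m a, ∀ t < m a,
      ¬ (bit (m a) (c a) s t ↔ bit (m a) (d a) s t) →
        (s = 0 ∧ t = m a - 1) ∨ (s = m a - 1 ∧ t = 0)) := by
  refine all_lt (R := fun s a => ∀ t < m a, ¬ (bit (m a) (c a) s t ↔ bit (m a) (d a) s t) →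
        (s = 0 ∧ t = m a - 1) ∨ (s = m a - 1 ∧ t = 0)) ?_ hm
  refine all_lt (α := ℕ × α) (f := fun p => m p.2) (R := fun t p =>
    ¬ (bit (m p.2) (c p.2) p.1 t ↔ bit (m p.2) (d p.2) p.1 t) →
        (p.1 = 0 ∧ t = m p.2 - 1) ∨ (p.1 = m p.2 - 1 ∧ t = 0)) ?_ (hm.comp Primrec.snd)
  have ha : Primrec (fun p : ℕ × ℕ × α => p.2.2) := Primrec.snd.comp Primrec.snd
  have hm' : Primrec (fun p : ℕ × ℕ × α => m p.2.2) := hm.comp ha
  have hc' : Primrec (fun p : ℕ × ℕ × α => c p.2.2) := hc.comp ha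
  have hd' : Primrec (fun p : ℕ × ℕ × α => d p.2.2) := hd.comp ha
  have hs : Primrec (fun p : ℕ × ℕ × α => p.2.1) := Primrec.fst.comp Primrec.snd
  have ht : Primrec (fun p : ℕ × ℕ × α => p.1) := Primrec.fst
  have h0 : Primrec (fun _ : ℕ × ℕ × α => 0) := Primrec.const 0
  refine pimp (piff (pbit h hm' hc' hs ht) (pbit h hm' hd' hs ht)).not ?_
  exact ((Primrec.eq.comp hs h0).and (Primrec.eq.comp ht (sub1 hm'))).or
    ((Primrec.eq.comp hs (sub1 hm')).and (Primrec.eq.comp ht h0))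

end QPFR

open QPFR in
theorem QPFR (hav : S_QPAV) (hbit : S_PBIT) : S_QPFR := by
  unfold S_QPFR freeC
  refine ex_lt (α := Inp × ℕ × ℕ) (f := fun q => q.2.1) (R := fun c q => avQ q.1 q.2.2 c ∧
    ∃ d < q.2.1, avQ q.1 q.2.2 d ∧
    (∀ s < q.2.2, ∀ t < q.2.2, ¬ (bit q.2.2 c s t ↔ bit q.2.2 d s t) →
      (s = 0 ∧ t = q.2.2 - 1) ∨ (s = q.2.2 - 1 ∧ t = 0)) ∧
    (¬ (bit q.2.2 c 0 (q.2.2 - 1) ↔ bit q.2.2 d 0 (q.2.2 - 1)) ∨
      ¬ (bit q.2.2 c (q.2.2 - 1) 0 ↔ bit q.2.2 d (q.2.2 - 1) 0))) ?_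
    (Primrec.fst.comp Primrec.snd)
  have g1 : Primrec (fun p : ℕ × Inp × ℕ × ℕ => p.2.1) := Primrec.fst.comp Primrec.snd
  have g2 : Primrec (fun p : ℕ × Inp × ℕ × ℕ => p.2.2.2) :=
    Primrec.snd.comp (Primrec.snd.comp Primrec.snd)
  have g3 : Primrec (fun p : ℕ × Inp × ℕ × ℕ => p.2.2.1) :=
    Primrec.fst.comp (Primrec.snd.comp Primrec.snd)
  refine (pav hav g1 g2 Primrec.fst).and ?_
  refine ex_lt (α := ℕ × Inp × ℕ × ℕ) (f := fun p => p.2.2.1) (R := fun d p =>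
    avQ p.2.1 p.2.2.2 d ∧
    (∀ s < p.2.2.2, ∀ t < p.2.2.2, ¬ (bit p.2.2.2 p.1 s t ↔ bit p.2.2.2 d s t) →
      (s = 0 ∧ t = p.2.2.2 - 1) ∨ (s = p.2.2.2 - 1 ∧ t = 0)) ∧
    (¬ (bit p.2.2.2 p.1 0 (p.2.2.2 - 1) ↔ bit p.2.2.2 d 0 (p.2.2.2 - 1)) ∨
      ¬ (bit p.2.2.2 p.1 (p.2.2.2 - 1) 0 ↔ bit p.2.2.2 d (p.2.2.2 - 1) 0))) ?_ g3
  have k1 : Primrec (fun x : ℕ × ℕ × Inp × ℕ × ℕ => x.2.2.1) := g1.comp Primrec.snd
  have k2 : Primrec (fun x : ℕ × ℕ × Inp × ℕ × ℕ => x.2.2.2.2) := g2.comp Primrec.snd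
  have kc : Primrec (fun x : ℕ × ℕ × Inp × ℕ × ℕ => x.2.1) := Primrec.fst.comp Primrec.snd
  have kd : Primrec (fun x : ℕ × ℕ × Inp × ℕ × ℕ => x.1) := Primrec.fst
  exact (pav hav k1 k2 kd).and ((part1 hbit k2 kc kd).and (part2 hbit k2 kc kd))

end Pool.Agent.R474.CE
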