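import Pool.Agent.R474.CE.StmQ

set_option linter.all false
set_option autoImplicit false

namespace Pool.Agent.R474.CE

namespace QPJS

theorem all {α : Type} [Primcodable α] {P : α → ℕ → Prop} {f : α → ℕ}
    (hP : PrimrecPred (fun q : α × ℕ => P q.1 q.2)) (hf : Primrec f) :
    PrimrecPred (fun a => ∀ n < f a, P a n) := by
  have h1 : PrimrecRel (fun (n : ℕ) (a : α) => P a n) :=
    hP.comp (Primrec.pair Primrec.snd Primrec.fst)
  exact (h1.forall_mem_list.comp (Primrec.list_range.comp hf) Primrec.id).of_eq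
    (fun a => by simp)

theorem ex {α : Type} [Primcodable α] {P : α → ℕ → Prop} {f : α → ℕ}
    (hP : PrimrecPred (fun q : α × ℕ => P q.1 q.2)) (hf : Primrec f) :
    PrimrecPred (fun a => ∃ n < f a, P a n) := by
  have h1 : PrimrecRel (fun (n : ℕ) (a : α) => P a n) :=
    hP.comp (Primrec.pair Primrec.snd Primrec.fst)
  exact (h1.exists_mem_list.comp (Primrec.list_range.comp hf) Primrec.id).of_eq
    (fun a => by simp)

theorem imp {α : Type} [Primcodable α] {P Q : α → Prop}
    (hP : PrimrecPred P) (hQ : PrimrecPred Q) :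
    PrimrecPred (fun a => P a → Q a) :=
  (hP.not.or hQ).of_eq (fun a => by tauto)

end QPJS

open QPJS Primrec in
theorem QPJS (hAv : S_QPAV) (hE : S_PEMB) (hB : S_PBD) : S_QPJS := by
  have hM : Primrec M := hB.2.1
  have hS1 : Primrec S1 :=
    nat_add.comp (nat_add.comp hM Primrec.id) (const 4)
  have hS2 : Primrec S2 := nat_add.comp (nat_mul.comp (const 2) hS1) hM
  unfold S_QPJS jsC
  refine all ?_ (succ.comp (hS1.comp (snd.comp snd)))
  refine all ?_ (fst.comp (snd.comp fst))
  refine imp (hAv.comp ((fst.comp (fst.comp fst)).pair ((snd.comp fst).pair snd))) ?_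
  refine all ?_ (succ.comp (hS1.comp (snd.comp (snd.comp (fst.comp fst)))))
  refine all ?_ (fst.comp (snd.comp (fst.comp (fst.comp fst))))
  refine imp (hAv.comp ((fst.comp (fst.comp (fst.comp (fst.comp fst)))).pair
    ((snd.comp fst).pair snd))) ?_
  refine ex ?_ (succ.comp (hS2.comp (snd.comp (snd.comp (fst.comp (fst.comp (fst.comp fst)))))))
  refine ex ?_ (fst.comp (snd.comp (fst.comp (fst.comp (fst.comp (fst.comp fst))))))
  refine PrimrecPred.and ?_ (PrimrecPred.and ?_ ?_)
  · exact hAv.comp ((fst.comp (fst.comp (fst.comp (fst.comp (fst.comp (fst.comp fst)))))).pair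
      ((snd.comp fst).pair snd))
  · exact hE.comp ((snd.comp (fst.comp (fst.comp (fst.comp (fst.comp fst))))).pair
      ((snd.comp (fst.comp (fst.comp (fst.comp fst)))).pair ((snd.comp fst).pair snd)))
  · exact hE.comp ((snd.comp (fst.comp (fst.comp fst))).pair
      ((snd.comp (fst.comp fst)).pair ((snd.comp fst).pair snd)))

end Pool.Agent.R474.CE
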