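import Pool.Agent.R474.CE.StmQ

set_option autoImplicit false

namespace Pool.Agent.R474.CE

namespace QPMK

theorem fa {α : Type*} [Primcodable α] {f : α → ℕ} {P : α → ℕ → Prop} (hf : Primrec f)
    (hP : PrimrecPred fun z : α × ℕ => P z.1 z.2) : PrimrecPred (fun a => ∀ x < f a, P a x) := by
  have h1 : PrimrecRel (fun (x : ℕ) (a : α) => P a x) :=
    hP.comp (Primrec.pair Primrec.snd Primrec.fst)
  exact (h1.forall_mem_list.comp (Primrec.list_range.comp hf) Primrec.id).of_eq (by simp)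

theorem ex {α : Type*} [Primcodable α] {f : α → ℕ} {P : α → ℕ → Prop} (hf : Primrec f)
    (hP : PrimrecPred fun z : α × ℕ => P z.1 z.2) : PrimrecPred (fun a => ∃ x < f a, P a x) := by
  have h1 : PrimrecRel (fun (x : ℕ) (a : α) => P a x) :=
    hP.comp (Primrec.pair Primrec.snd Primrec.fst)
  exact (h1.exists_mem_list.comp (Primrec.list_range.comp hf) Primrec.id).of_eq (by simp)

theorem imp' {α : Type*} [Primcodable α] {p q : α → Prop} (hp : PrimrecPred p)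
    (hq : PrimrecPred q) : PrimrecPred fun a => (p a → q a) :=
  (hp.not.or hq).of_eq fun a => by
    rw [imp_iff_not_or]

abbrev Q4 := Inp × ℕ × ℕ × ℕ

end QPMK

open QPMK in
theorem QPMK (hA : S_QPAV) (hW : S_PWIN) : S_QPMK := by
  unfold S_QPMK mkC
  refine ex (P := fun (q : Q4) c => avQ q.1 q.2.2.2 c ∧ q.2.2.1 + 2 ≤ q.2.2.2 ∧
    ∀ k < q.2.2.2, 1 ≤ k → k + q.2.2.1 + 1 < q.2.2.2 →
    ¬ winC (q.2.2.1 + 1) q.2.2.2 c k q.2.2.2 c 0 ∧
    ¬ winC (q.2.2.1 + 1) q.2.2.2 c k q.2.2.2 c (q.2.2.2 - q.2.2.1 - 1))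
    (Primrec.fst.comp Primrec.snd) ?_
  have B1 : Primrec (fun z : Q4 × ℕ => z.1.1) := Primrec.fst.comp Primrec.fst
  have D1 : Primrec (fun z : Q4 × ℕ => z.1.2.2.1) :=
    Primrec.fst.comp (Primrec.snd.comp (Primrec.snd.comp Primrec.fst))
  have n1 : Primrec (fun z : Q4 × ℕ => z.1.2.2.2) :=
    Primrec.snd.comp (Primrec.snd.comp (Primrec.snd.comp Primrec.fst))
  have c1 : Primrec (fun z : Q4 × ℕ => z.2) := Primrec.snd
  refine (hA.comp (Primrec.pair B1 (Primrec.pair n1 c1))).and ((Primrec.nat_le.comp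
    (Primrec.nat_add.comp D1 (Primrec.const 2)) n1).and ?_)
  refine fa (P := fun (z : Q4 × ℕ) k => 1 ≤ k → k + z.1.2.2.1 + 1 < z.1.2.2.2 →
    ¬ winC (z.1.2.2.1 + 1) z.1.2.2.2 z.2 k z.1.2.2.2 z.2 0 ∧
    ¬ winC (z.1.2.2.1 + 1) z.1.2.2.2 z.2 k z.1.2.2.2 z.2 (z.1.2.2.2 - z.1.2.2.1 - 1)) n1 ?_
  have D2 : Primrec (fun z : (Q4 × ℕ) × ℕ => z.1.1.2.2.1) := D1.comp Primrec.fst
  have n2 : Primrec (fun z : (Q4 × ℕ) × ℕ => z.1.1.2.2.2) := n1.comp Primrec.fst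
  have c2 : Primrec (fun z : (Q4 × ℕ) × ℕ => z.1.2) := c1.comp Primrec.fst
  have k2 : Primrec (fun z : (Q4 × ℕ) × ℕ => z.2) := Primrec.snd
  have z2 : Primrec (fun _ : (Q4 × ℕ) × ℕ => 0) := Primrec.const 0
  have o2 : Primrec (fun _ : (Q4 × ℕ) × ℕ => 1) := Primrec.const 1
  have E2 : Primrec (fun z : (Q4 × ℕ) × ℕ => z.1.1.2.2.1 + 1) := Primrec.succ.comp D2
  have l2 : Primrec (fun z : (Q4 × ℕ) × ℕ => z.1.1.2.2.2 - z.1.1.2.2.1 - 1) :=
    Primrec.nat_sub.comp (Primrec.nat_sub.comp n2 D2) o2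
  refine imp' (Primrec.nat_le.comp o2 k2) (imp' (Primrec.nat_lt.comp
    (Primrec.succ.comp (Primrec.nat_add.comp k2 D2)) n2) (PrimrecPred.and ?_ ?_))
  · exact (hW.comp (Primrec.pair E2 (Primrec.pair n2 (Primrec.pair c2 (Primrec.pair k2
      (Primrec.pair n2 (Primrec.pair c2 z2))))))).not
  · exact (hW.comp (Primrec.pair E2 (Primrec.pair n2 (Primrec.pair c2 (Primrec.pair k2
      (Primrec.pair n2 (Primrec.pair c2 l2))))))).not

end Pool.Agent.R474.CE
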