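import Pool.Agent.R474.CE.StmQ

/-!
# CE-QPUMP: pumping free pairs of posets
-/

set_option autoImplicit false

namespace Pool.Agent.R474.CE

namespace QPUMPaux

variable {B : Set Str} {b : ℕ}

/-- the modified structure -/
def md (y : Str) (e : Bool) : Str :=
  ⟨y.n, fun a c => y.R a c || (y.R a 0 && (y.R (y.n - 1) c &&
    (e || !(decide (a = 0) && decide (c = y.n - 1)))))⟩

theorem md_iff (y : Str) (e : Bool) (a c : ℕ) : (md y e).R a c = true ↔ y.R a c = true ∨
    (y.R a 0 = true ∧ y.R (y.n - 1) c = true ∧ (e = true ∨ ¬ (a = 0 ∧ c = y.n - 1))) := by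
  unfold md
  simp only [Bool.or_eq_true, Bool.and_eq_true, Bool.not_eq_true', Bool.and_eq_false_iff,
    decide_eq_false_iff_not, not_and_or]

theorem pos_md (y : Str) (hy : Pos y) (hn : 0 < y.n) (h0 : y.R (y.n - 1) 0 ≠ true) (e : Bool) :
    Pos (md y e) := by
  obtain ⟨hr, ha, ht⟩ := hy
  have hN : y.n - 1 < y.n := by omega
  have bad : ∀ a < y.n, y.R (y.n - 1) a = true → y.R a 0 = true → False := by
    intro a han h1 h2
    exact h0 (ht _ hN a han 0 hn h1 h2)
  refine ⟨?_, ?_, ?_⟩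
  · intro i hi
    exact (md_iff y e i i).2 (Or.inl (hr i hi))
  · intro i hi j hj hij h
    have hi' : i < y.n := hi
    have hj' : j < y.n := hj
    by_contra hcon
    have hcon' : (md y e).R j i = true := by simpa using hcon
    rw [md_iff] at h hcon'
    rcases h with h | ⟨h1, h2, _⟩ <;> rcases hcon' with k | ⟨k1, k2, _⟩
    · have := ha i hi' j hj' hij h
      rw [this] at k
      exact Bool.false_ne_true k
    · exact bad i hi' k2 (ht i hi' j hj' 0 hn h k1)
    · exact bad j hj' h2 (ht j hj' i hi' 0 hn k h1)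
    · exact bad i hi' k2 h1
  · intro i hi j hj k hk h1 h2
    have hi' : i < y.n := hi
    have hj' : j < y.n := hj
    have hk' : k < y.n := hk
    rw [md_iff] at h1 h2 ⊢
    rcases h1 with h1 | ⟨a1, a2, a3⟩ <;> rcases h2 with h2 | ⟨c1, c2, c3⟩
    · exact Or.inl (ht i hi' j hj' k hk' h1 h2)
    · right
      refine ⟨ht i hi' j hj' 0 hn h1 c1, c2, ?_⟩
      rcases c3 with c3 | c3
      · exact Or.inl c3
      · right
        rintro ⟨rfl, hkN⟩
        by_cases hj0 : j = 0
        · exact c3 ⟨hj0, hkN⟩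
        · have := ha 0 hn j hj' (Ne.symm hj0) h1
          rw [this] at c1
          exact Bool.false_ne_true c1
    · right
      refine ⟨a1, ht _ hN j hj' k hk' a2 h2, ?_⟩
      rcases a3 with a3 | a3
      · exact Or.inl a3
      · right
        rintro ⟨hi0, rfl⟩
        by_cases hjN : j = y.n - 1
        · exact a3 ⟨hi0, hjN⟩
        · have := ha j hj' _ hN hjN h2
          rw [this] at a2
          exact Bool.false_ne_true a2
    · exact (bad j hj' a2 c1).elim

theorem key (hR : S_QRES) (hG : S_QGLUE) (hL : S_QLOC) (hS : Std B b) {u u' : Str} {m p q : ℕ}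
    (hu : u ∈ Av Pos B) (hu' : u' ∈ Av Pos B) (hn : u.n = m) (hn' : u'.n = m)
    (h1 : u'.R 0 (m - 1) = true) (h2 : u.R 0 (m - 1) = false)
    (heq : ∀ s < m, ∀ t < m, ¬ (s = 0 ∧ t = m - 1) → u.R s t = u'.R s t)
    (hp : 1 ≤ p) (hq : 1 ≤ q) (hpm : p + b < m) (hqm : q + b < m) (hw : Win b u p u q)
    (hα : ∀ w < b, u.R 0 (p + w) = u.R 0 (q + w))
    (hγ : ∀ w < b, u.R (p + w) 0 = u.R (q + w) 0)
    (hδ : ∀ w < b, u.R (m - 1) (p + w) = u.R (m - 1) (q + w)) :
    FreeP (Av Pos B) (p + m - q) := by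
  have hb1 : 1 ≤ b := hS.1
  obtain ⟨hur, hua, hut⟩ := hu.1
  obtain ⟨hur', hua', hut'⟩ := hu'.1
  rw [hn] at hur hua hut
  rw [hn'] at hur' hua' hut'
  obtain ⟨y, hyC, hyn, hW1, hW2, hc1, hc2⟩ := hG B b hS b le_rfl (win u 0 (p + b))
    ((hR B).2 u hu 0 (p + b) (by omega)) (win u q (m - q)) ((hR B).2 u hu q (m - q) (by omega))
    (by show b ≤ p + b; omega) (by show b ≤ m - q; omega) (by
      intro s hs t ht
      show u.R (0 + (p + b - b + s)) (0 + (p + b - b + t)) = u.R (q + (0 + s)) (q + (0 + t))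
      have := hw s hs t ht
      simpa [Nat.add_sub_cancel] using this)
  have hyn' : y.n + b = (p + b) + (m - q) := hyn
  have hyN : y.n = p + m - q := by omega
  have epb : p + b - b = p := by omega
  have W1 : ∀ s < p + b, ∀ t < p + b, y.R s t = u.R s t := by
    intro s hs t ht
    have h : y.R (0 + s) (0 + t) = u.R (0 + (0 + s)) (0 + (0 + t)) := hW1 s hs t ht
    simpa using h
  have W2 : ∀ s < m - q, ∀ t < m - q, y.R (p + s) (p + t) = u.R (q + s) (q + t) := by
    intro s hs t ht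
    have h : y.R (p + b - b + s) (p + b - b + t) = u.R (q + (0 + s)) (q + (0 + t)) :=
      hW2 s hs t ht
    rw [epb] at h
    simpa using h
  have c1 : ∀ s < p + b, ∀ t < m - q, y.R s (p + t) = true →
      ∃ w < b, u.R s (p + w) = true ∧ u.R (q + w) (q + t) = true := by
    intro s hs t ht h
    have h' : y.R s ((p + b) - b + t) = true := by rw [epb]; exact h
    obtain ⟨w, hw1, hw2, hw3⟩ := hc1 s hs t ht h'
    have k1 : u.R (0 + s) (0 + (p + b - b + w)) = true := hw2
    rw [epb, zero_add, zero_add] at k1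
    exact ⟨w, hw1, k1, hw3⟩
  have c2 : ∀ s < p + b, ∀ t < m - q, y.R (p + t) s = true →
      ∃ w < b, u.R (q + t) (q + w) = true ∧ u.R (p + w) s = true := by
    intro s hs t ht h
    have h' : y.R ((p + b) - b + t) s = true := by rw [epb]; exact h
    obtain ⟨w, hw1, hw2, hw3⟩ := hc2 s hs t ht h'
    have k1 : u.R (0 + (p + b - b + w)) (0 + s) = true := hw3
    rw [epb, zero_add, zero_add] at k1
    exact ⟨w, hw1, hw2, k1⟩
  have hT : m - q - 1 < m - q := by omega
  have eN : y.n - 1 = p + (m - q - 1) := by omega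
  have eM : q + (m - q - 1) = m - 1 := by omega
  have hM : m - 1 < m := by omega
  have h0m : 0 < m := by omega
  have f1 : y.R 0 (y.n - 1) ≠ true := by
    intro h
    rw [eN] at h
    obtain ⟨w, hw1, hw2, hw3⟩ := c1 0 (by omega) _ hT h
    rw [eM] at hw3
    rw [hα w hw1] at hw2
    have := hut 0 h0m (q + w) (by omega) (m - 1) hM hw2 hw3
    rw [h2] at this
    exact Bool.false_ne_true this
  have f2p : ∀ s < p + b, y.R s 0 = true → u.R s 0 = true := by
    intro s hs h
    rw [← W1 s hs 0 (by omega)]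
    exact h
  have f2s : ∀ t < m - q, y.R (p + t) 0 = true → u.R (q + t) 0 = true := by
    intro t ht h
    obtain ⟨w, hw1, hw2, hw3⟩ := c2 0 (by omega) t ht h
    rw [hγ w hw1] at hw3
    exact hut (q + t) (by omega) (q + w) (by omega) 0 h0m hw2 hw3
  have f3p : ∀ s < p + b, y.R (y.n - 1) s = true → u.R (m - 1) s = true := by
    intro s hs h
    rw [eN] at h
    obtain ⟨w, hw1, hw2, hw3⟩ := c2 s hs _ hT h
    rw [eM, ← hδ w hw1] at hw2
    exact hut (m - 1) hM (p + w) (by omega) s (by omega) hw2 hw3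
  have f3s : ∀ t < m - q, y.R (y.n - 1) (p + t) = true → u.R (m - 1) (q + t) = true := by
    intro t ht h
    rw [eN, W2 _ hT t ht, eM] at h
    exact h
  have f0 : y.R (y.n - 1) 0 ≠ true := by
    intro h
    rw [eN] at h
    have h3 := f2s _ hT h
    rw [eM, heq (m - 1) hM 0 h0m (by omega), hua' 0 h0m (m - 1) hM (by omega) h1] at h3
    exact Bool.false_ne_true h3
  have tr : ∀ a < m, ∀ c < m, u.R a 0 = true → u.R (m - 1) c = true → ¬ (a = 0 ∧ c = m - 1) →
      u.R a c = true := by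
    intro a ha c hc k1 k2 k3
    rw [heq a ha 0 h0m (by omega)] at k1
    rw [heq (m - 1) hM c hc (by omega)] at k2
    rw [heq a ha c hc k3]
    exact hut' a ha (m - 1) hM c hc (hut' a ha 0 h0m (m - 1) hM k1 h1) k2
  have near : ∀ e : Bool, ∀ k, k + b ≤ y.n → Win b (md y e) k y k := by
    intro e k hk s hs t ht
    rw [Bool.eq_iff_iff, md_iff]
    constructor
    · rintro (h | ⟨k1, k2, _⟩)
      · exact h
      · by_cases hkp : k ≤ p
        · have g := tr (k + s) (by omega) (k + t) (by omega) (f2p _ (by omega) k1)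
            (f3p _ (by omega) k2) (by omega)
          rw [W1 _ (by omega) _ (by omega)]
          exact g
        · obtain ⟨j, rfl⟩ : ∃ j, k = p + j := ⟨k - p, by omega⟩
          rw [add_assoc] at k1 k2 ⊢
          rw [add_assoc]
          have g := tr (q + (j + s)) (by omega) (q + (j + t)) (by omega)
            (f2s _ (by omega) k1) (f3s _ (by omega) k2) (by omega)
          rw [W2 _ (by omega) _ (by omega)]
          exact g
    · intro h
      exact Or.inl h
  have memC : ∀ e : Bool, md y e ∈ Av Pos B := by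
    intro e
    apply hL B b hS (md y e) (pos_md y hyC.1 (by omega) f0 e) (by show b ≤ y.n; omega)
    intro k hk
    exact ⟨y, hyC, k, hk, near e k hk⟩
  refine ⟨md y false, memC false, md y true, memC true, hyN, hyN, ?_, Or.inl ?_⟩
  · intro s _ t _ hne
    left
    by_contra hcon
    apply hne
    rw [← hyN] at hcon
    rw [Bool.eq_iff_iff, md_iff, md_iff]
    simp [hcon]
  · have e1 : (md y true).R 0 (p + m - q - 1) = true := by
      rw [md_iff, ← hyN]
      right
      exact ⟨hyC.1.1 0 (by omega), hyC.1.1 _ (by omega), Or.inl rfl⟩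
    rw [e1]
    intro h
    rw [md_iff, ← hyN] at h
    rcases h with h | ⟨_, _, h | h⟩
    · exact f1 h
    · exact Bool.false_ne_true h
    · exact h ⟨rfl, rfl⟩

theorem card_st (b : ℕ) : Fintype.card ((Fin b → Fin b → Bool) × (Fin b → Bool) ×
    (Fin b → Bool) × (Fin b → Bool)) = 2 ^ (b * b) * 8 ^ b := by
  simp only [Fintype.card_prod, Fintype.card_fun, Fintype.card_bool, Fintype.card_fin]
  rw [← pow_mul, show (8 : ℕ) = 2 * (2 * 2) by norm_num, mul_pow, mul_pow]

theorem main1 (hR : S_QRES) (hG : S_QGLUE) (hL : S_QLOC) (hS : Std B b) {u u' : Str} {m : ℕ}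
    (hm : KK b ≤ m)
    (hu : u ∈ Av Pos B) (hu' : u' ∈ Av Pos B) (hn : u.n = m) (hn' : u'.n = m)
    (h1 : u'.R 0 (m - 1) = true) (h2 : u.R 0 (m - 1) = false)
    (heq : ∀ s < m, ∀ t < m, ¬ (s = 0 ∧ t = m - 1) → u.R s t = u'.R s t) :
    (∃ m', b < m' ∧ m' < m ∧ m ≤ m' + KK b ∧ FreeP (Av Pos B) m') ∧
      ∃ m', m < m' ∧ FreeP (Av Pos B) m' := by
  unfold KK at hm ⊢
  set Q := 2 ^ (b * b) * 8 ^ b with hQ
  let st : Fin (Q + 1) → (Fin b → Fin b → Bool) × (Fin b → Bool) × (Fin b → Bool) ×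
      (Fin b → Bool) := fun s => (fun i j => u.R (s + 1 + i) (s + 1 + j),
        fun w => u.R 0 (s + 1 + w), fun w => u.R (s + 1 + w) 0, fun w => u.R (m - 1) (s + 1 + w))
  obtain ⟨s, s', hne, hst⟩ := Fintype.exists_ne_map_eq_of_card_lt st (by
    rw [card_st, Fintype.card_fin]; omega)
  have hs1 := s.2
  have hs2 := s'.2
  have key2 : ∀ s s' : Fin (Q + 1), (s : ℕ) < s' → st s = st s' →
      FreeP (Av Pos B) ((s + 1) + m - (s' + 1)) ∧ FreeP (Av Pos B) ((s' + 1) + m - (s + 1)) := by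
    intro s s' hlt hst
    have hs1 := s.2
    have hs2 := s'.2
    have e1 : (fun i j : Fin b => u.R (s + 1 + i) (s + 1 + j)) =
        fun i j : Fin b => u.R (s' + 1 + i) (s' + 1 + j) := congrArg Prod.fst hst
    have e2 : (fun w : Fin b => u.R 0 (s + 1 + w)) = fun w : Fin b => u.R 0 (s' + 1 + w) :=
      congrArg (fun x => x.2.1) hst
    have e3 : (fun w : Fin b => u.R (s + 1 + w) 0) = fun w : Fin b => u.R (s' + 1 + w) 0 :=
      congrArg (fun x => x.2.2.1) hst
    have e4 : (fun w : Fin b => u.R (m - 1) (s + 1 + w)) =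
        fun w : Fin b => u.R (m - 1) (s' + 1 + w) := congrArg (fun x => x.2.2.2) hst
    have w1 : Win b u (s + 1) u (s' + 1) := fun i hi j hj =>
      congrFun (congrFun e1 ⟨i, hi⟩) ⟨j, hj⟩
    have w2 : ∀ w < b, u.R 0 (s + 1 + w) = u.R 0 (s' + 1 + w) := fun w hw => congrFun e2 ⟨w, hw⟩
    have w3 : ∀ w < b, u.R (s + 1 + w) 0 = u.R (s' + 1 + w) 0 := fun w hw => congrFun e3 ⟨w, hw⟩
    have w4 : ∀ w < b, u.R (m - 1) (s + 1 + w) = u.R (m - 1) (s' + 1 + w) :=
      fun w hw => congrFun e4 ⟨w, hw⟩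
    constructor
    · exact key hR hG hL hS hu hu' hn hn' h1 h2 heq (by omega) (by omega) (by omega) (by omega)
        w1 w2 w3 w4
    · exact key hR hG hL hS hu hu' hn hn' h1 h2 heq (by omega) (by omega) (by omega) (by omega)
        (fun i hi j hj => (w1 i hi j hj).symm) (fun w hw => (w2 w hw).symm)
        (fun w hw => (w3 w hw).symm) (fun w hw => (w4 w hw).symm)
  have hne' : (s : ℕ) ≠ s' := fun h => hne (Fin.ext h)
  rcases lt_or_gt_of_ne hne' with h | h
  · obtain ⟨k1, k2⟩ := key2 s s' h hst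
    exact ⟨⟨_, by omega, by omega, by omega, k1⟩, ⟨_, by omega, k2⟩⟩
  · obtain ⟨k1, k2⟩ := key2 s' s h hst.symm
    exact ⟨⟨_, by omega, by omega, by omega, k1⟩, ⟨_, by omega, k2⟩⟩

/-- the reversed structure -/
def rv (x : Str) : Str := ⟨x.n, fun i j => x.R j i⟩

theorem pos_rv {x : Str} (h : Pos x) : Pos (rv x) := by
  obtain ⟨hr, ha, ht⟩ := h
  refine ⟨hr, ?_, ?_⟩
  · intro i hi j hj hij h
    exact ha j hj i hi (Ne.symm hij) h
  · intro i hi j hj k hk h1 h2
    exact ht k hk j hj i hi h2 h1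

theorem av_rv {x : Str} (h : x ∈ Av Pos B) : rv x ∈ Av Pos (rv '' B) := by
  refine ⟨pos_rv h.1, ?_⟩
  rintro _ ⟨y, hy, rfl⟩ ⟨k, hk, he⟩
  exact h.2 y hy ⟨k, hk, fun i hi j hj => he j hj i hi⟩

theorem av_rv' {x : Str} (h : x ∈ Av Pos (rv '' B)) : rv x ∈ Av Pos B := by
  refine ⟨pos_rv h.1, ?_⟩
  rintro y hy ⟨k, hk, he⟩
  exact h.2 (rv y) ⟨y, hy, rfl⟩ ⟨k, hk, fun i hi j hj => he j hj i hi⟩

theorem std_rv (hS : Std B b) : Std (rv '' B) b := by
  refine ⟨hS.1, ?_⟩
  rintro _ ⟨y, hy, rfl⟩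
  exact hS.2 y hy

theorem free_rv {m : ℕ} (h : FreeP (Av Pos (rv '' B)) m) : FreeP (Av Pos B) m := by
  obtain ⟨u, hu, u', hu', h1, h2, h3, h4⟩ := h
  refine ⟨rv u, av_rv' hu, rv u', av_rv' hu', h1, h2, ?_, h4.symm⟩
  intro s hs t ht hne
  rcases h3 t ht s hs hne with h | h
  · exact Or.inr ⟨h.2, h.1⟩
  · exact Or.inl ⟨h.2, h.1⟩

/-- the intersection -/
def it (u u' : Str) : Str := ⟨u.n, fun i j => u.R i j && u'.R i j⟩

theorem pos_it {u u' : Str} (h : Pos u) (h' : Pos u') (hn : u.n = u'.n) : Pos (it u u') := by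
  obtain ⟨hr, ha, ht⟩ := h
  obtain ⟨hr', ha', ht'⟩ := h'
  rw [← hn] at hr' ha' ht'
  refine ⟨?_, ?_, ?_⟩
  · intro i hi
    show (u.R i i && u'.R i i) = true
    rw [hr i hi, hr' i hi]
    rfl
  · intro i hi j hj hij h
    have h1 : (u.R i j && u'.R i j) = true := h
    rw [Bool.and_eq_true] at h1
    show (u.R j i && u'.R j i) = false
    rw [ha i hi j hj hij h1.1, Bool.false_and]
  · intro i hi j hj k hk h1 h2
    have k1 : (u.R i j && u'.R i j) = true := h1
    have k2 : (u.R j k && u'.R j k) = true := h2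
    rw [Bool.and_eq_true] at k1 k2
    show (u.R i k && u'.R i k) = true
    rw [ht i hi j hj k hk k1.1 k2.1, ht' i hi j hj k hk k1.2 k2.2]
    rfl

end QPUMPaux

open QPUMPaux in
/-- CE-QPUMP -/
theorem QPUMP (hR : S_QRES) (hG : S_QGLUE) (hL : S_QLOC) : S_QPUMP := by
  intro B b hS m hm hF
  obtain ⟨u, hu, u', hu', hn, hn', hd, hx⟩ := hF
  have hKb : b + 2 ≤ m := by
    have : 0 < 2 ^ (b * b) * 8 ^ b := by positivity
    unfold KK at hm
    omega
  have hM : m - 1 < m := by omega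
  have h0m : 0 < m := by omega
  have hne0 : (0 : ℕ) ≠ m - 1 := by omega
  obtain ⟨hur, hua, hut⟩ := hu.1
  obtain ⟨hur', hua', hut'⟩ := hu'.1
  rw [hn] at hur hua hut
  rw [hn'] at hur' hua' hut'
  have same : ∀ s < m, ∀ t < m, ¬ (s = 0 ∧ t = m - 1) → ¬ (s = m - 1 ∧ t = 0) →
      u.R s t = u'.R s t := by
    intro s hs t ht k1 k2
    by_contra hne
    rcases hd s hs t ht hne with h | h
    · exact k1 h
    · exact k2 h
  have hv : it u u' ∈ Av Pos B := by
    apply hL B b hS _ (pos_it hu.1 hu'.1 (by rw [hn, hn'])) (by show b ≤ u.n; omega)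
    intro k hk
    have hk' : k + b ≤ u.n := hk
    refine ⟨u, hu, k, hk', ?_⟩
    intro s hs t ht
    show (u.R (k + s) (k + t) && u'.R (k + s) (k + t)) = u.R (k + s) (k + t)
    rw [← same (k + s) (by omega) (k + t) (by omega) (by omega) (by omega), Bool.and_self]
  have a1 : ¬ (u.R 0 (m - 1) = true ∧ u'.R 0 (m - 1) = true) := by
    rintro ⟨k1, k2⟩
    have k3 := hua 0 h0m (m - 1) hM hne0 k1
    have k4 := hua' 0 h0m (m - 1) hM hne0 k2
    rcases hx with h | h
    · exact h (by rw [k1, k2])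
    · exact h (by rw [k3, k4])
  have a2 : ¬ (u.R (m - 1) 0 = true ∧ u'.R (m - 1) 0 = true) := by
    rintro ⟨k1, k2⟩
    have k3 := hua (m - 1) hM 0 h0m hne0.symm k1
    have k4 := hua' (m - 1) hM 0 h0m hne0.symm k2
    rcases hx with h | h
    · exact h (by rw [k3, k4])
    · exact h (by rw [k1, k2])
  have v1 : (it u u').R 0 (m - 1) = false := by
    show (u.R 0 (m - 1) && u'.R 0 (m - 1)) = false
    rw [Bool.and_eq_false_iff]
    by_contra hc
    push Not at hc
    exact a1 ⟨by simpa using hc.1, by simpa using hc.2⟩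
  have v2 : (it u u').R (m - 1) 0 = false := by
    show (u.R (m - 1) 0 && u'.R (m - 1) 0) = false
    rw [Bool.and_eq_false_iff]
    by_contra hc
    push Not at hc
    exact a2 ⟨by simpa using hc.1, by simpa using hc.2⟩
  have e1 : ∀ s < m, ∀ t < m, ¬ (s = 0 ∧ t = m - 1) → ¬ (s = m - 1 ∧ t = 0) →
      (it u u').R s t = u.R s t := by
    intro s hs t ht k1 k2
    show (u.R s t && u'.R s t) = u.R s t
    rw [← same s hs t ht k1 k2, Bool.and_self]
  have e2 : ∀ s < m, ∀ t < m, ¬ (s = 0 ∧ t = m - 1) → ¬ (s = m - 1 ∧ t = 0) →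
      (it u u').R s t = u'.R s t := by
    intro s hs t ht k1 k2
    rw [e1 s hs t ht k1 k2, same s hs t ht k1 k2]
  have fin1 : ∀ z ∈ Av Pos B, z.n = m → z.R 0 (m - 1) = true →
      (∀ s < m, ∀ t < m, ¬ (s = 0 ∧ t = m - 1) → ¬ (s = m - 1 ∧ t = 0) →
        (it u u').R s t = z.R s t) →
      (∃ m', b < m' ∧ m' < m ∧ m ≤ m' + KK b ∧ FreeP (Av Pos B) m') ∧
        ∃ m', m < m' ∧ FreeP (Av Pos B) m' := by
    intro z hz hzn hz1 hze
    apply main1 hR hG hL hS hm hv hz hn hzn hz1 v1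
    intro s hs t ht k1
    by_cases k2 : s = m - 1 ∧ t = 0
    · rw [k2.1, k2.2, v2]
      have := hz.1.2.1 0 (by omega) (m - 1) (by omega) hne0 hz1
      rw [this]
    · exact hze s hs t ht k1 k2
  have fin2 : ∀ z ∈ Av Pos B, z.n = m → z.R (m - 1) 0 = true →
      (∀ s < m, ∀ t < m, ¬ (s = 0 ∧ t = m - 1) → ¬ (s = m - 1 ∧ t = 0) →
        (it u u').R s t = z.R s t) →
      (∃ m', b < m' ∧ m' < m ∧ m ≤ m' + KK b ∧ FreeP (Av Pos B) m') ∧
        ∃ m', m < m' ∧ FreeP (Av Pos B) m' := by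
    intro z hz hzn hz1 hze
    have h := main1 (B := rv '' B) (u := rv (it u u')) (u' := rv z) (m := m) hR hG hL
      (std_rv hS) hm (av_rv hv) (av_rv hz) hn hzn hz1 v2 (by
        intro s hs t ht k1
        show (it u u').R t s = z.R t s
        by_cases k2 : t = 0 ∧ s = m - 1
        · rw [k2.1, k2.2, v1]
          have := hz.1.2.1 (m - 1) (by omega) 0 (by omega) hne0.symm hz1
          rw [this]
        · exact hze t ht s hs k2 (fun h => k1 ⟨h.2, h.1⟩))
    obtain ⟨⟨m1, b1, b2, b3, b4⟩, ⟨m2, d1, d2⟩⟩ := h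
    exact ⟨⟨m1, b1, b2, b3, free_rv b4⟩, ⟨m2, d1, free_rv d2⟩⟩
  by_cases t1 : u.R 0 (m - 1) = true
  · exact fin1 u hu hn t1 e1
  by_cases t2 : u'.R 0 (m - 1) = true
  · exact fin1 u' hu' hn' t2 e2
  by_cases t3 : u.R (m - 1) 0 = true
  · exact fin2 u hu hn t3 e1
  by_cases t4 : u'.R (m - 1) 0 = true
  · exact fin2 u' hu' hn' t4 e2
  exfalso
  have g1 : u.R 0 (m - 1) = false := by simpa using t1
  have g2 : u'.R 0 (m - 1) = false := by simpa using t2
  have g3 : u.R (m - 1) 0 = false := by simpa using t3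
  have g4 : u'.R (m - 1) 0 = false := by simpa using t4
  rcases hx with h | h
  · exact h (by rw [g1, g2])
  · exact h (by rw [g3, g4])

end Pool.Agent.R474.CE
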