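import Pool.Agent.R474.CE.StmQ

set_option autoImplicit false

/-! Project CE (MP_7b05dd_co), piece QPUMP: pumping of free pairs. -/

namespace Pool.Agent.R474.CE

namespace QPUMP3

/-- the structure `y` with the pairs of `D × U` added (without the extreme pair if `e`) -/
def add (y : Str) (e : Bool) : Str := ⟨y.n, fun i j => y.R i j ||
  (y.R i 0 && y.R (y.n - 1) j && !(e && decide (i = 0 ∧ j = y.n - 1)))⟩

theorem add_true (y : Str) (e : Bool) (i j : ℕ) : (add y e).R i j = true ↔
    y.R i j = true ∨ (y.R i 0 = true ∧ y.R (y.n - 1) j = true ∧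
      ¬ (e = true ∧ i = 0 ∧ j = y.n - 1)) := by
  simp only [add, Bool.or_eq_true, Bool.and_eq_true, Bool.not_eq_true', Bool.and_eq_false_iff]
  by_cases h : i = 0 ∧ j = y.n - 1 <;> cases e <;> simp [h, and_assoc]

theorem add_pos (y : Str) (e : Bool) (hy : Pos y) (hn : 2 ≤ y.n)
    (h1 : y.R (y.n - 1) 0 = false) : Pos (add y e) := by
  obtain ⟨hr, ha, ht⟩ := hy
  have hDU : ∀ i < y.n, ∀ j < y.n, y.R i 0 = true → y.R (y.n - 1) j = true → y.R j i = true →
      False := by
    intro i hi j hj h2 h3 h4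
    have h5 := ht (y.n - 1) (by omega) j hj i hi h3 h4
    have h6 := ht (y.n - 1) (by omega) i hi 0 (by omega) h5 h2
    rw [h1] at h6
    cases h6
  refine ⟨fun i hi => (add_true y e i i).2 (Or.inl (hr i hi)), ?_, ?_⟩
  · intro i hi j hj hij h2
    by_contra h3
    rw [Bool.not_eq_false] at h3
    rw [add_true] at h2 h3
    rcases h2 with h2 | ⟨h2, h2', -⟩ <;> rcases h3 with h3 | ⟨h3, h3', -⟩
    · have := ha i hi j hj hij h2
      rw [h3] at this
      cases this
    · exact hDU j hj i hi h3 h3' h2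
    · exact hDU i hi j hj h2 h2' h3
    · exact hDU i hi i hi h2 h3' (hr i hi)
  · intro i hi j hj k hk h2 h3
    rw [add_true] at h2 h3 ⊢
    have hi' : i < y.n := hi
    have hj' : j < y.n := hj
    have hk' : k < y.n := hk
    rcases h2 with h2 | ⟨h2, h2', h2''⟩ <;> rcases h3 with h3 | ⟨h3, h3', h3''⟩
    · exact Or.inl (ht i hi j hj k hk h2 h3)
    · refine Or.inr ⟨ht i hi j hj 0 (by omega) h2 h3, h3', ?_⟩
      rintro ⟨he, rfl, rfl⟩
      by_cases hj0 : j = 0
      · exact h3'' ⟨he, hj0, rfl⟩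
      · have := ha 0 hi' j hj' (fun h => hj0 h.symm) h2
        rw [h3] at this
        cases this
    · refine Or.inr ⟨h2, ht (y.n - 1) (by omega) j hj k hk h2' h3, ?_⟩
      rintro ⟨he, rfl, rfl⟩
      by_cases hj0 : j = y.n - 1
      · exact h2'' ⟨he, rfl, hj0⟩
      · have := ha j hj' (y.n - 1) (by omega) hj0 h3
        rw [h2'] at this
        cases this
    · exact (hDU j hj j hj h3 h2' (hr j hj)).elim

theorem step (hR : S_QRES) (hG : S_QGLUE) (hL : S_QLOC) {B : Set Str} {b : ℕ} (hstd : Std B b)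
    {m : ℕ} {u : Str} (hu : u ∈ Av Pos B) (hun : u.n = m)
    (i1 : u.R 0 (m - 1) = false) (i2 : u.R (m - 1) 0 = false)
    (H : ∀ x < m, ∀ z < m, u.R x 0 = true → u.R (m - 1) z = true →
      (x = 0 ∧ z = m - 1) ∨ u.R x z = true)
    (p q : ℕ) (hp : 1 ≤ p) (hq : 1 ≤ q) (hpm : p + b ≤ m - 1) (hqm : q + b ≤ m - 1)
    (e0 : Win b u p u q) (e1 : ∀ w < b, u.R 0 (p + w) = u.R 0 (q + w))
    (e2 : ∀ w < b, u.R (p + w) 0 = u.R (q + w) 0)
    (e3 : ∀ w < b, u.R (m - 1) (p + w) = u.R (m - 1) (q + w)) :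
    b < p + (m - q) ∧ FreeP (Av Pos B) (p + (m - q)) := by
  have hb : 1 ≤ b := hstd.1
  have hr := hu.1.1
  have ht : ∀ i < m, ∀ j < m, ∀ k < m, u.R i j = true → u.R j k = true → u.R i k = true := by
    intro i hi j hj k hk
    exact hu.1.2.2 i (by omega) j (by omega) k (by omega)
  obtain ⟨y, hy, hyn, f1, f2, c1, c2⟩ := hG B b hstd b le_rfl (win u 0 (p + b))
    ((hR B).2 u hu _ _ (by omega)) (win u q (m - q)) ((hR B).2 u hu _ _ (by omega))
    (show b ≤ p + b by omega) (show b ≤ m - q by omega) (by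
      intro s hs t ht
      show u.R (0 + (p + b - b + s)) (0 + (p + b - b + t)) = u.R (q + (0 + s)) (q + (0 + t))
      have h := e0 s hs t ht
      rw [show 0 + (p + b - b + s) = p + s by omega, show 0 + (p + b - b + t) = p + t by omega,
        Nat.zero_add, Nat.zero_add]
      exact h)
  have hyn' : y.n = p + (m - q) := by
    have h : y.n + b = (p + b) + (m - q) := hyn
    omega
  have hLn : (win u 0 (p + b)).n - b = p := show p + b - b = p by omega
  rw [hLn] at f2 c1 c2
  have g1 : ∀ s < p + b, ∀ t < p + b, y.R s t = u.R s t := by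
    intro s hs t ht
    have h : y.R (0 + s) (0 + t) = u.R (0 + (0 + s)) (0 + (0 + t)) := f1 s hs t ht
    simpa only [Nat.zero_add] using h
  have g2 : ∀ s < m - q, ∀ t < m - q, y.R (p + s) (p + t) = u.R (q + s) (q + t) := by
    intro s hs t ht
    have h : y.R (p + s) (p + t) = u.R (q + (0 + s)) (q + (0 + t)) := f2 s hs t ht
    simpa only [Nat.zero_add] using h
  have k1 : ∀ s < p + b, ∀ t < m - q, y.R s (p + t) = true →
      ∃ w < b, u.R s (p + w) = true ∧ u.R (q + w) (q + t) = true := by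
    intro s hs t ht h
    obtain ⟨w, hw, h1, h2⟩ := c1 s hs t ht h
    have h1' : u.R (0 + s) (0 + (p + w)) = true := h1
    rw [Nat.zero_add, Nat.zero_add] at h1'
    exact ⟨w, hw, h1', h2⟩
  have k2 : ∀ s < p + b, ∀ t < m - q, y.R (p + t) s = true →
      ∃ w < b, u.R (q + t) (q + w) = true ∧ u.R (p + w) s = true := by
    intro s hs t ht h
    obtain ⟨w, hw, h1, h2⟩ := c2 s hs t ht h
    have h2' : u.R (0 + (p + w)) (0 + s) = true := h2
    rw [Nat.zero_add, Nat.zero_add] at h2'
    exact ⟨w, hw, h1, h2'⟩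
  have hlast : y.n - 1 = p + (m - 1 - q) := by omega
  -- (1)
  have n1 : y.R 0 (y.n - 1) = false := by
    by_contra hc
    rw [Bool.not_eq_false, hlast] at hc
    obtain ⟨w, hw, h1, h2⟩ := k1 0 (by omega) (m - 1 - q) (by omega) hc
    rw [e1 w hw] at h1
    rw [show q + (m - 1 - q) = m - 1 by omega] at h2
    have := ht 0 (by omega) (q + w) (by omega) (m - 1) (by omega) h1 h2
    rw [i1] at this
    cases this
  have n2 : y.R (y.n - 1) 0 = false := by
    by_contra hc
    rw [Bool.not_eq_false, hlast] at hc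
    obtain ⟨w, hw, h1, h2⟩ := k2 0 (by omega) (m - 1 - q) (by omega) hc
    rw [e2 w hw] at h2
    rw [show q + (m - 1 - q) = m - 1 by omega] at h1
    have := ht (m - 1) (by omega) (q + w) (by omega) 0 (by omega) h1 h2
    rw [i2] at this
    cases this
  -- (2), (3)
  have d1 : ∀ x < p + b, y.R x 0 = true → u.R x 0 = true := by
    intro x hx h
    rwa [g1 x hx 0 (by omega)] at h
  have d2 : ∀ t < m - q, y.R (p + t) 0 = true → u.R (q + t) 0 = true := by
    intro t htm h
    obtain ⟨w, hw, h1, h2⟩ := k2 0 (by omega) t htm h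
    rw [e2 w hw] at h2
    exact ht (q + t) (by omega) (q + w) (by omega) 0 (by omega) h1 h2
  have d3 : ∀ t < m - q, y.R (y.n - 1) (p + t) = true → u.R (m - 1) (q + t) = true := by
    intro t htm h
    rw [hlast, g2 _ (by omega) t htm, show q + (m - 1 - q) = m - 1 by omega] at h
    exact h
  have d4 : ∀ z < p + b, y.R (y.n - 1) z = true → u.R (m - 1) z = true := by
    intro z hz h
    rw [hlast] at h
    obtain ⟨w, hw, h1, h2⟩ := k2 z hz (m - 1 - q) (by omega) h
    rw [show q + (m - 1 - q) = m - 1 by omega, ← e3 w hw] at h1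
    exact ht (m - 1) (by omega) (p + w) (by omega) z (by omega) h1 h2
  -- windows
  have hwin : ∀ (e : Bool) (k : ℕ), k + b ≤ y.n → Win b (add y e) k y k := by
    intro e k hk s hs t htb
    rw [Bool.eq_iff_iff, add_true]
    constructor
    · rintro (h | ⟨h1, h2, -⟩)
      · exact h
      · by_cases hkp : k ≤ p
        · have h3 := d1 (k + s) (by omega) h1
          have h4 := d4 (k + t) (by omega) h2
          rcases H (k + s) (by omega) (k + t) (by omega) h3 h4 with h5 | h5
          · omega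
          · rw [g1 (k + s) (by omega) (k + t) (by omega)]
            exact h5
        · obtain ⟨a, ha⟩ : ∃ a, k + s = p + a := ⟨k + s - p, by omega⟩
          obtain ⟨c, hc⟩ : ∃ c, k + t = p + c := ⟨k + t - p, by omega⟩
          rw [ha] at h1
          rw [hc] at h2
          have h3 := d2 a (by omega) h1
          have h4 := d3 c (by omega) h2
          rcases H (q + a) (by omega) (q + c) (by omega) h3 h4 with h5 | h5
          · omega
          · rw [ha, hc, g2 a (by omega) c (by omega)]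
            exact h5
    · exact fun h => Or.inl h
  have hmem : ∀ e : Bool, add y e ∈ Av Pos B := by
    intro e
    refine hL B b hstd (add y e) (add_pos y e hy.1 (by omega) n2) (show b ≤ y.n by omega) ?_
    intro k hk
    exact ⟨y, hy, k, hk, hwin e k hk⟩
  refine ⟨by omega, add y true, hmem true, add y false, hmem false, hyn', hyn', ?_, ?_⟩
  · intro s _ t _ hne
    by_contra hc
    apply hne
    rw [Bool.eq_iff_iff, add_true, add_true, hyn']
    constructor
    · rintro (h | ⟨h1, h2, h3⟩)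
      · exact Or.inl h
      · exact Or.inr ⟨h1, h2, fun h => by cases h.1⟩
    · rintro (h | ⟨h1, h2, h3⟩)
      · exact Or.inl h
      · exact Or.inr ⟨h1, h2, fun h => hc (Or.inl h.2)⟩
  · left
    intro h
    have h1 : (add y false).R 0 (p + (m - q) - 1) = true := by
      rw [add_true, ← hyn']
      exact Or.inr ⟨hy.1.1 0 (by omega), hy.1.1 _ (by omega), fun h => by cases h.1⟩
    rw [← h, add_true, ← hyn', n1] at h1
    rcases h1 with h1 | ⟨-, -, h1⟩
    · cases h1
    · exact h1 ⟨rfl, rfl, rfl⟩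

/-- the conclusion -/
def Concl (C : Set Str) (b m : ℕ) : Prop :=
  (∃ m', b < m' ∧ m' < m ∧ m ≤ m' + KK b ∧ FreeP C m') ∧ ∃ m', m < m' ∧ FreeP C m'

theorem core (hR : S_QRES) (hG : S_QGLUE) (hL : S_QLOC) {B : Set Str} {b : ℕ} (hstd : Std B b)
    {m : ℕ} (hm : KK b ≤ m) {u : Str} (hu : u ∈ Av Pos B) (hun : u.n = m)
    (i1 : u.R 0 (m - 1) = false) (i2 : u.R (m - 1) 0 = false)
    (H : ∀ x < m, ∀ z < m, u.R x 0 = true → u.R (m - 1) z = true →
      (x = 0 ∧ z = m - 1) ∨ u.R x z = true) : Concl (Av Pos B) b m := by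
  classical
  set Q := 2 ^ (b * b) * 8 ^ b with hQ
  have hKK : KK b = b + Q + 2 := rfl
  let F : Fin (Q + 1) → (Fin b × Fin b → Bool) × ((Fin b → Bool) × (Fin b → Bool) × (Fin b → Bool)) :=
    fun i => (fun st => u.R (i.val + 1 + st.1.val) (i.val + 1 + st.2.val),
      (fun w => u.R 0 (i.val + 1 + w.val)), (fun w => u.R (i.val + 1 + w.val) 0),
      (fun w => u.R (m - 1) (i.val + 1 + w.val)))
  obtain ⟨i, j, hij, hF⟩ : ∃ i j : Fin (Q + 1), i ≠ j ∧ F i = F j := by
    apply Fintype.exists_ne_map_eq_of_card_lt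
    simp only [Fintype.card_prod, Fintype.card_fun, Fintype.card_bool, Fintype.card_fin]
    have : (8 : ℕ) ^ b = 2 ^ b * (2 ^ b * 2 ^ b) := by
      rw [show (8 : ℕ) = 2 * (2 * 2) by norm_num, Nat.mul_pow, Nat.mul_pow]
    rw [← this]
    omega
  have key : ∀ i j : Fin (Q + 1), F i = F j →
      b < (i.val + 1) + (m - (j.val + 1)) ∧ FreeP (Av Pos B) ((i.val + 1) + (m - (j.val + 1))) := by
    intro i j hF
    have hi := i.isLt
    have hj := j.isLt
    have hF1 := congrArg Prod.fst hF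
    have hF2 := congrArg (fun x => x.2.1) hF
    have hF3 := congrArg (fun x => x.2.2.1) hF
    have hF4 := congrArg (fun x => x.2.2.2) hF
    refine step hR hG hL hstd hu hun i1 i2 H (i.val + 1) (j.val + 1) (by omega) (by omega)
      (by omega) (by omega) ?_ ?_ ?_ ?_
    · intro s hs t ht
      exact congrFun hF1 (⟨s, hs⟩, ⟨t, ht⟩)
    · intro w hw
      exact congrFun hF2 ⟨w, hw⟩
    · intro w hw
      exact congrFun hF3 ⟨w, hw⟩
    · intro w hw
      exact congrFun hF4 ⟨w, hw⟩
  have hfin : ∀ i j : Fin (Q + 1), i.val < j.val → F i = F j → Concl (Av Pos B) b m := by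
    intro i j hlt hF
    have hj := j.isLt
    obtain ⟨a1, a2⟩ := key i j hF
    obtain ⟨a3, a4⟩ := key j i hF.symm
    exact ⟨⟨_, a1, by omega, by omega, a2⟩, ⟨_, by omega, a4⟩⟩
  rcases Nat.lt_or_ge i.val j.val with h | h
  · exact hfin i j h hF
  · exact hfin j i (lt_of_le_of_ne h (fun h' => hij (Fin.ext h'.symm))) hF.symm

theorem inter (hR : S_QRES) (hG : S_QGLUE) (hL : S_QLOC) {B : Set Str} {b : ℕ} (hstd : Std B b)
    {m : ℕ} (hm : KK b ≤ m) {u u' : Str} (hu : u ∈ Av Pos B) (hu' : u' ∈ Av Pos B)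
    (hFP : FP u u' m) (h1 : u.R 0 (m - 1) = false) (h2 : u'.R 0 (m - 1) = true) :
    Concl (Av Pos B) b m := by
  obtain ⟨hun, hun', hd, -⟩ := hFP
  have hKK : KK b = b + 2 ^ (b * b) * 8 ^ b + 2 := rfl
  have hb : 1 ≤ b := hstd.1
  have hag : ∀ s t, s < m → t < m → ¬ (s = 0 ∧ t = m - 1) → ¬ (s = m - 1 ∧ t = 0) →
      u.R s t = u'.R s t := by
    intro s t hs ht h1 h2
    by_contra hc
    rcases hd s hs t ht hc with h | h
    · exact h1 h
    · exact h2 h
  let v : Str := ⟨m, fun i j => u.R i j && u'.R i j⟩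
  have hv : ∀ i j, v.R i j = true ↔ u.R i j = true ∧ u'.R i j = true := by
    intro i j
    simp only [v, Bool.and_eq_true]
  have hpos : Pos v := by
    refine ⟨?_, ?_, ?_⟩
    · intro i hi
      have hi' : i < m := hi
      exact (hv i i).2 ⟨hu.1.1 i (by omega), hu'.1.1 i (by omega)⟩
    · intro i hi j hj hij h
      have hi' : i < m := hi
      have hj' : j < m := hj
      have h3 := hu.1.2.1 i (by omega) j (by omega) hij ((hv i j).1 h).1
      show (u.R j i && u'.R j i) = false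
      rw [h3, Bool.false_and]
    · intro i hi j hj k hk h h'
      have hi' : i < m := hi
      have hj' : j < m := hj
      have hk' : k < m := hk
      rw [hv] at h h' ⊢
      exact ⟨hu.1.2.2 i (by omega) j (by omega) k (by omega) h.1 h'.1,
        hu'.1.2.2 i (by omega) j (by omega) k (by omega) h.2 h'.2⟩
  have hvC : v ∈ Av Pos B := by
    refine hL B b hstd v hpos (show b ≤ m by omega) ?_
    intro k hk
    have hk' : k + b ≤ m := hk
    refine ⟨u, hu, k, by omega, ?_⟩
    intro s hs t ht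
    show (u.R (k + s) (k + t) && u'.R (k + s) (k + t)) = u.R (k + s) (k + t)
    rw [← hag (k + s) (k + t) (by omega) (by omega) (by omega) (by omega), Bool.and_self]
  have h3 : u'.R (m - 1) 0 = false :=
    hu'.1.2.1 0 (by omega) (m - 1) (by omega) (by omega) h2
  refine core hR hG hL hstd hm hvC rfl ?_ ?_ ?_
  · show (u.R 0 (m - 1) && u'.R 0 (m - 1)) = false
    rw [h1, Bool.false_and]
  · show (u.R (m - 1) 0 && u'.R (m - 1) 0) = false
    rw [h3, Bool.and_false]
  · intro x hx z hz hx0 hz0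
    rw [hv] at hx0 hz0
    have h4 := hu'.1.2.2 x (by omega) 0 (by omega) (m - 1) (by omega) hx0.2 h2
    have h5 := hu'.1.2.2 x (by omega) (m - 1) (by omega) z (by omega) h4 hz0.2
    by_cases hc : x = 0 ∧ z = m - 1
    · exact Or.inl hc
    · right
      have hc2 : ¬ (x = m - 1 ∧ z = 0) := by
        rintro ⟨rfl, rfl⟩
        rw [h3] at h5
        cases h5
      rw [hv]
      exact ⟨(hag x z hx hz hc hc2).trans h5, h5⟩

/-- the reversed structure -/
def op (x : Str) : Str := ⟨x.n, fun i j => x.R j i⟩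

theorem op_pos {x : Str} (h : Pos x) : Pos (op x) := by
  refine ⟨h.1, ?_, ?_⟩
  · intro i hi j hj hij h2
    exact h.2.1 j hj i hi (fun h' => hij h'.symm) h2
  · intro i hi j hj k hk h2 h3
    exact h.2.2 k hk j hj i hi h3 h2

theorem op_emb {x y : Str} (h : Emb x y) : Emb (op x) (op y) := by
  obtain ⟨k, hk, he⟩ := h
  exact ⟨k, hk, fun i hi j hj => he j hj i hi⟩

theorem op_av {B : Set Str} {x : Str} (h : x ∈ Av Pos B) : op x ∈ Av Pos (op '' B) := by
  refine ⟨op_pos h.1, ?_⟩
  rintro _ ⟨y, hy, rfl⟩ he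
  exact h.2 y hy (op_emb he)

theorem op_free {B : Set Str} {m : ℕ} (h : FreeP (Av Pos (op '' B)) m) : FreeP (Av Pos B) m := by
  have hB : op '' (op '' B) = B := by
    rw [← Set.image_comp]
    exact Set.image_id B
  obtain ⟨u, hu, u', hu', h1, h2, h3, h4⟩ := h
  have k := op_av hu
  have k' := op_av hu'
  rw [hB] at k k'
  refine ⟨op u, k, op u', k', h1, h2, ?_, ?_⟩
  · intro s hs t ht hne
    rcases h3 t ht s hs hne with h | h
    · exact Or.inr ⟨h.2, h.1⟩
    · exact Or.inl ⟨h.2, h.1⟩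
  · rcases h4 with h | h
    · exact Or.inr h
    · exact Or.inl h

theorem inter' (hR : S_QRES) (hG : S_QGLUE) (hL : S_QLOC) {B : Set Str} {b : ℕ} (hstd : Std B b)
    {m : ℕ} (hm : KK b ≤ m) {u u' : Str} (hu : u ∈ Av Pos B) (hu' : u' ∈ Av Pos B)
    (hFP : FP u u' m) (h : u.R 0 (m - 1) ≠ u'.R 0 (m - 1)) : Concl (Av Pos B) b m := by
  have hFP' : FP u' u m := by
    obtain ⟨h1, h2, h3, h4⟩ := hFP
    refine ⟨h2, h1, fun s hs t ht hne => h3 s hs t ht (fun e => hne e.symm), ?_⟩
    rcases h4 with h4 | h4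
    · exact Or.inl (fun e => h4 e.symm)
    · exact Or.inr (fun e => h4 e.symm)
  cases hc : u.R 0 (m - 1)
  · refine inter hR hG hL hstd hm hu hu' hFP hc ?_
    cases hc' : u'.R 0 (m - 1)
    · rw [hc, hc'] at h; exact (h rfl).elim
    · rfl
  · refine inter hR hG hL hstd hm hu' hu hFP' ?_ hc
    cases hc' : u'.R 0 (m - 1)
    · rfl
    · rw [hc, hc'] at h; exact (h rfl).elim

end QPUMP3

open QPUMP3 in
theorem QPUMP3 (hR : S_QRES) (hG : S_QGLUE) (hL : S_QLOC) : S_QPUMP := by
  intro B b hstd m hm hF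
  obtain ⟨u, hu, u', hu', hFP⟩ := hF
  by_cases h : u.R 0 (m - 1) ≠ u'.R 0 (m - 1)
  · exact inter' hR hG hL hstd hm hu hu' hFP h
  · have h4 : u.R (m - 1) 0 ≠ u'.R (m - 1) 0 := by
      rcases hFP.2.2.2 with h5 | h5
      · exact (h h5).elim
      · exact h5
    have hstd' : Std (op '' B) b := by
      refine ⟨hstd.1, ?_⟩
      rintro _ ⟨y, hy, rfl⟩
      exact hstd.2 y hy
    have hFP' : FP (op u) (op u') m := by
      obtain ⟨h1, h2, h3, h5⟩ := hFP
      refine ⟨h1, h2, ?_, ?_⟩
      · intro s hs t ht hne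
        rcases h3 t ht s hs hne with h | h
        · exact Or.inr ⟨h.2, h.1⟩
        · exact Or.inl ⟨h.2, h.1⟩
      · rcases h5 with h | h
        · exact Or.inr h
        · exact Or.inl h
    obtain ⟨⟨m1, a1, a2, a3, a4⟩, ⟨m2, b1, b2⟩⟩ :=
      inter' hR hG hL hstd' hm (op_av hu) (op_av hu') hFP' h4
    exact ⟨⟨m1, a1, a2, a3, op_free a4⟩, ⟨m2, b1, op_free b2⟩⟩

end Pool.Agent.R474.CE
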