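import Pool.Agent.R474.CE.StmQ

/-!
# CE-QPW: the coded criterion for wqo of posets is primitive recursive
-/

set_option autoImplicit false
set_option linter.all false

namespace Pool.Agent.R474.CE

namespace QPW

theorem fal {α : Type} [Primcodable α] {f : α → ℕ} {P : ℕ → α → Prop} (hf : Primrec f)
    (hP : PrimrecPred (fun q : ℕ × α => P q.1 q.2)) : PrimrecPred (fun a => ∀ x < f a, P x a) := by
  have h1 : PrimrecRel P := hP
  have h2 := h1.forall_mem_list.comp (Primrec.list_range.comp hf) Primrec.id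
  exact h2.of_eq (by intro a; simp)

theorem imp {α : Type} [Primcodable α] {p q : α → Prop} (hp : PrimrecPred p)
    (hq : PrimrecPred q) : PrimrecPred (fun a => p a → q a) :=
  (hp.not.or hq).of_eq (by intro a; by_cases h : p a <;> simp [h])

theorem ppow : Primrec₂ (fun a b : ℕ => a ^ b) := Primrec₂.unpaired'.1 Nat.Primrec.pow

theorem pKK : Primrec KK := by
  have h1 : Primrec (fun b : ℕ => 2 ^ (b * b)) :=
    ppow.comp (Primrec.const 2) (Primrec.nat_mul.comp Primrec.id Primrec.id)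
  have h2 : Primrec (fun b : ℕ => 8 ^ b) := ppow.comp (Primrec.const 8) Primrec.id
  have h3 : Primrec (fun b : ℕ => b + 2 ^ (b * b) * 8 ^ b + 2) :=
    Primrec.nat_add.comp (Primrec.nat_add.comp Primrec.id (Primrec.nat_mul.comp h1 h2))
      (Primrec.const 2)
  exact h3

theorem pTT : Primrec TT := by
  have h1 : Primrec (fun b : ℕ => 2 ^ (b * b)) :=
    ppow.comp (Primrec.const 2) (Primrec.nat_mul.comp Primrec.id Primrec.id)
  have h3 : Primrec (fun D : ℕ => 2 ^ (D * D) + 2 * D + 4) :=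
    Primrec.nat_add.comp (Primrec.nat_add.comp h1
      (Primrec.nat_mul.comp (Primrec.const 2) Primrec.id)) (Primrec.const 4)
  exact h3

theorem psq {α : Type} [Primcodable α] {f : α → ℕ} (hf : Primrec f) :
    Primrec (fun a => 2 ^ (f a * f a)) :=
  ppow.comp (Primrec.const 2) (Primrec.nat_mul.comp hf hf)

end QPW

open QPW in
theorem QPW (hF : S_QPFR) (hM : S_QPMK) (hB : S_PBD) : S_QPW := by
  have hbd : Primrec bd := hB.1
  have hK : Primrec (fun B : Inp => KK (bd B)) := pKK.comp hbd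
  have hT : Primrec (fun B : Inp => TT (KK (bd B))) := pTT.comp hK
  have b1 : Primrec (fun B : Inp => 2 * KK (bd B) + 1) :=
    Primrec.nat_add.comp (Primrec.nat_mul.comp (Primrec.const 2) hK) (Primrec.const 1)
  have b2 : Primrec (fun B : Inp => 2 * TT (KK (bd B)) + 1) :=
    Primrec.nat_add.comp (Primrec.nat_mul.comp (Primrec.const 2) hT) (Primrec.const 1)
  have f1 : PrimrecPred (fun q : ℕ × Inp => freeC q.2 (2 ^ (q.1 * q.1)) q.1) :=
    PrimrecPred.comp (p := fun q : Inp × ℕ × ℕ => freeC q.1 q.2.1 q.2.2)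
      (f := fun q : ℕ × Inp => (q.2, 2 ^ (q.1 * q.1), q.1)) hF
      (Primrec.snd.pair ((psq Primrec.fst).pair Primrec.fst))
  have f2 : PrimrecPred (fun q : ℕ × Inp => mkC q.2 (2 ^ (q.1 * q.1)) (KK (bd q.2)) q.1) :=
    PrimrecPred.comp (p := fun q : Inp × ℕ × ℕ × ℕ => mkC q.1 q.2.1 q.2.2.1 q.2.2.2)
      (f := fun q : ℕ × Inp => (q.2, 2 ^ (q.1 * q.1), KK (bd q.2), q.1)) hM
      (Primrec.snd.pair ((psq Primrec.fst).pair ((hK.comp Primrec.snd).pair Primrec.fst)))
  have l1 : PrimrecPred (fun q : ℕ × Inp => KK (bd q.2) ≤ q.1) :=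
    Primrec.nat_le.comp (hK.comp Primrec.snd) Primrec.fst
  have l2 : PrimrecPred (fun q : ℕ × Inp => TT (KK (bd q.2)) ≤ q.1) :=
    Primrec.nat_le.comp (hT.comp Primrec.snd) Primrec.fst
  have g1 : PrimrecPred (fun B : Inp => ∀ m < 2 * KK (bd B) + 1, KK (bd B) ≤ m →
      ¬ freeC B (2 ^ (m * m)) m) :=
    fal (P := fun m B => KK (bd B) ≤ m → ¬ freeC B (2 ^ (m * m)) m) b1 (imp l1 f1.not)
  have g2 : PrimrecPred (fun B : Inp => ∀ n < 2 * TT (KK (bd B)) + 1, TT (KK (bd B)) ≤ n →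
      ¬ mkC B (2 ^ (n * n)) (KK (bd B)) n) :=
    fal (P := fun n B => TT (KK (bd B)) ≤ n → ¬ mkC B (2 ^ (n * n)) (KK (bd B)) n) b2
      (imp l2 f2.not)
  exact g1.and g2

end Pool.Agent.R474.CE
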