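import Pool.Agent.R474.CE.StmQ

set_option autoImplicit false

namespace Pool.Agent.R474.CE

namespace QRES

lemma trans {w y x : Str} (h1 : Emb w y) (h2 : Emb y x) : Emb w x := by
  obtain ⟨k, hk, hk'⟩ := h1
  obtain ⟨l, hl, hl'⟩ := h2
  refine ⟨l + k, by omega, fun i hi j hj => ?_⟩
  rw [hk' i hi j hj, hl' (k + i) (by omega) (k + j) (by omega)]
  simp only [Nat.add_assoc]

lemma pos_of_emb {y x : Str} (hx : Pos x) (h : Emb y x) : Pos y := by
  obtain ⟨k, hk, hR⟩ := h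
  obtain ⟨h1, h2, h3⟩ := hx
  refine ⟨fun i hi => ?_, fun i hi j hj hij h => ?_, fun i hi j hj l hl h h' => ?_⟩
  · rw [hR i hi i hi]; exact h1 _ (by omega)
  · rw [hR i hi j hj] at h
    rw [hR j hj i hi]
    exact h2 _ (by omega) _ (by omega) (by omega) h
  · rw [hR i hi j hj] at h
    rw [hR j hj l hl] at h'
    rw [hR i hi l hl]
    exact h3 _ (by omega) _ (by omega) _ (by omega) h h'

lemma av_of_emb {B : Set Str} {y x : Str} (hx : x ∈ Av Pos B) (h : Emb y x) : y ∈ Av Pos B :=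
  ⟨pos_of_emb hx.1 h, fun w hw hwy => hx.2 w hw (trans hwy h)⟩

end QRES

theorem QRES : S_QRES := by
  intro B
  refine ⟨fun x hx y hy => QRES.av_of_emb hx hy, fun x hx k m hkm => QRES.av_of_emb hx ?_⟩
  exact ⟨k, hkm, fun i _ j _ => rfl⟩

end Pool.Agent.R474.CE
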