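import Pool.Agent.R474.CE.StmQ

set_option autoImplicit false

namespace Pool.Agent.R474.CE

namespace QSTR

variable {E : Type} {R : E → E → Prop}

/-- a walk with `n` steps inside `P` -/
def Wk (R : E → E → Prop) (P : E → Prop) (n : ℕ) (x y : E) : Prop :=
  ∃ w : ℕ → E, w 0 = x ∧ w n = y ∧ (∀ t < n, R (w t) (w (t + 1))) ∧ ∀ t ≤ n, P (w t)

lemma Wk.trans {P : E → Prop} {n m : ℕ} {x y z : E} (h1 : Wk R P n x y) (h2 : Wk R P m y z) :
    Wk R P (n + m) x z := by
  obtain ⟨w, a1, a2, a3, a4⟩ := h1
  obtain ⟨u, b1, b2, b3, b4⟩ := h2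
  refine ⟨fun t => if t ≤ n then w t else u (t - n), ?_, ?_, ?_, ?_⟩
  · simp [a1]
  · by_cases hm : m = 0
    · subst hm
      simp [a2, ← b2, b1]
    · have : ¬ (n + m ≤ n) := by omega
      simp only [if_neg this]
      simpa using b2
  · intro t ht
    by_cases h1 : t + 1 ≤ n
    · simp only [if_pos h1, if_pos (show t ≤ n by omega)]
      exact a3 t (by omega)
    · simp only [if_neg h1]
      by_cases h2 : t ≤ n
      · have : t = n := by omega
        subst this
        simp only [if_pos le_rfl]
        rw [a2, ← b1]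
        have := b3 0 (by omega)
        simpa using this
      · simp only [if_neg h2]
        have := b3 (t - n) (by omega)
        have e : t + 1 - n = t - n + 1 := by omega
        rw [e]
        exact this
  · intro t ht
    by_cases h : t ≤ n
    · simp only [if_pos h]
      exact a4 t h
    · simp only [if_neg h]
      exact b4 _ (by omega)

lemma Wk.iter {P : E → Prop} {m : ℕ} {v : E} (h : Wk R P m v v) (k : ℕ) :
    Wk R P (m * k) v v := by
  induction k with
  | zero =>
    obtain ⟨w, a1, a2, a3, a4⟩ := h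
    exact ⟨fun _ => v, rfl, rfl, fun t ht => by omega, fun t _ => by
      have := a4 0 (Nat.zero_le _)
      rw [a1] at this
      exact this⟩
  | succ k ih =>
    have := ih.trans h
    have e : m * (k + 1) = m * k + m := by ring
    rw [e]
    exact this

/-- bounded marker words -/
def HM (R : E → E → Prop) (T : ℕ) : Prop := ∀ (n : ℕ) (w : ℕ → E),
  (∀ t, t + 1 < n → R (w t) (w (t + 1))) → 2 ≤ n →
    (∀ t, 0 < t → t + 1 < n → w t ≠ w 0 ∧ w t ≠ w (n - 1)) → n ≤ T

lemma HM.rev {T : ℕ} (H : HM R T) : HM (fun x y => R y x) T := by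
  intro n w h1 h2 h3
  refine H n (fun t => w (n - 1 - t)) ?_ h2 ?_
  · intro t ht
    have e : n - 1 - t = n - 1 - (t + 1) + 1 := by omega
    have := h1 (n - 1 - (t + 1)) (by omega)
    rw [← e] at this
    exact this
  · intro t h0 ht
    have := h3 (n - 1 - t) (by omega) (by omega)
    refine ⟨?_, ?_⟩
    · simpa using this.2
    · have e : n - 1 - (n - 1) = 0 := by omega
      simp only [e]
      exact this.1

/-- no marker words through a recurrent letter -/
lemma keyM {T : ℕ} (H : HM R T) {P : E → Prop} {n m l : ℕ} {a d s s' v : E} (hm : 1 ≤ m)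
    (h1 : Wk R P n s v) (h2 : Wk R P m v v) (h3 : Wk R P l v s') (ha : R a s) (hd : R s' d)
    (hPa : ¬ P a) (hPd : ¬ P d) : False := by
  obtain ⟨w, a1, a2, a3, a4⟩ := (h1.trans (h2.iter T)).trans h3
  have hmT : T ≤ m * T := Nat.le_mul_of_pos_left T hm
  set L := n + m * T + l with hL
  have := H (L + 3) (fun t => if t = 0 then a else if t ≤ L + 1 then w (t - 1) else d) ?_ (by omega)
    ?_
  · omega
  · intro t ht
    by_cases h0 : t = 0
    · subst h0
      simp [a1, ha]
    · by_cases h1 : t ≤ L
      · simp only [if_neg h0, if_pos (show t ≤ L + 1 by omega), if_neg (show ¬ t + 1 = 0 by omega),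
          if_pos (show t + 1 ≤ L + 1 by omega)]
        have := a3 (t - 1) (by omega)
        have e : t - 1 + 1 = t + 1 - 1 := by omega
        rw [e] at this
        exact this
      · have h2 : t = L + 1 := by omega
        subst h2
        simp [a2, hd]
  · intro t h0 ht
    simp only [if_neg (show ¬ t = 0 by omega), if_pos (show t ≤ L + 1 by omega), if_true,
      if_neg (show ¬ (L + 3 - 1 = 0) by omega), if_neg (show ¬ (L + 3 - 1 ≤ L + 1) by omega)]
    have hP := a4 (t - 1) (by omega)
    exact ⟨fun h => hPa (h ▸ hP), fun h => hPd (h ▸ hP)⟩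

/-- reachability by walks -/
lemma wk_of_trans {x y : E} (h : Relation.TransGen R x y) :
    ∃ n, 1 ≤ n ∧ Wk R (fun _ => True) n x y := by
  induction h with
  | single h =>
    rename_i b
    exact ⟨1, le_rfl, fun t => if t = 0 then x else b, by simp, by simp, fun t ht => by
      have : t = 0 := by omega
      subst this
      simpa using h, fun _ _ => trivial⟩
  | tail _ h ih =>
    rename_i b c _
    obtain ⟨n, hn, hw⟩ := ih
    refine ⟨n + 1, by omega, hw.trans ?_⟩
    exact ⟨fun t => if t = 0 then b else c, by simp, by simp, fun t ht => by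
      have : t = 0 := by omega
      subst this
      simpa using h, fun _ _ => trivial⟩

lemma trans_of_walk {w : ℕ → E} {n : ℕ} (h : ∀ t < n, R (w t) (w (t + 1))) :
    ∀ s t, s < t → t ≤ n → Relation.TransGen R (w s) (w t) := by
  intro s t hst htn
  induction t with
  | zero => omega
  | succ t ih =>
    rcases Nat.lt_or_ge s t with h1 | h1
    · exact (ih h1 (by omega)).tail (h t (by omega))
    · have : s = t := by omega
      subst this
      exact Relation.TransGen.single (h s (by omega))

/-- a walk from `g` to `v`, `g` only at the beginning -/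
lemma last_g {n : ℕ} {g v : E} (h : Wk R (fun _ => True) n g v) (hgv : g ≠ v) :
    ∃ s m, R g s ∧ Wk R (fun x => x ≠ g) m s v := by
  classical
  obtain ⟨w, a1, a2, a3, -⟩ := h
  have hex : ∃ k, k ≤ n ∧ w k = g := ⟨0, Nat.zero_le _, a1⟩
  obtain ⟨k, ⟨hk, hwk⟩, hmax⟩ : ∃ k, (k ≤ n ∧ w k = g) ∧ ∀ k', k < k' → ¬ (k' ≤ n ∧ w k' = g) := by
    have hne : ((Finset.range (n + 1)).filter (fun k => w k = g)).Nonempty :=
      ⟨0, by simp [a1]⟩
    refine ⟨((Finset.range (n + 1)).filter (fun k => w k = g)).max' hne, ?_, fun k' hk' => ?_⟩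
    · have := Finset.max'_mem _ hne
      rw [Finset.mem_filter, Finset.mem_range] at this
      exact ⟨by omega, this.2⟩
    · rintro ⟨h1, h2⟩
      have := Finset.le_max' ((Finset.range (n + 1)).filter (fun k => w k = g)) k'
        (by rw [Finset.mem_filter, Finset.mem_range]; exact ⟨by omega, h2⟩)
      omega
  have hkn : k < n := by
    rcases hk.lt_or_eq with h | h
    · exact h
    · subst h
      exact absurd (hwk.symm.trans a2) hgv
  refine ⟨w (k + 1), n - (k + 1), by rw [← hwk]; exact a3 k hkn, fun t => w (k + 1 + t), rfl, ?_,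
    fun t ht => ?_, fun t ht => ?_⟩
  · show w (k + 1 + (n - (k + 1))) = v
    rw [show k + 1 + (n - (k + 1)) = n by omega, a2]
  · exact a3 (k + 1 + t) (by omega)
  · intro h
    exact hmax (k + 1 + t) (by omega) ⟨by omega, h⟩

/-- the successor inside the class is unique -/
lemma succ_unique {T : ℕ} (H : HM R T) {v f g : E} (hf : R v f) (hg : R v g)
    (hfv : Relation.TransGen R f v) (hgv : Relation.TransGen R g v) : f = g := by
  classical
  by_contra hfg
  have hex : ∃ m, 1 ≤ m ∧ Wk R (fun _ => True) m v v :=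
    wk_of_trans (Relation.TransGen.head hf hfv)
  set m := Nat.find hex with hm
  obtain ⟨hm1, c, c0, cm, cs, -⟩ := Nat.find_spec hex
  have hmin : ∀ m', m' < m → ¬ (1 ≤ m' ∧ Wk R (fun _ => True) m' v v) :=
    fun m' h => Nat.find_min hex h
  -- the main argument
  have main : ∀ g : E, R v g → Relation.TransGen R g v → c 1 ≠ g → False := by
    intro g hg hgv hc1
    have hav : ∀ t ≤ m, 1 ≤ t → c t ≠ g := by
      intro t ht h1 hct
      rcases h1.eq_or_lt with h | h
      · exact hc1 (by rw [h]; exact hct)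
      · -- shorter closed walk
        refine hmin (1 + (m - t)) (by omega) ⟨by omega, ?_⟩
        have w1 : Wk R (fun _ => True) 1 v g :=
          ⟨fun t => if t = 0 then v else g, by simp, by simp, fun t ht => by
            have : t = 0 := by omega
            subst this
            simpa using hg, fun _ _ => trivial⟩
        refine w1.trans ⟨fun s => c (t + s), hct, ?_, fun s hs => cs (t + s) (by omega),
          fun _ _ => trivial⟩
        show c (t + (m - t)) = v
        rw [show t + (m - t) = m by omega]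
        exact cm
    have hvg : v ≠ g := by
      intro h
      exact hav m le_rfl hm1 (by rw [← h]; exact cm)
    obtain ⟨N, -, hN⟩ := wk_of_trans hgv
    obtain ⟨s, k, hgs, hsv⟩ := last_g hN hvg.symm
    refine keyM H (P := fun x => x ≠ g) (m := m) (l := 0) hm1 hsv ?_
      ⟨fun _ => v, rfl, rfl, fun t ht => by omega, fun _ _ => hvg⟩ hgs hg (by simp) (by simp)
    refine ⟨c, c0, cm, cs, fun t ht => ?_⟩
    rcases Nat.eq_zero_or_pos t with h | h
    · rw [h, c0]
      exact hvg
    · exact hav t ht h
  by_cases h : c 1 = g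
  · exact main f hf hfv (fun h' => hfg (h'.symm.trans h))
  · exact main g hg hgv h

/-- same class -/
def CC (R : E → E → Prop) (x y : E) : Prop := Relation.TransGen R x y ∧ Relation.TransGen R y x

lemma CC.symm {x y : E} (h : CC R x y) : CC R y x := ⟨h.2, h.1⟩
lemma CC.trans {x y z : E} (h : CC R x y) (h' : CC R y z) : CC R x z :=
  ⟨h.1.trans h'.1, h'.2.trans h.2⟩

lemma wk_class {n : ℕ} {s s' : E} (h : Wk R (fun _ => True) n s s')
    (h' : CC R s s') : Wk R (fun x => CC R x s) n s s' := by
  obtain ⟨w, a1, a2, a3, -⟩ := h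
  refine ⟨w, a1, a2, a3, fun t ht => ⟨?_, ?_⟩⟩
  · rcases ht.lt_or_eq with h | h
    · have := trans_of_walk a3 t n h le_rfl
      rw [a2] at this
      exact this.trans h'.2
    · rw [h, a2]
      exact h'.2
  · rcases Nat.eq_zero_or_pos t with h | h
    · rw [h, a1]
      exact h'.1.trans h'.2
    · have := trans_of_walk a3 0 t h ht
      rw [a1] at this
      exact this

lemma no_through {T : ℕ} (H : HM R T) {a s s' d : E} (ha : R a s) (hd : R s' d)
    (hs : CC R s s') (hna : ¬ CC R a s) (hnd : ¬ CC R d s) : False := by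
  have hss : CC R s s := hs.trans hs.symm
  obtain ⟨n, -, hn⟩ := wk_of_trans hs.1
  obtain ⟨m, hm, hm'⟩ := wk_of_trans hss.1
  exact keyM H (P := fun x => CC R x s) (n := 0) hm
    ⟨fun _ => s, rfl, rfl, fun t ht => by omega, fun _ _ => hss⟩ (wk_class hm' hss)
    (wk_class hn hs) ha hd hna hnd

/-- a recurrent position is of the left or of the right kind -/
lemma left_or_right {T : ℕ} (H : HM R T) {n : ℕ} {w : ℕ → E}
    (hw : ∀ t, t + 1 < n → R (w t) (w (t + 1))) {t : ℕ} (ht : t < n) (hr : CC R (w t) (w t)) :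
    (∀ t' ≤ t, CC R (w t') (w t)) ∨ ∀ t', t ≤ t' → t' < n → CC R (w t') (w t) := by
  classical
  by_contra hcon
  push Not at hcon
  obtain ⟨⟨t1, h1, h1'⟩, t2, h2, h2n, h2'⟩ := hcon
  have hex1 : ∃ k, k ≤ t ∧ ¬ CC R (w (t - k)) (w t) :=
    ⟨t - t1, by omega, by rw [show t - (t - t1) = t1 by omega]; exact h1'⟩
  have hex2 : ∃ k, t + k < n ∧ ¬ CC R (w (t + k)) (w t) :=
    ⟨t2 - t, by omega, by rw [show t + (t2 - t) = t2 by omega]; exact h2'⟩
  obtain ⟨k1, ⟨hk1, hk1'⟩, hmin1⟩ : ∃ k, (k ≤ t ∧ ¬ CC R (w (t - k)) (w t)) ∧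
      ∀ k' < k, ¬ (k' ≤ t ∧ ¬ CC R (w (t - k')) (w t)) :=
    ⟨Nat.find hex1, Nat.find_spec hex1, fun k' h => Nat.find_min hex1 h⟩
  obtain ⟨k2, ⟨hk2, hk2'⟩, hmin2⟩ : ∃ k, (t + k < n ∧ ¬ CC R (w (t + k)) (w t)) ∧
      ∀ k' < k, ¬ (t + k' < n ∧ ¬ CC R (w (t + k')) (w t)) :=
    ⟨Nat.find hex2, Nat.find_spec hex2, fun k' h => Nat.find_min hex2 h⟩
  have p1 : k1 ≠ 0 := by
    rintro rfl
    exact hk1' (by simpa using hr)
  have p2 : k2 ≠ 0 := by
    rintro rfl
    exact hk2' (by simpa using hr)
  have q1 : CC R (w (t - (k1 - 1))) (w t) := by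
    by_contra h
    exact hmin1 (k1 - 1) (by omega) ⟨by omega, h⟩
  have q2 : CC R (w (t + (k2 - 1))) (w t) := by
    by_contra h
    exact hmin2 (k2 - 1) (by omega) ⟨by omega, h⟩
  have r1 : R (w (t - k1)) (w (t - (k1 - 1))) := by
    have := hw (t - k1) (by omega)
    rw [show t - k1 + 1 = t - (k1 - 1) by omega] at this
    exact this
  have r2 : R (w (t + (k2 - 1))) (w (t + k2)) := by
    have := hw (t + (k2 - 1)) (by omega)
    rw [show t + (k2 - 1) + 1 = t + k2 by omega] at this
    exact this
  exact no_through H r1 r2 (q1.trans q2.symm) (fun h => hk1' (h.trans q1))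
    (fun h => hk2' (h.trans q1))

/-- the decomposition of a word -/
lemma decomp [Finite E] {T : ℕ} (H : HM R T) (n : ℕ) (w : ℕ → E)
    (hw : ∀ t, t + 1 < n → R (w t) (w (t + 1))) :
    ∃ α γ : ℕ, α ≤ γ ∧ γ ≤ n ∧ γ - α ≤ Nat.card E ∧
      (∀ t, t + 1 < α → CC R (w t) (w (t + 1))) ∧
      (∀ t, γ ≤ t → t + 1 < n → CC R (w t) (w (t + 1))) := by
  classical
  have hexA : ∃ t, n ≤ t ∨ ¬ ∀ t' ≤ t, CC R (w t') (w t) := ⟨n, Or.inl le_rfl⟩
  obtain ⟨α, hα, hαmin⟩ : ∃ a, (n ≤ a ∨ ¬ ∀ t' ≤ a, CC R (w t') (w a)) ∧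
      ∀ t < a, ¬ (n ≤ t ∨ ¬ ∀ t' ≤ t, CC R (w t') (w t)) :=
    ⟨Nat.find hexA, Nat.find_spec hexA, fun k' h => Nat.find_min hexA h⟩
  have hαn : α ≤ n := by
    by_contra h
    exact hαmin n (by omega) (Or.inl le_rfl)
  have hexG : ∃ t, α ≤ t ∧ (n ≤ t ∨ ∀ t', t ≤ t' → t' < n → CC R (w t') (w t)) :=
    ⟨n, hαn, Or.inl le_rfl⟩
  obtain ⟨γ, ⟨hγ1, hγ⟩, hγmin⟩ : ∃ a, (α ≤ a ∧ (n ≤ a ∨ ∀ t', a ≤ t' → t' < n →
      CC R (w t') (w a))) ∧
      ∀ t < a, ¬ (α ≤ t ∧ (n ≤ t ∨ ∀ t', t ≤ t' → t' < n → CC R (w t') (w t))) :=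
    ⟨Nat.find hexG, Nat.find_spec hexG, fun k' h => Nat.find_min hexG h⟩
  have hγn : γ ≤ n := by
    by_contra h
    exact hγmin n (by omega) ⟨hαn, Or.inl le_rfl⟩
  refine ⟨α, γ, hγ1, hγn, ?_, ?_, ?_⟩
  · -- the middle letters are different
    have hnr : ∀ t, α ≤ t → t < γ → ¬ CC R (w t) (w t) := by
      intro t h1 h2 hr
      rcases left_or_right H hw (show t < n by omega) hr with h | h
      · -- then α is of the left kind
        rcases hα with h3 | h3
        · omega
        · apply h3
          intro t' ht'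
          exact (h t' (by omega)).trans (h α h1).symm
      · exact hγmin t h2 ⟨h1, Or.inr h⟩
    have hinj : Function.Injective (fun k : Fin (γ - α) => w (α + k)) := by
      have key : ∀ a b : ℕ, a < b → b < γ - α → w (α + a) ≠ w (α + b) := by
        intro a b hab hb heq
        have h1 : Relation.TransGen R (w (α + a)) (w (α + b)) := by
          have := trans_of_walk (w := w) (n := n - 1) (fun t ht => hw t (by omega)) (α + a) (α + b)
            (by omega) (by omega)
          exact this
        rw [← heq] at h1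
        exact hnr (α + a) (by omega) (by omega) ⟨h1, h1⟩
      intro a b hab
      have hab' : w (α + a) = w (α + b) := hab
      rcases lt_trichotomy (a : ℕ) (b : ℕ) with h | h | h
      · exact absurd hab' (key a b h b.2)
      · exact Fin.ext h
      · exact absurd hab'.symm (key b a h a.2)
    have := Nat.card_le_card_of_injective _ hinj
    simpa using this
  · intro t ht
    have h1 := hαmin (t + 1) ht
    push Not at h1
    exact h1.2 t (by omega)
  · intro t h1 h2
    rcases hγ with h | h
    · omega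
    · exact (h t h1 (by omega)).trans (h (t + 1) (by omega) h2).symm

end QSTR

open QSTR in
theorem QSTR : S_QSTR := by
  intro E _ R T H n w hw
  classical
  have H' : HM R T := H
  choose α γ h1 h2 h3 h4 h5 using fun k => decomp H' (n k) (w k) (hw k)
  set N := Nat.card E with hN
  let ty : ℕ → (Fin (N + 1) × (Fin (N + 2) → Option E)) := fun k =>
    (⟨γ k - α k, by have := h3 k; omega⟩, fun s =>
      if 1 ≤ α k + s ∧ α k + s - 1 < n k then some (w k (α k + s - 1)) else none)
  obtain ⟨i, j, hij, e1, e2⟩ := ((Finite.wellQuasiOrdered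
    (α := Fin (N + 1) × (Fin (N + 2) → Option E)) (· = ·)).prod
    (wellQuasiOrdered_le (α := ℕ × ℕ))) (fun k => (ty k, (α k, n k - γ k)))
  have hμ : γ i - α i = γ j - α j := congrArg (fun q => (q.1 : ℕ)) e1
  have hf : ∀ s : Fin (N + 2), (if 1 ≤ α i + s ∧ α i + s - 1 < n i then
      some (w i (α i + s - 1)) else none) = (if 1 ≤ α j + s ∧ α j + s - 1 < n j then
      some (w j (α j + s - 1)) else none) := fun s => congrFun (congrArg Prod.snd e1) s
  have hα : α i ≤ α j := e2.1
  have hβ : n i - γ i ≤ n j - γ j := e2.2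
  have a1 := h1 i
  have a2 := h1 j
  have b1 := h2 i
  have b2 := h2 j
  have c1 := h3 i
  have c2 := h3 j
  refine ⟨i, j, α j - α i, hij.ne, by omega, ?_⟩
  -- the middle part
  have mid : ∀ t, α i ≤ t + 1 → t ≤ γ i → t < n i → w i t = w j (α j - α i + t) := by
    intro t ht1 ht2 ht3
    have := hf ⟨t + 1 - α i, by omega⟩
    simp only at this
    rw [if_pos (by omega)] at this
    by_cases hc : 1 ≤ α j + (t + 1 - α i) ∧ α j + (t + 1 - α i) - 1 < n j
    · rw [if_pos hc] at this
      have e := Option.some.inj this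
      rw [show α i + (t + 1 - α i) - 1 = t by omega,
        show α j + (t + 1 - α i) - 1 = α j - α i + t by omega] at e
      exact e
    · rw [if_neg hc] at this
      exact absurd this (by simp)
  -- the first part
  have fst : ∀ d t, t + 1 + d = α i → t < n i → w i t = w j (α j - α i + t) := by
    intro d
    induction d with
    | zero =>
      intro t ht htn
      exact mid t (by omega) (by omega) htn
    | succ d ih =>
      intro t ht htn
      have e := ih (t + 1) (by omega) (by omega)
      have r1 := hw i t (by omega)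
      have r2 := hw j (α j - α i + t) (by omega)
      have k1 := h4 i t (by omega)
      have k2 := h4 j (α j - α i + t) (by omega)
      rw [show α j - α i + t + 1 = α j - α i + (t + 1) by omega] at r2 k2
      rw [e] at r1 k1
      refine succ_unique H'.rev (v := w j (α j - α i + (t + 1))) r1 r2 ?_ ?_
      · exact Relation.transGen_swap.2 k1.2
      · exact Relation.transGen_swap.2 k2.2
  -- the last part
  have lst : ∀ d, γ i + d < n i → w i (γ i + d) = w j (α j - α i + (γ i + d)) := by
    intro d
    induction d with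
    | zero =>
      intro hd
      exact mid (γ i + 0) (by omega) (by omega) hd
    | succ d ih =>
      intro hd
      have e := ih (by omega)
      have r1 := hw i (γ i + d) (by omega)
      have r2 := hw j (α j - α i + (γ i + d)) (by omega)
      have k1 := h5 i (γ i + d) (by omega) (by omega)
      have k2 := h5 j (α j - α i + (γ i + d)) (by omega) (by omega)
      rw [show γ i + d + 1 = γ i + (d + 1) by omega, e] at r1 k1
      rw [show α j - α i + (γ i + d) + 1 = α j - α i + (γ i + (d + 1)) by omega] at r2 k2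
      exact succ_unique H' r1 r2 k1.2 k2.2
  intro t ht
  by_cases ht1 : t + 1 ≤ α i
  · exact fst (α i - (t + 1)) t (by omega) ht
  · by_cases ht2 : t ≤ γ i
    · exact mid t (by omega) ht2 ht
    · have := lst (t - γ i) (by omega)
      rw [show γ i + (t - γ i) = t by omega] at this
      exact this

end Pool.Agent.R474.CE
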