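import Pool.Agent.R474.CE.StmQ

set_option autoImplicit false

namespace Pool.Agent.R474.CE

namespace QUNI

theorem sub {n b k i j : ℕ} {x y : Str} (h : Win n x i y j) (hk : k + b ≤ n) :
    Win b x (i + k) y (j + k) := by
  intro s hs t ht
  have := h (k + s) (by omega) (k + t) (by omega)
  simpa only [add_assoc] using this

theorem symm {b i j : ℕ} {x y : Str} (h : Win b x i y j) : Win b y j x i :=
  fun s hs t ht => (h s hs t ht).symm

theorem trans {b i j k : ℕ} {x y z : Str} (h : Win b x i y j) (h' : Win b y j z k) :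
    Win b x i z k :=
  fun s hs t ht => (h s hs t ht).trans (h' s hs t ht)

theorem refl {b i : ℕ} {x : Str} : Win b x i x i := fun _ _ _ _ => rfl

theorem of_win {b k m i : ℕ} {z : Str} : Win b (win z k m) i z (k + i) := by
  intro s hs t ht
  show z.R (k + (i + s)) (k + (i + t)) = z.R (k + i + s) (k + i + t)
  rw [add_assoc, add_assoc]

/-- `Path` between the last and the first window of `y` -/
theorem path_iff {b : ℕ} {y z : Str} :
    Path b (win y (y.n - b) b) (win y 0 b) z ↔
      b ≤ z.n ∧ Win b z 0 y (y.n - b) ∧ Win b z (z.n - b) y 0 := by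
  constructor
  · rintro ⟨h1, h2, h3⟩
    exact ⟨h1, trans h2 of_win, trans h3 of_win⟩
  · rintro ⟨h1, h2, h3⟩
    exact ⟨h1, trans h2 (symm of_win), trans h3 (symm of_win)⟩

theorem glue (hG : S_QGLUE) (B : Set Str) (b : ℕ) (hB : Std B b) (x z : Str)
    (hx : x ∈ Av Pos B) (hz : z ∈ Av Pos B) (hxn : b ≤ x.n) (hzn : b ≤ z.n)
    (h : Win b x (x.n - b) z 0) :
    ∃ y ∈ Av Pos B, y.n + b = x.n + z.n ∧ Win b y 0 x 0 ∧ Win b y (y.n - b) z (z.n - b) := by
  obtain ⟨y, hy, h1, h2, h3, -⟩ := hG B b hB b le_rfl x hx z hz hxn hzn h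
  refine ⟨y, hy, h1, ?_, ?_⟩
  · have := sub (k := 0) (b := b) h2 (by omega)
    simpa using this
  · have := sub (k := z.n - b) (b := b) h3 (by omega)
    have e : x.n - b + (z.n - b) = y.n - b := by omega
    rw [e, zero_add] at this
    exact this

/-- first part for `p < p'` -/
theorem part1 (hR : S_QRES) (B : Set Str) (b : ℕ) (y : Str)
    (hy : Tr (Av Pos B) b y) (z : Str) (hz : z ∈ Av Pos B) (p p' : ℕ) (hp' : p' + y.n ≤ z.n)
    (h1 : ∀ k, k + b ≤ y.n → Win b z (p + k) y k)
    (h2 : ∀ k, k + b ≤ y.n → Win b z (p' + k) y k) (hlt : p < p') : False := by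
  obtain ⟨hyC, hyb, hno⟩ := hy
  by_cases hc : p + y.n ≤ p' + b
  · refine hno (win z (p + (y.n - b)) (p' + b - (p + (y.n - b)))) ((hR B).2 z hz _ _ (by omega)) ?_
    rw [path_iff]
    refine ⟨?_, ?_, ?_⟩
    · show b ≤ p' + b - (p + (y.n - b))
      omega
    · exact trans of_win (h1 (y.n - b) (by omega))
    · have h3 := h2 0 (by omega)
      refine trans of_win ?_
      have e : p + (y.n - b) + ((win z (p + (y.n - b)) (p' + b - (p + (y.n - b)))).n - b) =
          p' + 0 := by
        show p + (y.n - b) + (p' + b - (p + (y.n - b)) - b) = p' + 0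
        omega
      rw [e]
      exact h3
  · obtain ⟨e, rfl⟩ : ∃ e, p' = p + e := ⟨p' - p, by omega⟩
    have he : 0 < e := by omega
    have hstep : ∀ k, k + e + b ≤ y.n → Win b y k y (k + e) := by
      intro k hk
      have a1 := h2 k (by omega)
      have a2 := h1 (e + k) (by omega)
      have e1 : p + e + k = p + (e + k) := by omega
      rw [e1] at a1
      have := trans (symm a1) a2
      rwa [add_comm e k] at this
    have hiter : ∀ q r, r + q * e + b ≤ y.n → Win b y r y (r + q * e) := by
      intro q
      induction q with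
      | zero =>
        intro r _
        rw [zero_mul, add_zero]
        exact refl
      | succ q ih =>
        intro r hr
        have e1 : r + (q + 1) * e = r + q * e + e := by ring
        rw [e1] at hr ⊢
        exact trans (ih r (by omega)) (hstep _ hr)
    have hdm := Nat.mod_add_div (y.n - b) e
    have hr := Nat.mod_lt (y.n - b) he
    set r := (y.n - b) % e with hrdef
    have hY1 : Win b y r y (y.n - b) := by
      have := hiter ((y.n - b) / e) r (by rw [mul_comm, hdm]; omega)
      rwa [mul_comm, hdm] at this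
    have hY2 : Win b y 0 y e := by
      have := hstep 0 (by omega)
      rwa [zero_add] at this
    refine hno (win y r (e + b - r)) ((hR B).2 y hyC _ _ (by omega)) ?_
    rw [path_iff]
    refine ⟨?_, ?_, ?_⟩
    · show b ≤ e + b - r
      omega
    · exact trans of_win hY1
    · refine trans of_win ?_
      have e1 : r + ((win y r (e + b - r)).n - b) = e := by
        show r + (e + b - r - b) = e
        omega
      rw [e1]
      exact symm hY2

end QUNI

open QUNI in
/-- QUNI -/
theorem QUNI : S_QRES → S_QGLUE → S_QUNI := by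
  intro hR hG B b hB y hy
  refine ⟨?_, ?_⟩
  · intro z hz p p' hp hp' h1 h2
    rcases lt_trichotomy p p' with h | h | h
    · exact (part1 hR B b y hy z hz p p' hp' h1 h2 h).elim
    · exact h
    · exact (part1 hR B b y hy z hz p' p hp h2 h1 h).elim
  · rintro z hz ⟨p, hp, hemb⟩
    obtain ⟨hyC, hyb, hno⟩ := hy
    have hbz : b ≤ z.n := by omega
    have hW : Win y.n z p y 0 := by
      intro s hs t ht
      rw [zero_add, zero_add]
      exact (hemb s hs t ht).symm
    refine ⟨hz, hbz, ?_⟩
    intro w hw hpath
    rw [path_iff] at hpath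
    obtain ⟨hwn, hw1, hw2⟩ := hpath
    have hA : win z (p + (y.n - b)) (z.n - (p + (y.n - b))) ∈ Av Pos B :=
      (hR B).2 z hz _ _ (by omega)
    have hAn : b ≤ (win z (p + (y.n - b)) (z.n - (p + (y.n - b)))).n := by
      show b ≤ z.n - (p + (y.n - b))
      omega
    obtain ⟨v1, hv1, n1, a1, a2⟩ := glue hG B b hB _ w hA hw hAn hwn (by
      refine trans of_win ?_
      have e : p + (y.n - b) + ((win z (p + (y.n - b)) (z.n - (p + (y.n - b)))).n - b) =
          z.n - b := by
        show p + (y.n - b) + (z.n - (p + (y.n - b)) - b) = z.n - b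
        omega
      rw [e]
      exact symm hw1)
    have hv1n : b ≤ v1.n := by omega
    have hGm : win z 0 (p + b) ∈ Av Pos B := (hR B).2 z hz _ _ (by omega)
    have hGn : b ≤ (win z 0 (p + b)).n := by
      show b ≤ p + b
      omega
    obtain ⟨v2, hv2, n2, c1, c2⟩ := glue hG B b hB v1 (win z 0 (p + b)) hv1 hGm hv1n hGn
      (trans a2 (trans hw2 (symm of_win)))
    refine hno v2 hv2 ?_
    rw [path_iff]
    refine ⟨by omega, ?_, ?_⟩
    · refine trans c1 (trans a1 (trans of_win ?_))
      have := sub (k := y.n - b) (b := b) hW (by omega)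
      simpa using this
    · refine trans c2 (trans of_win ?_)
      have e : 0 + ((win z 0 (p + b)).n - b) = p := by
        show 0 + (p + b - b) = p
        omega
      rw [e]
      have := sub (k := 0) (b := b) hW (by omega)
      simpa using this

end Pool.Agent.R474.CE
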