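import Pool.Agent.R474.CE.Stm

set_option autoImplicit false

/-! RES: restriction to a window stays in the class; `Av` is downward closed. -/

namespace Pool.Agent.R474.CE

namespace RES

theorem emb_trans {x y z : Str} (h : Emb x y) (h' : Emb y z) : Emb x z := by
  obtain ⟨k, hk, hR⟩ := h
  obtain ⟨l, hl, hR'⟩ := h'
  refine ⟨l + k, by omega, fun i hi j hj => ?_⟩
  rw [hR i hi j hj, hR' (k + i) (by omega) (k + j) (by omega), Nat.add_assoc, Nat.add_assoc]

theorem down (ok : Bool → Bool → Bool) (B : Set Str) :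
    ∀ x ∈ Av (Kof ok) B, ∀ y, Emb y x → y ∈ Av (Kof ok) B := by
  rintro x ⟨⟨hx1, hx2⟩, hx3⟩ y hy
  refine ⟨?_, fun b hb hby => hx3 b hb (emb_trans hby hy)⟩
  obtain ⟨k, hk, hR⟩ := hy
  refine ⟨fun i hi => ?_, fun i j hij hj => ?_⟩
  · rw [hR i hi i hi]
    exact hx1 (k + i) (by omega)
  · rw [hR i (by omega) j hj, hR j hj i (by omega)]
    exact hx2 (k + i) (k + j) (by omega) (by omega)

end RES

/-- restriction to a window stays in the class; `Av` is downward closed -/
theorem RES : S_RES := by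
  intro ok B
  refine ⟨RES.down ok B, fun x hx k m hkm => ?_⟩
  exact RES.down ok B x hx _ ⟨k, hkm, fun _ _ _ _ => rfl⟩

end Pool.Agent.R474.CE
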