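import Pool.Agent.R474.CE.Stm

/-! # CE-SC: joint embedding implies paths (helper466) -/

set_option autoImplicit false

namespace Pool.Agent.R474.CE

namespace SC

theorem sub_path (hR : S_RES) {ok : Bool → Bool → Bool} {B : Set Str} {b : ℕ} {u v z : Str}
    (hz : z ∈ Av (Kof ok) B) {p p' : ℕ} (hp : p ≤ p') (hp' : p' + b ≤ z.n)
    (hu : Win b z p u 0) (hv : Win b z p' v 0) :
    ∃ z' ∈ Av (Kof ok) B, z'.n = p' + b - p ∧ Path b u v z' := by
  refine ⟨⟨p' + b - p, fun i j => z.R (p + i) (p + j)⟩,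
    (hR ok B).2 z hz p (p' + b - p) (by omega), rfl, ?_, ?_, ?_⟩
  · show b ≤ p' + b - p
    omega
  · intro s hs t ht
    show z.R (p + (0 + s)) (p + (0 + t)) = u.R (0 + s) (0 + t)
    have := hu s hs t ht
    simpa using this
  · intro s hs t ht
    show z.R (p + (p' + b - p - b + s)) (p + (p' + b - p - b + t)) = v.R (0 + s) (0 + t)
    have := hv s hs t ht
    have e1 : p + (p' + b - p - b + s) = p' + s := by omega
    have e2 : p + (p' + b - p - b + t) = p' + t := by omega
    rw [e1, e2]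
    exact this

theorem win_of_emb {b : ℕ} {x z : Str} {p q : ℕ} (hq : q + b ≤ x.n)
    (he : ∀ i < x.n, ∀ j < x.n, x.R i j = z.R (p + i) (p + j)) {u : Str}
    (hw : Win b x q u 0) : Win b z (p + q) u 0 := by
  intro s hs t ht
  rw [← hw s hs t ht, he (q + s) (by omega) (q + t) (by omega)]
  congr 1 <;> omega

/-- the main step: `x` at `p`, `y` at `p'`, `p < p'` -/
theorem step (hR : S_RES) {ok : Bool → Bool → Bool} {B : Set Str} {b L : ℕ} {u v x y z : Str}
    (hbL : b + 1 ≤ L) (hno : ¬ ∃ z ∈ Av (Kof ok) B, Path b u v z)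
    (hmin : ∀ L' < L, ¬ ∃ z ∈ Av (Kof ok) B, z.n = L' ∧ Path b v u z)
    (hx : x ∈ Av (Kof ok) B) (hz : z ∈ Av (Kof ok) B) (hxn : x.n = L) (hyn : y.n = L)
    (hxu : Win b x (L - b) u 0) (hyv : Win b y 0 v 0)
    {p p' : ℕ} (hp : p + L ≤ z.n) (hp' : p' + L ≤ z.n) (hlt : p < p')
    (hex : ∀ i < x.n, ∀ j < x.n, x.R i j = z.R (p + i) (p + j))
    (hey : ∀ i < y.n, ∀ j < y.n, y.R i j = z.R (p' + i) (p' + j)) : False := by
  have zu : Win b z (p + (L - b)) u 0 := win_of_emb (by omega) hex hxu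
  have zv : Win b z (p' + 0) v 0 := win_of_emb (by omega) hey hyv
  rw [Nat.add_zero] at zv
  by_cases hc : p + (L - b) ≤ p'
  · obtain ⟨z', h1, _, h3⟩ := sub_path hR hz hc (by omega) zu zv
    exact hno ⟨z', h1, h3⟩
  · -- `v` occurs in `x` at `p' - p`
    have xv : Win b x (p' - p) v 0 := by
      intro s hs t ht
      rw [← zv s hs t ht, hex (p' - p + s) (by omega) (p' - p + t) (by omega)]
      congr 1 <;> omega
    obtain ⟨z', h1, h2, h3⟩ := sub_path hR hx (p := p' - p) (p' := L - b) (by omega) (by omega)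
      xv hxu
    exact hmin (L - b + b - (p' - p)) (by omega) ⟨z', h1, h2, h3⟩

/-- the modified structure -/
def w (z0 : Str) (L : ℕ) (c : Bool) : Str :=
  ⟨L, fun i j => if i = 0 ∧ j = L - 1 then c else if i = L - 1 ∧ j = 0 then !c else z0.R i j⟩

theorem w_near {z0 : Str} {L b : ℕ} {c : Bool} (hbL : b + 1 ≤ L) (k s t : ℕ)
    (hs : s < b) (ht : t < b) : (w z0 L c).R (k + s) (k + t) = z0.R (k + s) (k + t) := by
  unfold w
  have h1 : ¬ (k + s = 0 ∧ k + t = L - 1) := by omega
  have h2 : ¬ (k + s = L - 1 ∧ k + t = 0) := by omega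
  simp only [h1, h2, if_false]

end SC

open SC

theorem SC : S_RES → S_LOC → S_SC := by
  intro hR hL ok B b hb h10 h01 hB hJ u hu v hv hun hvn
  by_contra hno
  -- a path from v to u
  obtain ⟨z, hz, ⟨p, hp, hep⟩, ⟨p', hp', hep'⟩⟩ := hJ u hu v hv
  have zu : Win b z (p + 0) u 0 := win_of_emb (by omega) hep (fun s _ t _ => rfl)
  have zv : Win b z (p' + 0) v 0 := win_of_emb (by omega) hep' (fun s _ t _ => rfl)
  rw [Nat.add_zero] at zu zv
  have hlt : p' < p := by
    by_contra hc
    obtain ⟨z', h1, _, h3⟩ := sub_path hR hz (not_lt.1 hc) (by omega) zu zv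
    exact hno ⟨z', h1, h3⟩
  obtain ⟨zz, hzz1, hzz2, hzz3⟩ := sub_path hR hz hlt.le (by omega) zv zu
  have hex : ∃ L, ∃ z ∈ Av (Kof ok) B, z.n = L ∧ Path b v u z := ⟨_, zz, hzz1, rfl, hzz3⟩
  classical
  obtain ⟨L, hLdef⟩ : ∃ L, L = Nat.find hex := ⟨_, rfl⟩
  have hfind := Nat.find_spec hex
  rw [← hLdef] at hfind
  have hmin : ∀ L' < L, ¬ ∃ z ∈ Av (Kof ok) B, z.n = L' ∧ Path b v u z := by
    intro L' hL'
    rw [hLdef] at hL'
    exact Nat.find_min hex hL'
  obtain ⟨z0, hz0, hz0n, hb0, hw0, hw1⟩ := hfind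
  rw [hz0n] at hb0 hw1
  have hbL : b + 1 ≤ L := by
    by_contra hc
    have hLb : L = b := by omega
    apply hno
    refine ⟨z0, hz0, by omega, ?_, ?_⟩
    · have e : L - b = 0 := by omega
      rw [e] at hw1
      exact hw1
    · have e : z0.n - b = 0 := by omega
      rw [e]
      exact hw0
  -- the two modified structures
  have hwAv : ∀ c : Bool, w z0 L c ∈ Av (Kof ok) B := by
    intro c
    refine hL ok B b hb hB (w z0 L c) (by show b ≤ L; omega) ?_ ?_
    · intro k hk
      have hk' : k + b ≤ L := hk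
      exact ⟨z0, hz0, k, by omega, fun s hs t ht => w_near hbL k s t hs ht⟩
    · intro s t hst ht
      have ht' : t < L := ht
      by_cases hc : s = 0 ∧ t = L - 1
      · have e1 : (w z0 L c).R s t = c := by
          unfold w
          simp only [hc, and_self, if_true]
        have e2 : (w z0 L c).R t s = !c := by
          unfold w
          have h1 : ¬ (t = 0 ∧ s = L - 1) := by omega
          have h2 : t = L - 1 ∧ s = 0 := ⟨hc.2, hc.1⟩
          simp only [h1, if_false]
          rw [if_pos h2]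
        rw [e1, e2]
        cases c
        · exact h01
        · exact h10
      · have e1 : (w z0 L c).R s t = z0.R s t := by
          unfold w
          have h2 : ¬ (s = L - 1 ∧ t = 0) := by omega
          simp only [hc, h2, if_false]
        have e2 : (w z0 L c).R t s = z0.R t s := by
          unfold w
          have h1 : ¬ (t = 0 ∧ s = L - 1) := by omega
          have h2 : ¬ (t = L - 1 ∧ s = 0) := by omega
          simp only [h1, h2, if_false]
        rw [e1, e2]
        exact hz0.1.2 s t (by omega) (by omega)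
  have hwv : ∀ c : Bool, Win b (w z0 L c) 0 v 0 := by
    intro c s hs t ht
    rw [w_near hbL 0 s t hs ht]
    exact hw0 s hs t ht
  have hwu : ∀ c : Bool, Win b (w z0 L c) (L - b) u 0 := by
    intro c s hs t ht
    rw [w_near hbL (L - b) s t hs ht]
    exact hw1 s hs t ht
  obtain ⟨y, hy, ⟨q, hq, heq⟩, ⟨q', hq', heq'⟩⟩ := hJ _ (hwAv true) _ (hwAv false)
  have hqL : q + L ≤ y.n := hq
  have hqL' : q' + L ≤ y.n := hq'
  rcases lt_trichotomy q q' with h | h | h
  · exact step hR hbL hno hmin (hwAv true) hy rfl rfl (hwu true) (hwv false) hqL hqL' h heq heq'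
  · subst h
    have a1 := heq 0 (by show 0 < L; omega) (L - 1) (by show L - 1 < L; omega)
    have a2 := heq' 0 (by show 0 < L; omega) (L - 1) (by show L - 1 < L; omega)
    have b1 : (w z0 L true).R 0 (L - 1) = true := by unfold w; simp
    have b2 : (w z0 L false).R 0 (L - 1) = false := by unfold w; simp
    rw [b1] at a1
    rw [b2] at a2
    rw [← a1] at a2
    exact absurd a2 (by decide)
  · exact step hR hbL hno hmin (hwAv false) hy rfl rfl (hwu false) (hwv true) hqL' hqL h heq' heq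

end Pool.Agent.R474.CE
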