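import Pool.Agent.R474.CE.Stm

/-!
# SUF: sufficiency of the criterion for atomicity
-/

set_option autoImplicit false

namespace Pool.Agent.R474.CE

namespace SUF

lemma emb_trans {x y z : Str} (h1 : Emb x y) (h2 : Emb y z) : Emb x z := by
  obtain ⟨k, hk, hk'⟩ := h1
  obtain ⟨l, hl, hl'⟩ := h2
  refine ⟨l + k, by omega, ?_⟩
  intro i hi j hj
  rw [hk' i hi j hj, hl' (k + i) (by omega) (k + j) (by omega)]
  congr 1 <;> omega

lemma emb_win {x y : Str} (k : ℕ) (h : k + x.n ≤ y.n) (hw : Win x.n y k x 0) : Emb x y := by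
  refine ⟨k, h, ?_⟩
  intro i hi j hj
  have := hw i hi j hj
  simp only [Nat.zero_add] at this
  exact this.symm

lemma path_glue (hR : S_RES) (hG : S_GLUE) (ok : Bool → Bool → Bool) (B : Set Str) (b : ℕ)
    (hb : 1 ≤ b) (hok : ok true false = true) (hB : ∀ y ∈ B, y.n ≤ b) (hC : CritA ok B b)
    (x y : Str) (hx : x ∈ Av (Kof ok) B) (hy : y ∈ Av (Kof ok) B) (hxb : b ≤ x.n)
    (hyb : b ≤ y.n) : ∃ z ∈ Av (Kof ok) B, Emb x z ∧ Emb y z := by
  have hu := (hR ok B).2 x hx (x.n - b) b (by omega)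
  have hv := (hR ok B).2 y hy 0 b (by omega)
  obtain ⟨z, hz, -, hzb, hz1, hz2⟩ := hC.2 _ hu _ hv rfl rfl
  have hw1 : Win b x (x.n - b) z 0 := by
    intro s hs t ht
    have := hz1 s hs t ht
    simp only [Nat.zero_add] at this
    simp only [Nat.zero_add]
    exact this.symm
  obtain ⟨y1, hy1, hn1, ha1, hc1⟩ := hG ok B b hb hok hB x hx z hz hxb hzb hw1
  have hw2 : Win b y1 (y1.n - b) y 0 := by
    intro s hs t ht
    have h1 := hz2 s hs t ht
    simp only [Nat.zero_add] at h1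
    have h2 := hc1 (z.n - b + s) (by omega) (z.n - b + t) (by omega)
    simp only [Nat.zero_add] at h2
    have e1 : y1.n - b + s = x.n - b + (z.n - b + s) := by omega
    have e2 : y1.n - b + t = x.n - b + (z.n - b + t) := by omega
    simp only [Nat.zero_add]
    rw [e1, e2, h2, h1]
  obtain ⟨y2, hy2, hn2, ha2, hc2⟩ :=
    hG ok B b hb hok hB y1 hy1 y hy (by omega) hyb hw2
  refine ⟨y2, hy2, ?_, ?_⟩
  · exact emb_trans (emb_win 0 (by omega) ha1) (emb_win 0 (by omega) ha2)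
  · exact emb_win (y1.n - b) (by omega) hc2

end SUF

/-- sufficiency -/
theorem SUF (hR : S_RES) (hG : S_GLUE) : S_SUF := by
  intro ok B b hb hok _ hB hC x hx y hy
  by_cases hxb : b ≤ x.n
  · by_cases hyb : b ≤ y.n
    · exact SUF.path_glue hR hG ok B b hb hok hB hC x y hx hy hxb hyb
    · have hu := (hR ok B).2 x hx 0 b (by omega)
      obtain ⟨z1, hz1, -, he1, he2⟩ := hC.1 y hy _ hu (by omega) le_rfl
      have hz1b : b ≤ z1.n := by
        obtain ⟨k, hk, -⟩ := he2
        simp only at hk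
        omega
      obtain ⟨z, hz, h1, h2⟩ := SUF.path_glue hR hG ok B b hb hok hB hC x z1 hx hz1 hxb hz1b
      exact ⟨z, hz, h1, SUF.emb_trans he1 h2⟩
  · by_cases hyb : b ≤ y.n
    · have hu := (hR ok B).2 y hy 0 b (by omega)
      obtain ⟨z1, hz1, -, he1, he2⟩ := hC.1 x hx _ hu (by omega) le_rfl
      have hz1b : b ≤ z1.n := by
        obtain ⟨k, hk, -⟩ := he2
        simp only at hk
        omega
      obtain ⟨z, hz, h1, h2⟩ := SUF.path_glue hR hG ok B b hb hok hB hC z1 y hz1 hy hz1b hyb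
      exact ⟨z, hz, SUF.emb_trans he1 h1, h2⟩
    · obtain ⟨z, hz, -, h1, h2⟩ := hC.1 x hx y hy (by omega) (by omega)
      exact ⟨z, hz, h1, h2⟩

end Pool.Agent.R474.CE
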