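import Pool.Agent.R474.CE.Stm

/-!
# Consecutive embeddings of posets: definitions and statements of the pieces
-/

set_option autoImplicit false

namespace Pool.Agent.R474.CE

/-- partial orders -/
def Pos (x : Str) : Prop :=
  (∀ i < x.n, x.R i i = true) ∧
  (∀ i < x.n, ∀ j < x.n, i ≠ j → x.R i j = true → x.R j i = false) ∧
  ∀ i < x.n, ∀ j < x.n, ∀ k < x.n, x.R i j = true → x.R j k = true → x.R i k = true

/-- the window of `x` at `k` of size `m` -/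
def win (x : Str) (k m : ℕ) : Str := ⟨m, fun i j => x.R (k + i) (k + j)⟩

/-- the standing assumptions -/
def Std (B : Set Str) (b : ℕ) : Prop := 1 ≤ b ∧ ∀ y ∈ B, y.n ≤ b

def S_QRES : Prop := ∀ B : Set Str,
  (∀ x ∈ Av Pos B, ∀ y, Emb y x → y ∈ Av Pos B) ∧
  ∀ x ∈ Av Pos B, ∀ k m, k + m ≤ x.n → win x k m ∈ Av Pos B

def S_QLOC : Prop := ∀ (B : Set Str) (b : ℕ), Std B b → ∀ x : Str, Pos x → b ≤ x.n →
  (∀ k, k + b ≤ x.n → ∃ z ∈ Av Pos B, ∃ l, l + b ≤ z.n ∧ Win b x k z l) → x ∈ Av Pos B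

/-- the free amalgam of `x` and `z` over a common window of size `D` -/
def Amal (D : ℕ) (x z y : Str) : Prop :=
  y.n + D = x.n + z.n ∧ Win x.n y 0 x 0 ∧ Win z.n y (x.n - D) z 0 ∧
  (∀ s < x.n, ∀ t < z.n, y.R s (x.n - D + t) = true →
    ∃ w < D, x.R s (x.n - D + w) = true ∧ z.R w t = true) ∧
  ∀ s < x.n, ∀ t < z.n, y.R (x.n - D + t) s = true →
    ∃ w < D, z.R t w = true ∧ x.R (x.n - D + w) s = true

def S_QGLUE : Prop := ∀ (B : Set Str) (b : ℕ), Std B b → ∀ D, b ≤ D →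
  ∀ x ∈ Av Pos B, ∀ z ∈ Av Pos B, D ≤ x.n → D ≤ z.n → Win D x (x.n - D) z 0 →
  ∃ y ∈ Av Pos B, Amal D x z y

/-- `u`, `u'` have size `m` and differ exactly in the extreme pair -/
def FP (u u' : Str) (m : ℕ) : Prop :=
  u.n = m ∧ u'.n = m ∧
  (∀ s < m, ∀ t < m, u.R s t ≠ u'.R s t → (s = 0 ∧ t = m - 1) ∨ (s = m - 1 ∧ t = 0)) ∧
  (u.R 0 (m - 1) ≠ u'.R 0 (m - 1) ∨ u.R (m - 1) 0 ≠ u'.R (m - 1) 0)

def FreeP (C : Set Str) (m : ℕ) : Prop := ∃ u ∈ C, ∃ u' ∈ C, FP u u' m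

def KK (b : ℕ) : ℕ := b + 2 ^ (b * b) * 8 ^ b + 2

def S_QPUMP : Prop := ∀ (B : Set Str) (b : ℕ), Std B b → ∀ m, KK b ≤ m → FreeP (Av Pos B) m →
  (∃ m', b < m' ∧ m' < m ∧ m ≤ m' + KK b ∧ FreeP (Av Pos B) m') ∧
  ∃ m', m < m' ∧ FreeP (Av Pos B) m'

/-- a recurrent free pair gives an infinite antichain -/
def S_QLEMA : Prop := ∀ (B : Set Str) (b : ℕ), Std B b → ∀ m, b < m → ∀ u ∈ Av Pos B,
  ∀ u' ∈ Av Pos B, FP u u' m →
  ∀ z ∈ Av Pos B, Path b (win u (m - b) b) (win u 0 b) z → ¬ WQO (Av Pos B)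

/-- transient: no way back from the last window of size `b` to the first one -/
def Tr (C : Set Str) (b : ℕ) (y : Str) : Prop :=
  y ∈ C ∧ b ≤ y.n ∧ ∀ z ∈ C, ¬ Path b (win y (y.n - b) b) (win y 0 b) z

/-- transient structures occur (with their windows) at most once -/
def S_QUNI : Prop := ∀ (B : Set Str) (b : ℕ), Std B b → ∀ y, Tr (Av Pos B) b y →
  (∀ z ∈ Av Pos B, ∀ p p', p + y.n ≤ z.n → p' + y.n ≤ z.n →
    (∀ k, k + b ≤ y.n → Win b z (p + k) y k) → (∀ k, k + b ≤ y.n → Win b z (p' + k) y k) →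
    p = p') ∧
  ∀ z ∈ Av Pos B, Emb y z → Tr (Av Pos B) b z

def S_QLEMB : Prop := ∀ (B : Set Str) (b : ℕ), Std B b → WQO (Av Pos B) →
  ∃ m0, ∀ m, m0 ≤ m → ¬ FreeP (Av Pos B) m

/-- without free pairs of size `> D` the structures are determined by their windows of size `D` -/
def S_QDET : Prop := ∀ (B : Set Str) (b D : ℕ), Std B b → b ≤ D →
  (∀ m, D < m → ¬ FreeP (Av Pos B) m) →
  ∀ x ∈ Av Pos B, ∀ x' ∈ Av Pos B, x.n = x'.n → D ≤ x.n →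
  (∀ k, k + D ≤ x.n → Win D x k x' k) → Win x.n x 0 x' 0

/-- words over a finite alphabet with allowed successors: if the marker words (the first and the
last letter do not occur inside) are bounded, then there is no infinite antichain -/
def S_QSTR : Prop := ∀ (E : Type) [Finite E] (R : E → E → Prop) (T : ℕ),
  (∀ (n : ℕ) (w : ℕ → E), (∀ t, t + 1 < n → R (w t) (w (t + 1))) → 2 ≤ n →
    (∀ t, 0 < t → t + 1 < n → w t ≠ w 0 ∧ w t ≠ w (n - 1)) → n ≤ T) →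
  ∀ (n : ℕ → ℕ) (w : ℕ → ℕ → E), (∀ k t, t + 1 < n k → R (w k t) (w k (t + 1))) →
  ∃ i j p, i ≠ j ∧ p + n i ≤ n j ∧ ∀ t < n i, w i t = w j (p + t)

/-- marker structures: the first and the last window of size `D + 1` do not occur inside -/
def MK (C : Set Str) (D n : ℕ) : Prop := ∃ x ∈ C, x.n = n ∧ D + 2 ≤ n ∧
  ∀ k, 1 ≤ k → k + D + 1 < n → ¬ Win (D + 1) x k x 0 ∧ ¬ Win (D + 1) x k x (n - D - 1)

def TT (D : ℕ) : ℕ := 2 ^ (D * D) + 2 * D + 4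

def S_QMKP : Prop := ∀ (B : Set Str) (b D : ℕ), Std B b → b ≤ D → ∀ n, TT D ≤ n →
  MK (Av Pos B) D n → (∃ n', n' < n ∧ n ≤ n' + TT D ∧ MK (Av Pos B) D n') ∧
  ∃ n', n < n' ∧ MK (Av Pos B) D n'

def S_QMKN : Prop := ∀ (B : Set Str) (b D : ℕ), Std B b → b ≤ D →
  (∀ n0, ∃ n, n0 ≤ n ∧ MK (Av Pos B) D n) → ¬ WQO (Av Pos B)

def S_QWSUF : Prop := ∀ (B : Set Str) (b D : ℕ), Std B b → b ≤ D →
  (∀ m, D < m → ¬ FreeP (Av Pos B) m) → (∀ n, TT D ≤ n → ¬ MK (Av Pos B) D n) →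
  WQO (Av Pos B)

/-! ## Atomicity -/

def JE (C : Set Str) : Prop := ∀ x ∈ C, ∀ y ∈ C, ∃ z ∈ C, Emb x z ∧ Emb y z

/-- paths can be taken short -/
def S_QCUT : Prop := ∀ (B : Set Str) (b : ℕ), Std B b → ∀ u v, ∀ z ∈ Av Pos B, Path b u v z →
  ∃ z' ∈ Av Pos B, z'.n ≤ M b ∧ Path b u v z'

/-- sizes of the small structures, and of the structures that contain two of them -/
def S1 (b : ℕ) : ℕ := M b + b + 4
def S2 (b : ℕ) : ℕ := 2 * S1 b + M b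

def JS (C : Set Str) (b : ℕ) : Prop :=
  ∀ x ∈ C, ∀ y ∈ C, x.n ≤ S1 b → y.n ≤ S1 b → ∃ z ∈ C, z.n ≤ S2 b ∧ Emb x z ∧ Emb y z

/-- all windows can be joined, in both directions -/
def CN (C : Set Str) (b : ℕ) : Prop :=
  ∀ u ∈ C, ∀ v ∈ C, u.n = b → v.n = b → ∃ z ∈ C, z.n ≤ M b ∧ Path b u v z

def S_QJS : Prop := ∀ (B : Set Str) (b : ℕ), Std B b → JE (Av Pos B) → JS (Av Pos B) b

def S_QNF : Prop := ∀ (B : Set Str) (b : ℕ), Std B b → JE (Av Pos B) →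
  ¬ CN (Av Pos B) b → ∀ m, b < m → ¬ FreeP (Av Pos B) m

def S_QCN : Prop := ∀ (B : Set Str) (b : ℕ), Std B b → JS (Av Pos B) b → CN (Av Pos B) b →
  JE (Av Pos B)

def S_QBI : Prop := ∀ (B : Set Str) (b : ℕ), Std B b → JS (Av Pos B) b →
  ¬ CN (Av Pos B) b → (∀ m, b < m → ¬ FreeP (Av Pos B) m) → JE (Av Pos B)

/-! ## Codes -/

def posC (n c : ℕ) : Prop :=
  (∀ i < n, bit n c i i) ∧ (∀ i < n, ∀ j < n, i ≠ j → bit n c i j → ¬ bit n c j i) ∧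
  ∀ i < n, ∀ j < n, ∀ k < n, bit n c i j → bit n c j k → bit n c i k

def avQ (B : Inp) (n c : ℕ) : Prop :=
  posC n c ∧
  ∀ p ∈ B, ¬ ∃ k < n + 1, k + p.1 ≤ n ∧ ∀ i < p.1, ∀ j < p.1, ((i, j) ∈ p.2 ↔ bit n c (k + i) (k + j))

/-- free pairs of size `m` with codes `< N` -/
def freeC (B : Inp) (N m : ℕ) : Prop :=
  ∃ c < N, avQ B m c ∧ ∃ d < N, avQ B m d ∧
    (∀ s < m, ∀ t < m, ¬ (bit m c s t ↔ bit m d s t) → (s = 0 ∧ t = m - 1) ∨ (s = m - 1 ∧ t = 0)) ∧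
    (¬ (bit m c 0 (m - 1) ↔ bit m d 0 (m - 1)) ∨ ¬ (bit m c (m - 1) 0 ↔ bit m d (m - 1) 0))

def mkC (B : Inp) (N D n : ℕ) : Prop :=
  ∃ c < N, avQ B n c ∧ D + 2 ≤ n ∧ ∀ k < n, 1 ≤ k → k + D + 1 < n →
    ¬ winC (D + 1) n c k n c 0 ∧ ¬ winC (D + 1) n c k n c (n - D - 1)

def jsC (B : Inp) (N b : ℕ) : Prop :=
  ∀ n < S1 b + 1, ∀ c < N, avQ B n c → ∀ n' < S1 b + 1, ∀ c' < N, avQ B n' c' →
    ∃ m < S2 b + 1, ∃ d < N, avQ B m d ∧ embC n c m d ∧ embC n' c' m d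

def cnC (B : Inp) (N b : ℕ) : Prop :=
  ∀ c < N, avQ B b c → ∀ c' < N, avQ B b c' →
    ∃ m < M b + 1, ∃ d < N, avQ B m d ∧ b ≤ m ∧ winC b m d 0 b c 0 ∧ winC b m d (m - b) b c' 0

/-- the codes are correct, when `N` is large -/
def S_QCOR : Prop := (∀ B n c, avQ B n c ↔ cod n c ∈ Av Pos (bas B)) ∧
  (∀ B N m, 2 ^ (m * m) ≤ N → (freeC B N m ↔ FreeP (Av Pos (bas B)) m)) ∧
  (∀ B N D n, 2 ^ (n * n) ≤ N → (mkC B N D n ↔ MK (Av Pos (bas B)) D n)) ∧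
  (∀ B N b, 1 ≤ b → 2 ^ (S2 b * S2 b) ≤ N → (jsC B N b ↔ JS (Av Pos (bas B)) b)) ∧
  (∀ B N b, 1 ≤ b → 2 ^ (S2 b * S2 b) ≤ N → (cnC B N b ↔ CN (Av Pos (bas B)) b))

def S_QPAV : Prop := PrimrecPred (fun q : Inp × ℕ × ℕ => avQ q.1 q.2.1 q.2.2)
def S_QPFR : Prop := PrimrecPred (fun q : Inp × ℕ × ℕ => freeC q.1 q.2.1 q.2.2)
def S_QPMK : Prop := PrimrecPred (fun q : Inp × ℕ × ℕ × ℕ => mkC q.1 q.2.1 q.2.2.1 q.2.2.2)
def S_QPJS : Prop := PrimrecPred (fun q : Inp × ℕ × ℕ => jsC q.1 q.2.1 q.2.2)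
def S_QPCN : Prop := PrimrecPred (fun q : Inp × ℕ × ℕ => cnC q.1 q.2.1 q.2.2)

/-- the coded criteria -/
def wQ (B : Inp) : Prop :=
  (∀ m < 2 * KK (bd B) + 1, KK (bd B) ≤ m → ¬ freeC B (2 ^ (m * m)) m) ∧
  ∀ n < 2 * TT (KK (bd B)) + 1, TT (KK (bd B)) ≤ n → ¬ mkC B (2 ^ (n * n)) (KK (bd B)) n

def aQ (B : Inp) : Prop :=
  jsC B (2 ^ (S2 (bd B) * S2 (bd B))) (bd B) ∧
  (cnC B (2 ^ (S2 (bd B) * S2 (bd B))) (bd B) ∨
    ∀ m < 2 * KK (bd B) + 1, bd B < m → ¬ freeC B (2 ^ (m * m)) m)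

def S_QPW : Prop := PrimrecPred (fun B : Inp => wQ B)
def S_QPA : Prop := PrimrecPred (fun B : Inp => aQ B)

/-- all three classes, both problems -/
def Result3 : Prop := Result ∧
  ComputablePred (fun B : Inp => WQO (Av Pos (bas B))) ∧
  ComputablePred (fun B : Inp => Atomic (Av Pos (bas B)))

end Pool.Agent.R474.CE
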